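import Pool.Agent.Helper15.LP.Defs

set_option autoImplicit false

/-!
MP_2f9829_co, module ROWS: sums over neighbourhoods of mean zero functions of the crossing pattern.
-/

open Finset
open scoped Classical
open Pool.Agent.Helper15.LR

namespace Pool.Agent.Helper15.LP

noncomputable section

/-- `PP` with any instances -/
lemma ROWS_PP {ι κ : Type} [Fintype ι] [Fintype κ] [Fintype (ι → κ)] (w : ι → κ → ℝ)
    (E : Set (ι → κ)) : PP w E = ∑ x : ι → κ, if x ∈ E then ∏ i, w i (x i) else 0 := by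
  unfold PP
  exact sum_congr (by ext x; simp only [mem_univ]) (fun x _ => rfl)

/-- first marginal of a product of levels -/
lemma ROWS_marg {A B : Type} [Fintype A] [Fintype B] (m : ℕ) (w : A × B → ℝ) (a : ℝ)
    (hw : ∀ x, ∑ y, w (x, y) = a) (F : Set (Fin m → A)) :
    PP (fun (_ : Fin m) (p : A × B) => w p) {x | (fun k => (x k).1) ∈ F} =
      ∑ X : Fin m → A, if X ∈ F then a ^ m else 0 := by
  rw [ROWS_PP]
  have h1 : ∀ f : (Fin m → A × B) → ℝ,
      ∑ x, f x = ∑ X : Fin m → A, ∑ Y : Fin m → B, f (fun k => (X k, Y k)) := by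
    intro f
    rw [← Fintype.sum_prod_type' (fun (X : Fin m → A) (Y : Fin m → B) => f (fun k => (X k, Y k)))]
    refine (Fintype.sum_equiv (Equiv.arrowProdEquivProdArrow (Fin m) (fun _ => A) (fun _ => B))
      _ _ ?_)
    intro x
    rfl
  rw [h1]
  refine sum_congr rfl (fun X _ => ?_)
  by_cases hX : X ∈ F
  · rw [if_pos hX]
    have h2 : ∀ Y : Fin m → B, (if (fun k => (X k, Y k)) ∈
        {x : Fin m → A × B | (fun k => (x k).1) ∈ F} then ∏ i, w (X i, Y i) else 0) =
        ∏ i, w (X i, Y i) := fun Y => if_pos hX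
    rw [sum_congr rfl (fun Y _ => h2 Y)]
    have h3 := Finset.prod_univ_sum (fun _ : Fin m => (univ : Finset B))
      (fun i y => w (X i, y))
    rw [Fintype.piFinset_univ] at h3
    rw [← h3, prod_congr rfl (fun i _ => hw (X i)), prod_const, card_univ, Fintype.card_fin]
  · rw [if_neg hX]
    exact sum_eq_zero (fun Y _ => if_neg hX)

/-- patterns and sign vectors -/
def ROWS_e {m : ℕ} (τ : Fin m → Bool) : (Fin m → Bool) ≃ Finset (Fin m) where
  toFun κ := univ.filter (fun k => τ k ≠ κ k)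
  invFun I := fun k => if k ∈ I then !(τ k) else τ k
  left_inv κ := by
    funext k
    simp only [mem_filter, mem_univ, true_and]
    cases h1 : τ k <;> cases h2 : κ k <;> simp
  right_inv I := by
    ext k
    simp only [mem_filter, mem_univ, true_and]
    by_cases hk : k ∈ I
    · simp [hk]
    · simp [hk]

lemma ROWS_hoef (hH : Hoeffding_stmt) {V : Type} [Fintype V] (D m : ℕ) (hD : 1 ≤ D)
    (T : Finset V) (hT : T.card ≤ D) (r : V → Finset (Fin m) → ℝ)
    (hr : ∀ v I, |r v I| ≤ 1) (hr0 : ∀ v, ∑ I, r v I = 0) (τ : Fin m → Bool) :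
    PP (fun (_ : V) (_ : Fin m → Bool) => (1 / 2 : ℝ) ^ m)
      {Z | 5 * Real.sqrt (m * D) < |∑ v ∈ T, r v (univ.filter (fun k => τ k ≠ Z v k))|} ≤
      2 * Real.exp (-(25 / 2 * m)) := by
  have hsum1 : ∑ _κ : Fin m → Bool, (1 / 2 : ℝ) ^ m = 1 := by
    rw [sum_const, card_univ, Fintype.card_fun, Fintype.card_bool, Fintype.card_fin,
      nsmul_eq_mul]
    push_cast
    rw [← mul_pow]
    norm_num
  rcases Nat.eq_zero_or_pos T.card with h0 | hpos
  · have hTe : T = ∅ := card_eq_zero.1 h0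
    have hemp : {Z : V → (Fin m → Bool) | 5 * Real.sqrt (m * D) <
        |∑ v ∈ T, r v (univ.filter (fun k => τ k ≠ Z v k))|} = ∅ := by
      ext Z
      simp only [Set.mem_ofPred_eq, Set.mem_empty_iff_false, iff_false, not_lt]
      rw [hTe, sum_empty, abs_zero]
      positivity
    rw [hemp, ROWS_PP]
    refine le_trans (le_of_eq (sum_eq_zero (fun x _ => ?_))) (by positivity)
    exact if_neg (Set.notMem_empty x)
  · have h := hH V (Fin m → Bool) (fun _ _ => (1 / 2 : ℝ) ^ m) T
      (fun v κ => r v (univ.filter (fun k => τ k ≠ κ k))) 1 (5 * Real.sqrt (m * D))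
      (fun _ _ => by positivity) (fun _ => hsum1) one_pos (by positivity)
      (fun v κ => hr v _) (fun v => by
        rw [← mul_sum]
        have : ∑ κ : Fin m → Bool, r v (univ.filter (fun k => τ k ≠ κ k)) = ∑ I, r v I :=
          Fintype.sum_equiv (ROWS_e τ) _ _ (fun κ => rfl)
        rw [this, hr0, mul_zero])
    have hmono : PP (fun (_ : V) (_ : Fin m → Bool) => (1 / 2 : ℝ) ^ m)
        {Z | 5 * Real.sqrt (m * D) < |∑ v ∈ T, r v (univ.filter (fun k => τ k ≠ Z v k))|} ≤
        PP (fun (_ : V) (_ : Fin m → Bool) => (1 / 2 : ℝ) ^ m)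
        {Z | 5 * Real.sqrt (m * D) ≤ |∑ v ∈ T, r v (univ.filter (fun k => τ k ≠ Z v k))|} := by
      rw [ROWS_PP, ROWS_PP]
      refine sum_le_sum (fun Z _ => ?_)
      by_cases h1 : Z ∈ {Z : V → (Fin m → Bool) | 5 * Real.sqrt (m * D) <
        |∑ v ∈ T, r v (univ.filter (fun k => τ k ≠ Z v k))|}
      · have h1' : 5 * Real.sqrt (m * D) < |∑ v ∈ T, r v (univ.filter (fun k => τ k ≠ Z v k))| :=
          h1
        have h2' : Z ∈ {Z : V → (Fin m → Bool) | 5 * Real.sqrt (m * D) ≤
          |∑ v ∈ T, r v (univ.filter (fun k => τ k ≠ Z v k))|} := h1'.le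
        rw [if_pos h1, if_pos h2']
      · rw [if_neg h1]
        split_ifs
        · positivity
        · exact le_rfl
    refine hmono.trans (h.trans ?_)
    refine mul_le_mul_of_nonneg_left (Real.exp_le_exp.2 ?_) (by norm_num)
    have hs : (5 * Real.sqrt (m * D)) ^ 2 = 25 * (m * D) := by
      rw [mul_pow, Real.sq_sqrt (by positivity)]
      norm_num
    rw [hs, one_pow, mul_one, neg_div, neg_le_neg_iff]
    have hTr : (0 : ℝ) < T.card := by exact_mod_cast hpos
    have hTD : (T.card : ℝ) ≤ D := by exact_mod_cast hT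
    rw [le_div_iff₀ (by positivity)]
    have hm0 : (0 : ℝ) ≤ m := Nat.cast_nonneg m
    nlinarith [mul_le_mul_of_nonneg_left hTD hm0]

theorem lp_ROWS (hH : Hoeffding_stmt) : Rows_stmt := by
  intro V _ G D m R w u r hreg hm hD hR hW hr hr0
  obtain ⟨hw0, hw1, hw2, -, -⟩ := hW
  set N1 := (Nb G u).filter (fun b => b ∈ R) with hN1
  set T := (Nb G u).filter (fun b => b ∉ R) with hTdef
  have hTcard : T.card ≤ D := by
    rw [← hreg u]
    exact card_filter_le _ _
  have hN1c : (N1.card : ℝ) ≤ 20 * Real.sqrt (m * D) := (hR u).2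
  set Eτ : (Fin m → Bool) → Set (Fin m → V → Bool) := fun τ =>
    {X | 5 * Real.sqrt (m * D) < |∑ v ∈ T, r v (univ.filter (fun k => τ k ≠ X k v))|} with hEτ
  -- union bound
  have step1 : PP (fun (_ : Fin m) (p : (V → Bool) × (V → Bool)) => w p)
      {x | 25 * Real.sqrt (m * D) < |∑ v ∈ Nb G u, r v (pat (tr x) u v)|} ≤
      ∑ τ : Fin m → Bool, PP (fun (_ : Fin m) (p : (V → Bool) × (V → Bool)) => w p)
        {x | (fun k => (x k).1) ∈ Eτ τ} := by
    simp only [ROWS_PP]
    rw [sum_comm]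
    refine sum_le_sum (fun x _ => ?_)
    have hnn : ∀ τ ∈ (univ : Finset (Fin m → Bool)), 0 ≤ (if x ∈
        {x : Fin m → (V → Bool) × (V → Bool) | (fun k => (x k).1) ∈ Eτ τ} then
          ∏ i, w (x i) else 0) := by
      intro τ _
      split_ifs
      · exact prod_nonneg (fun i _ => hw0 _)
      · exact le_rfl
    by_cases hx : x ∈ {x : Fin m → (V → Bool) × (V → Bool) |
        25 * Real.sqrt (m * D) < |∑ v ∈ Nb G u, r v (pat (tr x) u v)|}
    · rw [if_pos hx]
      by_cases hz : ∏ i, w (x i) = 0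
      · rw [hz]
        exact sum_nonneg (by simpa only [hz] using hnn)
      · have hk : ∀ k, w (x k) ≠ 0 := fun k hk => hz (prod_eq_zero (mem_univ k) hk)
        set τ : Fin m → Bool := fun k => (x k).2 u with hτ
        have hmem : x ∈ {x : Fin m → (V → Bool) × (V → Bool) | (fun k => (x k).1) ∈ Eτ τ} := by
          show 5 * Real.sqrt (m * D) < |∑ v ∈ T, r v (univ.filter (fun k => τ k ≠ (x k).1 v))|
          have e1 : ∑ v ∈ T, r v (univ.filter (fun k => τ k ≠ (x k).1 v)) =
              ∑ v ∈ T, r v (pat (tr x) u v) := by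
            refine sum_congr rfl (fun v hv => ?_)
            have hvR : v ∉ R := (mem_filter.1 hv).2
            congr 1
            unfold pat tr
            refine filter_congr (fun k _ => ?_)
            rw [hw2 (x k).1 (x k).2 v (hk k) hvR]
          have e2 : ∑ v ∈ Nb G u, r v (pat (tr x) u v) =
              ∑ v ∈ N1, r v (pat (tr x) u v) + ∑ v ∈ T, r v (pat (tr x) u v) :=
            (sum_filter_add_sum_filter_not _ _ _).symm
          have e3 : |∑ v ∈ N1, r v (pat (tr x) u v)| ≤ 20 * Real.sqrt (m * D) := by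
            refine (abs_sum_le_sum_abs _ _).trans ?_
            refine (sum_le_sum (fun v _ => hr v _)).trans ?_
            rw [sum_const, nsmul_eq_mul, mul_one]
            exact hN1c
          have hx' : 25 * Real.sqrt (m * D) < |∑ v ∈ Nb G u, r v (pat (tr x) u v)| := hx
          rw [e2] at hx'
          rw [e1]
          have e4 := abs_add_le (∑ v ∈ N1, r v (pat (tr x) u v)) (∑ v ∈ T, r v (pat (tr x) u v))
          linarith
        have := single_le_sum hnn (mem_univ τ)
        rw [if_pos hmem] at this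
        exact this
    · rw [if_neg hx]
      exact sum_nonneg hnn
  refine step1.trans ?_
  have step2 : ∀ τ : Fin m → Bool, PP (fun (_ : Fin m) (p : (V → Bool) × (V → Bool)) => w p)
      {x | (fun k => (x k).1) ∈ Eτ τ} ≤ 2 * Real.exp (-(25 / 2 * m)) := by
    intro τ
    rw [ROWS_marg m w ((1 / 2) ^ Fintype.card V) hw1 (Eτ τ)]
    refine le_trans (le_of_eq ?_) (ROWS_hoef hH D m hD T hTcard r hr hr0 τ)
    rw [ROWS_PP]
    refine Fintype.sum_equiv (Equiv.piComm (fun (_ : Fin m) (_ : V) => Bool)) _ _ ?_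
    intro X
    have hiff : X ∈ Eτ τ ↔ (Equiv.piComm (fun (_ : Fin m) (_ : V) => Bool)) X ∈
        {Z : V → (Fin m → Bool) | 5 * Real.sqrt (m * D) <
          |∑ v ∈ T, r v (univ.filter (fun k => τ k ≠ Z v k))|} := Iff.rfl
    have hc : ((1 / 2 : ℝ) ^ Fintype.card V) ^ m = ∏ _i : V, (1 / 2 : ℝ) ^ m := by
      rw [prod_const, card_univ, ← pow_mul, ← pow_mul, mul_comm]
    by_cases hX : X ∈ Eτ τ
    · rw [if_pos hX, if_pos (hiff.1 hX), hc]
    · rw [if_neg hX, if_neg (fun h => hX (hiff.2 h))]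
  refine (sum_le_sum (fun τ _ => step2 τ)).trans ?_
  rw [sum_const, card_univ, Fintype.card_fun, Fintype.card_bool, Fintype.card_fin, nsmul_eq_mul]
  push_cast
  have h2 : (2 : ℝ) ≤ Real.exp 1 := by
    have := Real.add_one_le_exp (1 : ℝ)
    linarith
  have h3 : (2 : ℝ) ^ m ≤ Real.exp m := by
    calc (2 : ℝ) ^ m ≤ Real.exp 1 ^ m := pow_le_pow_left₀ (by norm_num) h2 m
      _ = Real.exp m := by rw [← Real.exp_nat_mul, mul_one]
  have hmr : (60 : ℝ) ≤ m := by exact_mod_cast hm
  calc (2 : ℝ) ^ m * (2 * Real.exp (-(25 / 2 * m)))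
      ≤ Real.exp m * (Real.exp 1 * Real.exp (-(25 / 2 * m))) := by gcongr
    _ = Real.exp (m + (1 + -(25 / 2 * m))) := by rw [Real.exp_add, Real.exp_add]
    _ ≤ Real.exp (-(2 * m)) := by
      apply Real.exp_le_exp.2
      linarith

end

end Pool.Agent.Helper15.LP
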