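import Mathlib

set_option autoImplicit false

/-!
# The rectangle bound of Kaibel and Weltge for unique disjointness
-/

namespace Pool.Agent.Helper68.LP

/-- size of the intersection of the sets with indicator functions `a` and `b` -/
def inter {m : ℕ} (a b : Fin m → Bool) : ℕ := ∑ i, if a i && b i then 1 else 0

/-- disjointness of the sets with indicator functions `a` and `b` -/
def Dis {m : ℕ} (a b : Fin m → Bool) : Prop := ∀ i, ¬(a i = true ∧ b i = true)

instance {m : ℕ} (a b : Fin m → Bool) : Decidable (Dis a b) := by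
  unfold Dis; infer_instance

theorem dis_iff {m : ℕ} (a b : Fin m → Bool) : Dis a b ↔ inter a b = 0 := by
  unfold Dis inter
  rw [Finset.sum_eq_zero_iff]
  simp

theorem inter_cons {m : ℕ} (x y : Bool) (a b : Fin m → Bool) :
    inter (Fin.cons x a : Fin (m + 1) → Bool) (Fin.cons y b : Fin (m + 1) → Bool)
      = (if x && y then 1 else 0) + inter a b := by
  unfold inter
  rw [Fin.sum_univ_succ]
  simp

theorem dis_cons {m : ℕ} (x y : Bool) (a b : Fin m → Bool) :
    Dis (Fin.cons x a : Fin (m + 1) → Bool) (Fin.cons y b : Fin (m + 1) → Bool)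
      ↔ (x && y) = false ∧ Dis a b := by
  rw [dis_iff, dis_iff, inter_cons]
  cases x <;> cases y <;> simp

open Classical in
/-- number of disjoint pairs in a rectangle, as a sum -/
noncomputable def cnt {m : ℕ} (A B : Set (Fin m → Bool)) : ℕ :=
  ∑ a : Fin m → Bool, ∑ b : Fin m → Bool, if a ∈ A ∧ b ∈ B ∧ Dis a b then 1 else 0

theorem sum_cons {m : ℕ} (F : (Fin (m + 1) → Bool) → ℕ) :
    ∑ a : Fin (m + 1) → Bool, F a
      = ∑ a : Fin m → Bool, (F (Fin.cons false a) + F (Fin.cons true a)) := by
  rw [← (Fin.consEquiv fun _ : Fin (m + 1) => Bool).sum_comp, Fintype.sum_prod_type]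
  rw [Fintype.sum_bool, ← Finset.sum_add_distrib]
  refine Finset.sum_congr rfl fun a _ => ?_
  rw [add_comm]
  rfl

theorem kw : ∀ (m : ℕ) (A B : Set (Fin m → Bool)),
    (∀ a ∈ A, ∀ b ∈ B, inter a b ≠ 1) → cnt A B ≤ 2 ^ m := by
  intro m
  induction m with
  | zero =>
    intro A B _
    unfold cnt
    rw [Fintype.sum_unique, Fintype.sum_unique]
    split_ifs <;> simp
  | succ m ih =>
    intro A B h
    let A0 : Set (Fin m → Bool) := {a | (Fin.cons false a : Fin (m + 1) → Bool) ∈ A}
    let A1 : Set (Fin m → Bool) := {a | (Fin.cons true a : Fin (m + 1) → Bool) ∈ A}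
    let B0 : Set (Fin m → Bool) := {b | (Fin.cons false b : Fin (m + 1) → Bool) ∈ B}
    let B1 : Set (Fin m → Bool) := {b | (Fin.cons true b : Fin (m + 1) → Bool) ∈ B}
    have h1 : cnt (A0 ∪ A1) B0 ≤ 2 ^ m := by
      apply ih
      rintro a (ha | ha) b hb
      · have := h _ ha _ hb
        rw [inter_cons] at this
        simpa using this
      · have := h _ ha _ hb
        rw [inter_cons] at this
        simpa using this
    have h2 : cnt A0 (B0 ∪ B1) ≤ 2 ^ m := by
      apply ih
      rintro a ha b (hb | hb)
      · have := h _ ha _ hb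
        rw [inter_cons] at this
        simpa using this
      · have := h _ ha _ hb
        rw [inter_cons] at this
        simpa using this
    have key : cnt A B ≤ cnt (A0 ∪ A1) B0 + cnt A0 (B0 ∪ B1) := by
      classical
      unfold cnt
      rw [sum_cons, ← Finset.sum_add_distrib]
      refine Finset.sum_le_sum fun a _ => ?_
      rw [sum_cons, sum_cons, ← Finset.sum_add_distrib, ← Finset.sum_add_distrib]
      refine Finset.sum_le_sum fun b _ => ?_
      simp only [dis_cons]
      by_cases hd : Dis a b
      · have hn : ¬ (a ∈ A1 ∧ b ∈ B1) := by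
          rintro ⟨ha, hb⟩
          apply h _ ha _ hb
          rw [inter_cons]
          rw [(dis_iff a b).mp hd]
          simp
        have e1 : ((Fin.cons false a : Fin (m + 1) → Bool) ∈ A) = (a ∈ A0) := rfl
        have e2 : ((Fin.cons true a : Fin (m + 1) → Bool) ∈ A) = (a ∈ A1) := rfl
        have e3 : ((Fin.cons false b : Fin (m + 1) → Bool) ∈ B) = (b ∈ B0) := rfl
        have e4 : ((Fin.cons true b : Fin (m + 1) → Bool) ∈ B) = (b ∈ B1) := rfl
        rw [e1, e2, e3, e4]
        simp only [Set.mem_union, hd, and_true, Bool.and_false, Bool.and_true,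
          Bool.true_eq_false, and_false, if_false, add_zero]
        by_cases g1 : a ∈ A0 <;> by_cases g2 : a ∈ A1 <;> by_cases g3 : b ∈ B0 <;>
          by_cases g4 : b ∈ B1 <;> simp_all
      · simp [hd]
    calc cnt A B ≤ _ := key
      _ ≤ 2 ^ m + 2 ^ m := add_le_add h1 h2
      _ = 2 ^ (m + 1) := by ring

/-- total number of disjoint pairs -/
theorem cnt_univ : ∀ m : ℕ, ∑ a : Fin m → Bool, ∑ b : Fin m → Bool,
    (if Dis a b then 1 else 0) = 3 ^ m := by
  intro m
  induction m with
  | zero => decide
  | succ m ih =>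
    rw [sum_cons]
    simp only [sum_cons, dis_cons]
    have : ∀ a b : Fin m → Bool,
        ((if (false && false) = false ∧ Dis a b then 1 else 0)
          + (if (false && true) = false ∧ Dis a b then 1 else 0))
        = 2 * (if Dis a b then 1 else 0) := by
      intro a b; by_cases h : Dis a b <;> simp [h]
    have h2 : ∀ a b : Fin m → Bool,
        ((if (true && false) = false ∧ Dis a b then 1 else 0)
          + (if (true && true) = false ∧ Dis a b then 1 else 0))
        = (if Dis a b then 1 else 0) := by
      intro a b; by_cases h : Dis a b <;> simp [h]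
    simp only [this, h2, ← Finset.mul_sum]
    rw [← Finset.sum_add_distrib.symm, ← Finset.mul_sum, ih]
    ring

/-- A family of `r` rectangles without pairs of intersection size one which covers all disjoint
pairs `(a, b)` with `b` nonempty has at least `(3/2)^m - 1` members. -/
theorem cover_bound {m r : ℕ} (A B : Fin r → Set (Fin m → Bool))
    (h1 : ∀ k, ∀ a ∈ A k, ∀ b ∈ B k, inter a b ≠ 1)
    (hcov : ∀ a b : Fin m → Bool, Dis a b → (∃ i, b i = true) → ∃ k, a ∈ A k ∧ b ∈ B k) :
    3 ^ m ≤ (r + 1) * 2 ^ m := by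
  classical
  have hle : ∀ a b : Fin m → Bool, (if Dis a b then 1 else 0)
      ≤ (if b = (fun _ => false) then 1 else 0)
        + ∑ k : Fin r, (if a ∈ A k ∧ b ∈ B k ∧ Dis a b then 1 else 0) := by
    intro a b
    by_cases hd : Dis a b
    · by_cases hb : b = fun _ => false
      · simp [hb]; split_ifs <;> omega
      · have : ∃ i, b i = true := by
          by_contra hcon
          push Not at hcon
          apply hb
          funext i
          simpa using hcon i
        obtain ⟨k, hk1, hk2⟩ := hcov a b hd this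
        have h3 : (1 : ℕ) ≤ ∑ k : Fin r, (if a ∈ A k ∧ b ∈ B k ∧ Dis a b then 1 else 0) := by
          calc (1 : ℕ) = (if a ∈ A k ∧ b ∈ B k ∧ Dis a b then 1 else 0) := by
                simp [hk1, hk2, hd]
            _ ≤ _ := Finset.single_le_sum
                (f := fun k => if a ∈ A k ∧ b ∈ B k ∧ Dis a b then 1 else 0)
                (fun _ _ => Nat.zero_le _) (Finset.mem_univ k)
        rw [if_pos hd]
        exact h3.trans (Nat.le_add_left _ _)
    · simp [hd]
  have h2 := Finset.sum_le_sum fun a (_ : a ∈ (Finset.univ : Finset (Fin m → Bool))) =>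
    Finset.sum_le_sum fun b (_ : b ∈ (Finset.univ : Finset (Fin m → Bool))) => hle a b
  rw [cnt_univ] at h2
  refine h2.trans ?_
  simp only [Finset.sum_add_distrib]
  have e1 : ∑ _a : Fin m → Bool, ∑ b : Fin m → Bool, (if b = (fun _ => false) then 1 else 0)
      = 2 ^ m := by
    simp
  have e2 : ∑ a : Fin m → Bool, ∑ b : Fin m → Bool, ∑ k : Fin r,
      (if a ∈ A k ∧ b ∈ B k ∧ Dis a b then 1 else 0)
      = ∑ k : Fin r, cnt (A k) (B k) := by
    unfold cnt
    symm
    rw [Finset.sum_comm]
    refine Finset.sum_congr rfl fun a _ => ?_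
    rw [Finset.sum_comm]
  rw [e1, e2]
  have e3 : ∑ k : Fin r, cnt (A k) (B k) ≤ ∑ _k : Fin r, 2 ^ m :=
    Finset.sum_le_sum fun k _ => kw m (A k) (B k) (h1 k)
  rw [Finset.sum_const, Finset.card_univ, Fintype.card_fin, smul_eq_mul] at e3
  nlinarith

end Pool.Agent.Helper68.LP
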