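import Pool.Agent.Helper68.LP.Pert

set_option autoImplicit false

/-!
# Exact reduction: cheap Hamiltonian cycles of lattice graphs and exact Euclidean tours
-/

namespace Pool.Agent.Helper68.LP

/-- doubled integer version of a natural cost function -/
def dbl (h : ℕ → ℕ → ℕ) : ℕ → ℕ → ℤ := fun x y => 2 * (h x y : ℤ)

/-- natural cost of a pair -/
def ncost (h v : ℕ → ℕ → ℕ) (p q : ℕ × ℕ) : ℕ :=
  if q.1 = p.1 + 1 ∧ q.2 = p.2 then h p.1 p.2
  else if p.1 = q.1 + 1 ∧ q.2 = p.2 then h q.1 q.2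
  else if q.1 = p.1 ∧ q.2 = p.2 + 1 then v p.1 p.2
  else if q.1 = p.1 ∧ p.2 = q.2 + 1 then v q.1 q.2
  else 0

theorem ucost_dbl (h v : ℕ → ℕ → ℕ) (K : ℤ) {p q : ℕ × ℕ} (hn : Nb p q) :
    ucost (dbl h) (dbl v) K p q = 2 * (ncost h v p q : ℤ) := by
  unfold ucost ncost dbl
  unfold Nb at hn
  split_ifs <;> first | rfl | omega

theorem ucost_dbl_nonneg (h v : ℕ → ℕ → ℕ) {K : ℤ} (hK : 0 ≤ K) (p q : ℕ × ℕ) :
    0 ≤ ucost (dbl h) (dbl v) K p q := by
  unfold ucost dbl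
  split_ifs <;> positivity

/-- the scale `M` that suffices -/
def scale (n N C B : ℕ) : ℕ := 8 * n * (N * C) ^ 2 + 16 * (N * C) + 6 * B + 2 * C + 7

/-- Exact Euclidean tours of length at most `n M + 2 B + 1` through the perturbed points exist iff
there is a tour along unit edges of cost at most `B`. -/
theorem yes_iff {h v : ℕ → ℕ → ℕ} {N C B n : ℕ} (hh : ∀ x y, h x y ≤ C) (hv : ∀ x y, v x y ≤ C)
    (hn : 2 ≤ n) (p : Fin n → ℕ × ℕ) (hp : Function.Injective p)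
    (hN : ∀ i, (p i).1 ≤ N ∧ (p i).2 ≤ N) :
    (∃ σ, tlen (fun i => pert (dbl h) (dbl v) (scale n N C B : ℕ) (p i)) σ
        ≤ ((n * scale n N C B + (2 * B + 1) : ℕ) : ℝ)) ↔
      ∃ σ : Equiv.Perm (Fin n), UnitTour p σ ∧
        ∑ i, ncost h v (p (σ i)) (p (σ (finRotate n i))) ≤ B := by
  have hB : Box (dbl h) (dbl v) N (2 * C) := by
    constructor
    · intro x y
      unfold dbl
      rw [abs_of_nonneg (by positivity)]
      exact_mod_cast Nat.mul_le_mul_left 2 (hh x y)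
    · intro x y
      unfold dbl
      rw [abs_of_nonneg (by positivity)]
      exact_mod_cast Nat.mul_le_mul_left 2 (hv x y)
  set M := scale n N C B with hMdef
  have hM1 : 3 * ((2 * B + 2 : ℕ) : ℤ) + 8 * ((N * (2 * C) : ℕ) : ℤ) ≤ ((M : ℕ) : ℤ) := by
    rw [hMdef]; unfold scale; push_cast
    have : (0 : ℤ) ≤ 8 * (n : ℤ) * ((N : ℤ) * C) ^ 2 := by positivity
    linarith
  have hM2 : ((2 * C : ℕ) : ℤ) < ((M : ℕ) : ℤ) := by
    rw [hMdef]; unfold scale; push_cast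
    have : (0 : ℤ) ≤ 8 * (n : ℤ) * ((N : ℤ) * C) ^ 2 := by positivity
    have : (0 : ℤ) ≤ 16 * ((N : ℤ) * C) := by positivity
    linarith
  have hunit : ∀ σ : Equiv.Perm (Fin n), UnitTour p σ →
      tcost (dbl h) (dbl v) ((2 * B + 2 : ℕ) : ℤ) p σ
        = 2 * (∑ i, ncost h v (p (σ i)) (p (σ (finRotate n i))) : ℕ) := by
    intro σ hσ
    unfold tcost
    push_cast
    rw [Finset.mul_sum]
    exact Finset.sum_congr rfl fun i _ => ucost_dbl h v _ (hσ i)
  constructor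
  · rintro ⟨σ, hσ⟩
    have h1 := tcost_le_tlen hB hn p hp hN (by positivity) hM1 σ
    have h2 : tcost (dbl h) (dbl v) ((2 * B + 2 : ℕ) : ℤ) p σ ≤ 2 * B + 1 := by
      have h3 : (n : ℝ) * ((M : ℕ) : ℤ) + tcost (dbl h) (dbl v) ((2 * B + 2 : ℕ) : ℤ) p σ
          ≤ (n : ℝ) * M + (2 * B + 1) := by
        refine h1.trans (hσ.trans (le_of_eq ?_))
        push_cast; ring
      have h4 : ((tcost (dbl h) (dbl v) ((2 * B + 2 : ℕ) : ℤ) p σ : ℤ) : ℝ)
          ≤ ((2 * B + 1 : ℤ) : ℝ) := by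
        push_cast at h3 ⊢
        linarith
      exact_mod_cast h4
    have hu : UnitTour p σ := by
      intro i
      by_contra hni
      have h3 : ((2 * B + 2 : ℕ) : ℤ) ≤ tcost (dbl h) (dbl v) ((2 * B + 2 : ℕ) : ℤ) p σ := by
        unfold tcost
        refine le_trans (le_of_eq
          (ucost_not (h := dbl h) (v := dbl v) (K := ((2 * B + 2 : ℕ) : ℤ)) hni).symm) ?_
        exact Finset.single_le_sum (f := fun i => ucost (dbl h) (dbl v) ((2 * B + 2 : ℕ) : ℤ)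
          (p (σ i)) (p (σ (finRotate n i))))
          (fun j _ => ucost_dbl_nonneg h v (by positivity) _ _) (Finset.mem_univ i)
      push_cast at h3 h2
      linarith
    refine ⟨σ, hu, ?_⟩
    rw [hunit σ hu] at h2
    omega
  · rintro ⟨σ, hu, hσ⟩
    refine ⟨σ, ?_⟩
    refine (tlen_le_tcost (K := ((2 * B + 2 : ℕ) : ℤ)) hB p hN hM2 σ hu).trans ?_
    rw [hunit σ hu]
    have herr : (n : ℝ) * ((2 * ((N * (2 * C) : ℕ) : ℝ)) ^ 2
        / (2 * ((((M : ℕ) : ℤ) : ℝ) - ((2 * C : ℕ) : ℝ)))) ≤ 1 := by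
      have hpos : (0 : ℝ) < 2 * ((((M : ℕ) : ℤ) : ℝ) - ((2 * C : ℕ) : ℝ)) := by
        have : (((2 * C : ℕ) : ℤ) : ℝ) < (((M : ℕ) : ℤ) : ℝ) := by exact_mod_cast hM2
        push_cast at this ⊢
        linarith
      rw [mul_div_assoc', div_le_one hpos]
      rw [hMdef]; unfold scale; push_cast
      have : (0 : ℝ) ≤ 16 * ((N : ℝ) * C) := by positivity
      nlinarith
    have h5 : ((∑ i, ncost h v (p (σ i)) (p (σ (finRotate n i))) : ℕ) : ℝ) ≤ B := by
      exact_mod_cast hσ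
    push_cast at herr h5 ⊢
    linarith

end Pool.Agent.Helper68.LP
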