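import Pool.Agent.Helper68.LP.Fact
import Pool.Agent.Helper68.LP.Yes
import Pool.Agent.Helper68.LP.KW

set_option autoImplicit false

/-!
# From lattice graphs that encode products to the lower bound for linear programming formulations
-/

namespace Pool.Agent.Helper68.LP

/-- indicator of the vertical unit edge above `e` -/
def ind (e p q : ℕ × ℕ) : ℕ :=
  if (p = e ∧ q = (e.1, e.2 + 1)) ∨ (q = e ∧ p = (e.1, e.2 + 1)) then 1 else 0

/-- the tour uses the vertical unit edge above `e` -/
def Used {n : ℕ} (p : Fin n → ℕ × ℕ) (σ : Equiv.Perm (Fin n)) (e : ℕ × ℕ) : Prop :=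
  ∃ i, (p (σ i) = e ∧ p (σ (finRotate n i)) = (e.1, e.2 + 1)) ∨
    (p (σ (finRotate n i)) = e ∧ p (σ i) = (e.1, e.2 + 1))

/-- A lattice graph whose cheap Hamiltonian cycles encode the products of `m` bits. -/
structure Gadget (m : ℕ) where
  n : ℕ
  hn : 3 ≤ n
  p : Fin n → ℕ × ℕ
  hp : Function.Injective p
  h : ℕ → ℕ → ℕ
  v : ℕ → ℕ → ℕ
  C : ℕ
  hC : ∀ x y, h x y ≤ C
  vC : ∀ x y, v x y ≤ C
  B : ℕ
  ea : Fin m → ℕ × ℕ
  ey : Fin m → Fin m → ℕ × ℕ
  low : ∀ σ : Equiv.Perm (Fin n), UnitTour p σ →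
    B ≤ ∑ i, ncost h v (p (σ i)) (p (σ (finRotate n i)))
  sound : ∀ σ : Equiv.Perm (Fin n), UnitTour p σ →
    ∑ i, ncost h v (p (σ i)) (p (σ (finRotate n i))) = B →
    ∀ i j, i < j → Used p σ (ea i) → Used p σ (ea j) → Used p σ (ey i j)
  compl : ∀ a : Fin m → Bool, ∃ σ : Equiv.Perm (Fin n), UnitTour p σ ∧
    ∑ i, ncost h v (p (σ i)) (p (σ (finRotate n i))) = B ∧
    (∀ i, Used p σ (ea i) ↔ a i = true) ∧
    (∀ i j, i < j → (Used p σ (ey i j) ↔ a i = true ∧ a j = true))

/-- number of times the tour uses the vertical unit edge above `e` -/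
def cntE {n : ℕ} (p : Fin n → ℕ × ℕ) (σ : Equiv.Perm (Fin n)) (e : ℕ × ℕ) : ℕ :=
  ∑ i, ind e (p (σ i)) (p (σ (finRotate n i)))

theorem finRotate_two {n : ℕ} (hn : 3 ≤ n) (i : Fin n) : finRotate n (finRotate n i) ≠ i := by
  obtain ⟨k, rfl⟩ : ∃ k, n = k + 3 := ⟨n - 3, by omega⟩
  rw [finRotate_apply, finRotate_apply]
  intro h
  have h2 : i + (1 + 1) = i + 0 := by rw [← add_assoc, h, add_zero]
  have h3 : (1 + 1 : Fin (k + 3)) = 0 := add_left_cancel h2
  have h4 := congrArg Fin.val h3
  simp [Fin.val_add] at h4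
  rw [Nat.mod_eq_of_lt (by omega)] at h4
  omega

open Classical in
theorem cntE_eq {n : ℕ} (hn : 3 ≤ n) (p : Fin n → ℕ × ℕ) (hp : Function.Injective p)
    (σ : Equiv.Perm (Fin n)) (e : ℕ × ℕ) : cntE p σ e = if Used p σ e then 1 else 0 := by
  by_cases hu : Used p σ e
  · rw [if_pos hu]
    obtain ⟨i, hi⟩ := hu
    unfold cntE
    have hne : e ≠ (e.1, e.2 + 1) := by
      intro h
      have := congrArg Prod.snd h
      simp at this
    rw [Finset.sum_eq_single i]
    · unfold ind
      rw [if_pos hi]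
    · intro j _ hj
      unfold ind
      rw [if_neg]
      rintro (⟨h1, h2⟩ | ⟨h1, h2⟩) <;> rcases hi with ⟨g1, g2⟩ | ⟨g1, g2⟩
      · exact hj (σ.injective (hp (h1.trans g1.symm)))
      · have e1 : j = finRotate n i := σ.injective (hp (h1.trans g1.symm))
        have e2 : finRotate n j = i := σ.injective (hp (h2.trans g2.symm))
        rw [e1] at e2
        exact finRotate_two hn i e2
      · have e1 : finRotate n j = i := σ.injective (hp (h1.trans g1.symm))
        have e2 : j = finRotate n i := σ.injective (hp (h2.trans g2.symm))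
        rw [e2] at e1
        exact finRotate_two hn i e1
      · exact hj (σ.injective (hp (h2.trans g2.symm)))
    · intro h; exact absurd (Finset.mem_univ i) h
  · rw [if_neg hu]
    unfold cntE
    apply Finset.sum_eq_zero
    intro i _
    unfold ind
    rw [if_neg]
    intro h
    exact hu ⟨i, h⟩

namespace Gadget

variable {m : ℕ} (G : Gadget m)

/-- extra cost of the vertical edge above `(x, y)` for the set `b` -/
def extra (b : Fin m → Bool) (x y : ℕ) : ℤ :=
  (∑ i, if b i = true ∧ G.ea i = (x, y) then (-1 : ℤ) else 0)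
    + ∑ i, ∑ j, if (i < j ∧ b i = true ∧ b j = true) ∧ G.ey i j = (x, y) then (2 : ℤ) else 0

/-- scaled base costs -/
def K0 (_G : Gadget m) : ℕ := m + 1

/-- horizontal costs -/
def hh (x y : ℕ) : ℤ := (G.K0 : ℤ) * G.h x y

/-- vertical costs -/
def vv (b : Fin m → Bool) (x y : ℕ) : ℤ := (G.K0 : ℤ) * G.v x y + G.extra b x y

/-- extra cost of a pair -/
def ext (b : Fin m → Bool) (p q : ℕ × ℕ) : ℤ :=
  (∑ i, if b i = true then -(ind (G.ea i) p q : ℤ) else 0)
    + ∑ i, ∑ j, if i < j ∧ b i = true ∧ b j = true then 2 * (ind (G.ey i j) p q : ℤ) else 0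

theorem ucost_eq (b : Fin m → Bool) (K : ℤ) {p q : ℕ × ℕ} (hn : Nb p q) :
    ucost G.hh (G.vv b) K p q = (G.K0 : ℤ) * ncost G.h G.v p q + G.ext b p q := by
  have hor : ∀ p q : ℕ × ℕ, q.2 = p.2 → G.ext b p q = 0 := by
    intro p q hpq
    have hi : ∀ e, ind e p q = 0 := by
      intro e
      unfold ind
      rw [if_neg]
      rintro (⟨h1, h2⟩ | ⟨h1, h2⟩) <;> rw [h1, h2] at hpq <;> simp at hpq
    unfold ext
    simp [hi]
  have ver : ∀ x y : ℕ, G.ext b (x, y) (x, y + 1) = G.extra b x y := by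
    intro x y
    have hi : ∀ e : ℕ × ℕ, ind e (x, y) (x, y + 1) = if e = (x, y) then 1 else 0 := by
      intro e
      unfold ind
      by_cases he : e = (x, y)
      · subst he; simp
      · rw [if_neg he, if_neg]
        rintro (⟨h1, h2⟩ | ⟨h1, h2⟩)
        · exact he h1.symm
        · rw [← h1] at h2
          have := congrArg Prod.snd h2
          simp only at this
          omega
    unfold ext extra
    simp only [hi]
    congr 1
    · refine Finset.sum_congr rfl fun i _ => ?_
      by_cases h1 : b i = true <;> by_cases h2 : G.ea i = (x, y) <;> simp [h1, h2]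
    · refine Finset.sum_congr rfl fun i _ => Finset.sum_congr rfl fun j _ => ?_
      by_cases h1 : i < j ∧ b i = true ∧ b j = true <;> by_cases h2 : G.ey i j = (x, y) <;>
        simp [h1, h2]
  have indc : ∀ e p q, ind e p q = ind e q p := by
    intro e p q
    unfold ind
    congr 1
    exact propext Or.comm
  have extc : ∀ p q, G.ext b p q = G.ext b q p := by
    intro p q
    unfold ext
    simp only [indc _ p q]
  obtain ⟨x, y⟩ := p
  obtain ⟨x', y'⟩ := q
  unfold Nb at hn
  simp only at hn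
  rcases hn with ⟨h1, h2⟩ | ⟨h1, h2⟩ | ⟨h1, h2⟩ | ⟨h1, h2⟩
  · subst h1; subst h2
    rw [hor (x, y') (x + 1, y') rfl]
    simp [ucost, ncost, hh]
  · subst h1; subst h2
    rw [hor (x' + 1, y') (x', y') rfl]
    have e1 : ¬ (x' = x' + 1 + 1 ∧ y' = y') := by omega
    simp [ucost, ncost, hh, e1]
  · subst h1; subst h2
    rw [ver]
    have e1 : ¬ (x' = x' + 1 ∧ y + 1 = y) := by omega
    simp [ucost, ncost, vv]
  · subst h1; subst h2
    rw [extc, ver]
    have e1 : ¬ (y' = y' + 1 + 1) := by omega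
    simp [ucost, ncost, vv, e1]

/-- number of elements of `b` whose edge is used -/
theorem sum_ext (b : Fin m → Bool) (σ : Equiv.Perm (Fin G.n)) :
    ∑ i, G.ext b (G.p (σ i)) (G.p (σ (finRotate G.n i)))
      = (∑ i, if b i = true then -(cntE G.p σ (G.ea i) : ℤ) else 0)
        + ∑ i, ∑ j, if i < j ∧ b i = true ∧ b j = true then 2 * (cntE G.p σ (G.ey i j) : ℤ)
          else 0 := by
  unfold ext cntE
  rw [Finset.sum_add_distrib]
  congr 1
  · rw [Finset.sum_comm]
    refine Finset.sum_congr rfl fun i _ => ?_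
    by_cases h : b i = true
    · simp [h]
    · simp [h]
  · rw [Finset.sum_comm]
    refine Finset.sum_congr rfl fun i _ => ?_
    rw [Finset.sum_comm]
    refine Finset.sum_congr rfl fun j _ => ?_
    by_cases h : i < j ∧ b i = true ∧ b j = true
    · simp [h, Finset.mul_sum]
    · simp only [if_neg h, Finset.sum_const_zero]

end Gadget

/-- number of pairs `i < j` of a finite set of indices -/
theorem pairs_sum {m : ℕ} (c : Fin m → Bool) :
    ((∑ i, ∑ j, if i < j ∧ c i = true ∧ c j = true then (2 : ℤ) else 0)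
      - ∑ i, if c i = true then (1 : ℤ) else 0)
      = ((∑ i, if c i = true then (1 : ℤ) else 0) - 1) ^ 2 - 1 := by
  set s : ℤ := ∑ i, if c i = true then (1 : ℤ) else 0 with hs
  have h1 : s * s = ∑ i, ∑ j, (if c i = true ∧ c j = true then (1 : ℤ) else 0) := by
    rw [hs, Finset.sum_mul_sum]
    refine Finset.sum_congr rfl fun i _ => Finset.sum_congr rfl fun j _ => ?_
    by_cases h : c i = true <;> by_cases h' : c j = true <;> simp [h, h']
  have h2 : ∑ i, ∑ j, (if c i = true ∧ c j = true then (1 : ℤ) else 0)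
      = (∑ i, ∑ j, if i < j ∧ c i = true ∧ c j = true then (1 : ℤ) else 0)
        + (∑ i, ∑ j, if j < i ∧ c i = true ∧ c j = true then (1 : ℤ) else 0) + s := by
    have : s = ∑ i, ∑ j, if i = j ∧ c i = true ∧ c j = true then (1 : ℤ) else 0 := by
      rw [hs]
      refine Finset.sum_congr rfl fun i _ => ?_
      rw [Finset.sum_eq_single i]
      · simp
      · intro j _ hj
        rw [if_neg]
        rintro ⟨h, -⟩
        exact hj h.symm
      · intro h; exact absurd (Finset.mem_univ i) h
    rw [this]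
    simp only [← Finset.sum_add_distrib]
    refine Finset.sum_congr rfl fun i _ => Finset.sum_congr rfl fun j _ => ?_
    by_cases hc : c i = true ∧ c j = true
    · rcases lt_trichotomy i j with h | h | h
      · simp [hc, h, h.ne, h.not_gt]
      · subst h; simp [hc]
      · simp [hc, h, h.ne', h.not_gt]
    · simp [hc]
  have h3 : (∑ i, ∑ j, if j < i ∧ c i = true ∧ c j = true then (1 : ℤ) else 0)
      = ∑ i, ∑ j, if i < j ∧ c i = true ∧ c j = true then (1 : ℤ) else 0 := by
    rw [Finset.sum_comm]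
    refine Finset.sum_congr rfl fun i _ => Finset.sum_congr rfl fun j _ => ?_
    by_cases h : i < j <;> by_cases h1 : c i = true <;> by_cases h2 : c j = true <;>
      simp [h, h1, h2]
  have h4 : (∑ i, ∑ j, if i < j ∧ c i = true ∧ c j = true then (2 : ℤ) else 0)
      = 2 * ∑ i, ∑ j, if i < j ∧ c i = true ∧ c j = true then (1 : ℤ) else 0 := by
    rw [Finset.mul_sum]
    refine Finset.sum_congr rfl fun i _ => ?_
    rw [Finset.mul_sum]
    refine Finset.sum_congr rfl fun j _ => ?_
    split_ifs <;> norm_num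
  rw [h4]
  rw [h2, h3] at h1
  linarith

end Pool.Agent.Helper68.LP
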