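import Pool.Agent.Helper68.LP.FromD
import Pool.Agent.Helper68.SDP.Solve
import Pool.Agent.Helper38.ELP.All

namespace Pool.Agent.Helper68.LP.LPLowerBoundResult

open Pool.Agent.Helper68.SDP Pool.Agent.Helper68.LP

/-- Every linear program that solves the planar Euclidean travelling salesman problem on `n` labelled
cities up to the additive error `δ`, for all placements on distinct points of `{0, …, R}²`, has at
least `2 ^ (c √n)` inequalities, as soon as `R ≥ C (n + δ) n⁴` and `n` is large: the polyhedron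
`Q` may have any number of variables and equations, and the objective may depend on the placement
in an arbitrary way. -/
theorem result : ∃ (c : ℝ) (C n₀ : ℕ), 0 < c ∧ ∀ (n r R : ℕ) (δ : ℝ), n₀ ≤ n → 0 ≤ δ →
    (C : ℝ) * ((n + δ) * (n : ℝ) ^ 4) ≤ R →
    ∀ (d : ℕ) (Q : Set (Fin d → ℝ)), IsLP Q r → Solves Q n R δ →
      (2 : ℝ) ^ (c * √(n : ℝ)) ≤ r := by
  obtain ⟨c, C, hc, h⟩ := lp_half Pool.Agent.Helper38.ELP.D_all
  refine ⟨c / 2, C, ⌈(2 / c) ^ 2⌉₊, by positivity, fun n r R δ hn hδ hR d Q hQ hS => ?_⟩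
  have h1 := h n r R δ hδ hR (hS.toALP hQ)
  have h2 : 2 / c ≤ √(n : ℝ) := by
    apply Real.le_sqrt_of_sq_le
    refine (Nat.le_ceil _).trans ?_
    exact_mod_cast hn
  have h3 : 1 ≤ c / 2 * √(n : ℝ) := by
    rw [div_le_iff₀ hc] at h2
    linarith
  set y : ℝ := (2 : ℝ) ^ (c / 2 * √(n : ℝ)) with hy
  have h4 : (2 : ℝ) ≤ y := by
    calc (2 : ℝ) = (2 : ℝ) ^ (1 : ℝ) := (Real.rpow_one 2).symm
      _ ≤ y := Real.rpow_le_rpow_of_exponent_le (by norm_num) h3
  have h5 : (2 : ℝ) ^ (c * √(n : ℝ)) = y * y := by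
    rw [hy, ← Real.rpow_add (by norm_num)]
    congr 1
    ring
  rw [h5] at h1
  nlinarith

end Pool.Agent.Helper68.LP.LPLowerBoundResult
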