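import Pool.Agent.Helper68.LP.AG

set_option autoImplicit false

/-!
# The lower bound for all numbers of cities
-/

namespace Pool.Agent.Helper68.LP

/-- growth -/
theorem growth : ∃ c : ℝ, 0 < c ∧ c ≤ 1 ∧ ∀ (l r : ℕ),
    1 ≤ 11 * (Corr.eta l * ((r + 1 : ℝ) * (4 * ((l : ℝ) + 1) ^ 2))) →
    (2 : ℝ) ^ (c * ((l : ℝ) + 1)) ≤ r + 2 := by
  set a : ℝ := Real.log (32 / 27) / 39 with ha
  have ha0 : 0 < a := div_pos (Real.log_pos (by norm_num)) (by norm_num)
  set y0 : ℝ := 200 / a ^ 2 with hy0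
  have hy0' : 0 < y0 := by positivity
  refine ⟨min 1 (min (a / 2) (1 / y0)), by positivity, min_le_left _ _, fun l r h => ?_⟩
  set y : ℝ := (l : ℝ) + 1 with hy
  have hy1 : 1 ≤ y := by rw [hy]; linarith [show (0 : ℝ) ≤ l by positivity]
  have hr : (0 : ℝ) ≤ r := by positivity
  by_cases hc : y ≤ y0
  · have h1 : min 1 (min (a / 2) (1 / y0)) * y ≤ 1 := by
      calc min 1 (min (a / 2) (1 / y0)) * y ≤ (1 / y0) * y := by
            apply mul_le_mul_of_nonneg_right _ (by linarith)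
            exact (min_le_right _ _).trans (min_le_right _ _)
        _ ≤ 1 := by rw [one_div, inv_mul_le_iff₀ hy0']; linarith
    calc (2 : ℝ) ^ (min 1 (min (a / 2) (1 / y0)) * y) ≤ (2 : ℝ) ^ (1 : ℝ) :=
          Real.rpow_le_rpow_of_exponent_le (by norm_num) h1
      _ ≤ r + 2 := by rw [Real.rpow_one]; linarith
  · push Not at hc
    have heta : Corr.eta l = Real.exp (-(a * y)) := by
      unfold Corr.eta
      rw [Real.rpow_def_of_pos (by norm_num)]
      congr 1
      have : Real.log (27 / 32) = - Real.log (32 / 27) := by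
        rw [← Real.log_inv]; norm_num
      rw [this, ha, hy]
      ring
    rw [heta] at h
    -- `exp (a y / 2) ≥ 44 y ^ 2`
    have h2 : 44 * y ^ 2 ≤ Real.exp (a * y / 2) := by
      have hz : 0 ≤ a * y / 2 := by positivity
      have h3 := Real.pow_div_factorial_le_exp (a * y / 2) hz 4
      refine le_trans ?_ h3
      have h4 : (Nat.factorial 4 : ℝ) = 24 := by norm_num [Nat.factorial]
      rw [h4, le_div_iff₀ (by norm_num)]
      have h5 : 200 ≤ a ^ 2 * y := by
        rw [hy0, div_lt_iff₀ (by positivity)] at hc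
        linarith
      have h6 : (200 : ℝ) ^ 2 ≤ (a ^ 2 * y) ^ 2 := pow_le_pow_left₀ (by norm_num) h5 2
      have h7 : (a * y / 2) ^ 4 = (a ^ 2 * y) ^ 2 * y ^ 2 / 16 := by ring
      rw [h7]
      have hy2 : 0 ≤ y ^ 2 := by positivity
      nlinarith
    have h8 : Real.exp (a * y) ≤ (r + 1) * (44 * y ^ 2) := by
      have h9 : Real.exp (a * y) * Real.exp (-(a * y)) = 1 := by
        rw [← Real.exp_add]; simp
      have h10 : 0 < Real.exp (a * y) := Real.exp_pos _
      calc Real.exp (a * y) = Real.exp (a * y) * 1 := (mul_one _).symm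
        _ ≤ Real.exp (a * y) * (11 * (Real.exp (-(a * y)) * ((r + 1 : ℝ) * (4 * y ^ 2)))) :=
            mul_le_mul_of_nonneg_left h h10.le
        _ = (Real.exp (a * y) * Real.exp (-(a * y))) * ((r + 1) * (44 * y ^ 2)) := by ring
        _ = _ := by rw [h9, one_mul]
    have h11 : Real.exp (a * y / 2) ≤ r + 1 := by
      have h12 : Real.exp (a * y) = Real.exp (a * y / 2) * Real.exp (a * y / 2) := by
        rw [← Real.exp_add]; congr 1; ring
      have h13 : 0 < Real.exp (a * y / 2) := Real.exp_pos _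
      rw [h12] at h8
      have h14 : (r + 1) * (44 * y ^ 2) ≤ (r + 1) * Real.exp (a * y / 2) :=
        mul_le_mul_of_nonneg_left h2 (by linarith)
      exact le_of_mul_le_mul_right (h8.trans h14) h13
    calc (2 : ℝ) ^ (min 1 (min (a / 2) (1 / y0)) * y) ≤ (2 : ℝ) ^ (a / 2 * y) := by
          apply Real.rpow_le_rpow_of_exponent_le (by norm_num)
          apply mul_le_mul_of_nonneg_right _ (by linarith)
          exact (min_le_right _ _).trans (min_le_left _ _)
      _ = Real.exp (Real.log 2 * (a / 2 * y)) := Real.rpow_def_of_pos (by norm_num) _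
      _ ≤ Real.exp (a * y / 2) := by
          apply Real.exp_le_exp.mpr
          have : Real.log 2 ≤ 1 := by
            have := Real.log_two_lt_d9
            linarith
          have h15 : 0 ≤ a / 2 * y := by positivity
          nlinarith
      _ ≤ r + 2 := by linarith

/-- the lower bound for all numbers of cities, from a family of gadgets of polynomial size -/
theorem of_family (A e k q : ℕ) (hA : 1 ≤ A) (he : 1 ≤ e) (hk : k ≤ e * q)
    (G : ∀ l, AG (2 * l + 1)) (N M : ℕ → ℕ) (hP : ∀ l, (G l).Params (N l) (M l))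
    (hn : ∀ l, (G l).n ≤ A * (2 * l + 2) ^ e)
    (hNM : ∀ l, 2 * (M l * N l) ≤ A * (2 * l + 2) ^ k) :
    ∃ (c : ℝ) (C : ℕ), 0 < c ∧ ∀ (n r R : ℕ) (δ : ℝ), 0 ≤ δ →
      (C : ℝ) * ((n + δ) * (n : ℝ) ^ q) ≤ R → Nonempty (ALP n r R δ) →
      (2 : ℝ) ^ (c * (n : ℝ) ^ (1 / (e : ℝ))) ≤ r + 2 := by
  obtain ⟨c', hc'0, hc'1, hgrow⟩ := growth
  have hA' : (1 : ℝ) ≤ A := by exact_mod_cast hA
  have he' : (1 : ℝ) ≤ e := by exact_mod_cast he
  refine ⟨c' / (4 * A), 402 * A, by positivity, fun n r R δ hδ hR hF => ?_⟩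
  have hr : (0 : ℝ) ≤ r := by positivity
  have hn0 : (0 : ℝ) ≤ n := by positivity
  set x : ℝ := ((n : ℝ) / A) ^ (1 / (e : ℝ)) with hx
  have hx0 : 0 ≤ x := by positivity
  have hxe : x ^ e = (n : ℝ) / A := by
    rw [hx, ← Real.rpow_natCast, ← Real.rpow_mul (by positivity)]
    rw [one_div, inv_mul_cancel₀ (by positivity), Real.rpow_one]
  -- `c n^(1/e) ≤ c' x / 4`
  have hcx : c' / (4 * A) * (n : ℝ) ^ (1 / (e : ℝ)) ≤ c' * (x / 4) := by
    have h1 : (n : ℝ) ^ (1 / (e : ℝ)) = x * (A : ℝ) ^ (1 / (e : ℝ)) := by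
      rw [hx, ← Real.mul_rpow (by positivity) (by positivity)]
      congr 1
      field_simp
    have h2 : (A : ℝ) ^ (1 / (e : ℝ)) ≤ A := by
      calc (A : ℝ) ^ (1 / (e : ℝ)) ≤ (A : ℝ) ^ (1 : ℝ) := by
            apply Real.rpow_le_rpow_of_exponent_le hA'
            rw [div_le_one (by positivity)]; exact he'
        _ = A := Real.rpow_one _
    rw [h1]
    calc c' / (4 * A) * (x * (A : ℝ) ^ (1 / (e : ℝ))) ≤ c' / (4 * A) * (x * A) := by gcongr
      _ = c' * (x / 4) := by field_simp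
  refine le_trans (Real.rpow_le_rpow_of_exponent_le (by norm_num) hcx) ?_
  by_cases hx4 : x < 4
  · calc (2 : ℝ) ^ (c' * (x / 4)) ≤ (2 : ℝ) ^ (1 : ℝ) := by
          apply Real.rpow_le_rpow_of_exponent_le (by norm_num)
          nlinarith
      _ ≤ r + 2 := by rw [Real.rpow_one]; linarith
  · push Not at hx4
    -- the number of indices
    obtain ⟨l, hl1, hl2⟩ : ∃ l : ℕ, 2 * (l : ℝ) + 2 ≤ x ∧ x < 2 * (l : ℝ) + 4 := by
      have h1 : 2 ≤ ⌊x / 2⌋₊ := Nat.le_floor (by push_cast; linarith)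
      refine ⟨⌊x / 2⌋₊ - 1, ?_, ?_⟩
      · have := Nat.floor_le (show 0 ≤ x / 2 by positivity)
        push_cast [Nat.cast_sub (show 1 ≤ ⌊x / 2⌋₊ by omega)]
        linarith
      · have := Nat.lt_floor_add_one (x / 2)
        push_cast [Nat.cast_sub (show 1 ≤ ⌊x / 2⌋₊ by omega)]
        linarith
    set m : ℕ := 2 * l + 1 with hm
    have hmx : ((m : ℝ) + 1) ≤ x := by rw [hm]; push_cast; linarith
    have hme : (A : ℝ) * ((m : ℝ) + 1) ^ e ≤ n := by
      have : ((m : ℝ) + 1) ^ e ≤ x ^ e := pow_le_pow_left₀ (by positivity) hmx e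
      rw [hxe] at this
      rw [le_div_iff₀ (by positivity)] at this
      linarith
    have hmeN : A * (m + 1) ^ e ≤ n := by exact_mod_cast hme
    have hnG : (G l).n ≤ n := (hn l).trans hmeN
    obtain ⟨t, ht⟩ : ∃ t, n = (G l).n + t := ⟨n - (G l).n, by omega⟩
    obtain ⟨F⟩ := hF
    have hnpos : 1 ≤ n := by have := (G l).hn; omega
    have hnpos' : (1 : ℝ) ≤ n := by exact_mod_cast hnpos
    set S : ℕ := 100 * ⌈δ⌉₊ + 200 * n + 1 with hS
    have hceil : (⌈δ⌉₊ : ℝ) ≤ δ + 1 := (Nat.ceil_lt_add_one hδ).le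
    have hceil2 : δ ≤ (⌈δ⌉₊ : ℝ) := Nat.le_ceil δ
    have hSR : S * (2 * (M l * N l)) + t ≤ R := by
      have h1 : (m + 1) ^ k ≤ n ^ q := by
        calc (m + 1) ^ k ≤ (m + 1) ^ (e * q) := Nat.pow_le_pow_right (by omega) hk
          _ = ((m + 1) ^ e) ^ q := pow_mul _ _ _
          _ ≤ n ^ q := by
              apply Nat.pow_le_pow_left
              calc (m + 1) ^ e = 1 * (m + 1) ^ e := (one_mul _).symm
                _ ≤ A * (m + 1) ^ e := Nat.mul_le_mul_right _ hA
                _ ≤ n := hmeN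
      have h2 : 2 * (M l * N l) ≤ A * n ^ q := (hNM l).trans (Nat.mul_le_mul_left A h1)
      have h3 : ((S * (2 * (M l * N l)) + t : ℕ) : ℝ) ≤ R := by
        have h4 : ((2 * (M l * N l) : ℕ) : ℝ) ≤ A * (n : ℝ) ^ q := by exact_mod_cast h2
        have h5 : (S : ℝ) ≤ 401 * (n + δ) := by
          rw [hS]; push_cast
          linarith
        have h6 : (t : ℝ) ≤ n := by
          have : t ≤ n := by omega
          exact_mod_cast this
        have h7 : (1 : ℝ) ≤ (n : ℝ) ^ q := one_le_pow₀ hnpos'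
        have h8 : (0 : ℝ) ≤ (A : ℝ) * (n : ℝ) ^ q := by positivity
        have h9 : (S : ℝ) * ((2 * (M l * N l) : ℕ) : ℝ) ≤ 401 * (n + δ) * (A * (n : ℝ) ^ q) := by
          apply mul_le_mul h5 h4 (by positivity) (by positivity)
        have h10 : (n : ℝ) ≤ (n + δ) * (A * (n : ℝ) ^ q) := by
          have : (1 : ℝ) ≤ A * (n : ℝ) ^ q := by nlinarith
          nlinarith
        have h11 : (402 * A : ℕ) * ((n + δ) * (n : ℝ) ^ q) ≤ R := hR
        push_cast at h9 h11 ⊢
        nlinarith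
      exact_mod_cast h3
    have hSt : t < S := by omega
    have hSδ : δ + 2 * t ≤ S * (1 / 100 : ℝ) := by
      have h6 : (t : ℝ) ≤ n := by
        have : t ≤ n := by omega
        exact_mod_cast this
      rw [hS]; push_cast
      linarith
    subst ht
    obtain ⟨F'⟩ := ALP.restrict (by have := (G l).hn; omega) hSt hSR hSδ F
    have h12 := (hP l).main (l := l) hm le_rfl F'
    have h13 := hgrow l r (by
      refine h12.trans ?_
      have h14 : ((m : ℝ) ^ 2 + 1) ≤ 4 * ((l : ℝ) + 1) ^ 2 := by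
        rw [hm]; push_cast
        nlinarith [show (0 : ℝ) ≤ l by positivity]
      have h15 := Corr.eta_pos l
      gcongr)
    refine le_trans ?_ h13
    apply Real.rpow_le_rpow_of_exponent_le (by norm_num)
    apply mul_le_mul_of_nonneg_left _ hc'0.le
    linarith

end Pool.Agent.Helper68.LP
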