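import Pool.Agent.Helper68.LP.CnfGadget
import Pool.Agent.Helper68.LP.Final

set_option autoImplicit false

/-!
# The lower bound from the formula gadgets (exponent `1/4`)
-/

namespace Pool.Agent.Helper68.LP

theorem NN_le (m : ℕ) : NN m ≤ 80 * (m + 1) ^ 2 := by
  unfold NN MM
  rw [length_subs]
  nlinarith

theorem cnf_n_le (m : ℕ) : (cnfGadget m).n ≤ 6561 * (m + 1) ^ 4 := by
  have h1 : (cnfGadget m).n ≤ (NN m + 1) ^ 2 := verts_length m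
  have h2 : NN m + 1 ≤ 81 * (m + 1) ^ 2 := by
    have := NN_le m
    have h : 1 ≤ (m + 1) ^ 2 := Nat.one_le_pow _ _ (by omega)
    omega
  calc (cnfGadget m).n ≤ (NN m + 1) ^ 2 := h1
    _ ≤ (81 * (m + 1) ^ 2) ^ 2 := Nat.pow_le_pow_left h2 2
    _ = 6561 * (m + 1) ^ 4 := by ring

theorem cnf_Cb_le (m : ℕ) : (cnfGadget m).Cb ≤ 6 * (m + 1) ^ 2 := by
  have : (cnfGadget m).C = 4 := rfl
  unfold Gadget.Cb
  rw [this]
  nlinarith

theorem cnf_K_le (m : ℕ) : (cnfGadget m).toAG.K ≤ 13123 * (m + 1) ^ 5 := by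
  have h1 : (cnfGadget m).B ≤ 2 * (cnfGadget m).n := Nat.sub_le _ _
  have h2 := cnf_n_le m
  change (cnfGadget m).K0 * (cnfGadget m).B + m ≤ _
  have h3 : (cnfGadget m).K0 = m + 1 := rfl
  rw [h3]
  have h4 : (m + 1) * (cnfGadget m).B ≤ (m + 1) * (2 * (6561 * (m + 1) ^ 4)) :=
    Nat.mul_le_mul_left _ (by omega)
  have h5 : m ≤ (m + 1) ^ 5 := by
    calc m ≤ (m + 1) ^ 1 := by rw [pow_one]; omega
      _ ≤ (m + 1) ^ 5 := Nat.pow_le_pow_right (by omega) (by norm_num)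
  have h6 : (m + 1) * (2 * (6561 * (m + 1) ^ 4)) = 13122 * (m + 1) ^ 5 := by ring
  omega

/-- the scale -/
def cnfM (m : ℕ) : ℕ := 10 ^ 12 * (m + 1) ^ 12

theorem cnf_params (m : ℕ) : (cnfGadget m).toAG.Params (80 * (m + 1) ^ 2) (cnfM m) where
  box i := ⟨(gp_box m i).1.trans (NN_le m), (gp_box m i).2.trans (NN_le m)⟩
  big := by
    have h1 := cnf_K_le m
    have h2 : (cnfGadget m).toAG.Cb ≤ 6 * (m + 1) ^ 2 := cnf_Cb_le m
    have h3 : (cnfGadget m).toAG.n ≤ 6561 * (m + 1) ^ 4 := cnf_n_le m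
    set y := m + 1 with hy
    have hy1 : 1 ≤ y := by omega
    have p5 : y ^ 5 ≤ y ^ 12 := Nat.pow_le_pow_right hy1 (by norm_num)
    have p4 : y ^ 4 ≤ y ^ 12 := Nat.pow_le_pow_right hy1 (by norm_num)
    have p2 : y ^ 2 ≤ y ^ 12 := Nat.pow_le_pow_right hy1 (by norm_num)
    have p0 : 1 ≤ y ^ 12 := Nat.one_le_pow _ _ hy1
    have h4 : 80 * y ^ 2 * (cnfGadget m).toAG.Cb ≤ 480 * y ^ 4 := by
      calc 80 * y ^ 2 * (cnfGadget m).toAG.Cb ≤ 80 * y ^ 2 * (6 * y ^ 2) :=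
            Nat.mul_le_mul_left _ h2
        _ = 480 * y ^ 4 := by ring
    have h5 : (cnfGadget m).toAG.n * (80 * y ^ 2 * (cnfGadget m).toAG.Cb) ^ 2
        ≤ 6561 * 480 ^ 2 * y ^ 12 := by
      calc (cnfGadget m).toAG.n * (80 * y ^ 2 * (cnfGadget m).toAG.Cb) ^ 2
          ≤ (6561 * y ^ 4) * (480 * y ^ 4) ^ 2 :=
            Nat.mul_le_mul h3 (Nat.pow_le_pow_left h4 2)
        _ = 6561 * 480 ^ 2 * y ^ 12 := by ring
    unfold cnfM
    rw [← hy]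
    norm_num at h5 ⊢
    omega

/-- Lower bound with the exponent `1/4`. -/
theorem lp_quarter : ∃ (c : ℝ) (C : ℕ), 0 < c ∧ ∀ (n r R : ℕ) (δ : ℝ), 0 ≤ δ →
    (C : ℝ) * ((n + δ) * (n : ℝ) ^ 4) ≤ R → Nonempty (ALP n r R δ) →
    (2 : ℝ) ^ (c * (n : ℝ) ^ (1 / 4 : ℝ)) ≤ r + 2 := by
  have h := of_family (160 * 10 ^ 12) 4 14 4 (by norm_num) (by norm_num) (by norm_num)
    (fun l => (cnfGadget (2 * l + 1)).toAG) (fun l => 80 * (2 * l + 1 + 1) ^ 2)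
    (fun l => cnfM (2 * l + 1)) (fun l => cnf_params (2 * l + 1))
    (fun l => (cnf_n_le (2 * l + 1)).trans (Nat.mul_le_mul_right _ (by norm_num)))
    (fun l => by unfold cnfM; apply le_of_eq; ring)
  exact_mod_cast h

end Pool.Agent.Helper68.LP
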