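import Pool.Agent.Helper68.LP.TourEq
import Pool.Agent.Helper58.Grid.Sound
import Pool.Agent.Helper58.Grid.Deg
import Pool.Agent.Helper31.Grid.Conn
import Pool.Agent.Helper37.Grid.UseConv
import Pool.Agent.Helper17.Etsp.Use
import Pool.Agent.Helper34.Grid.Xor
import Pool.Agent.Helper99.Grid.Compl
import Pool.Agent.Helper99.Grid.Box

set_option autoImplicit false

/-!
# The formula `y_ij = a_i ∧ a_j` gives a gadget
-/

namespace Pool.Agent.Helper68.LP

open Pool.Agent.Helper52.Grid

theorem s_xor : S_Xor := Pool.Agent.Helper34.Grid.mod_Xor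
theorem s_sound : S_Sound := Pool.Agent.Helper58.Grid.sound s_xor Pool.Agent.Helper58.Grid.clause
theorem s_compl : S_Compl :=
  Pool.Agent.Helper99.Grid.compl Pool.Agent.Helper99.Grid.choice Pool.Agent.Helper58.Grid.deg
    Pool.Agent.Helper31.Grid.s_Conn

/-- the costs of the formula graph are `0`, `2` or `4` -/
theorem costs_hv (s : List Sub) (M : ℕ) : Costs (hC s M) (vC s M) := by
  have c1 : ∀ (κ : Kind) (r j : ℕ), hCell κ r j = 0 ∨ hCell κ r j = 2 ∨ hCell κ r j = 4 := by
    intro κ r j
    unfold hCell
    split <;> simp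
  have c2 : ∀ (κ : Kind) (r j : ℕ), vCell κ r j = 0 ∨ vCell κ r j = 2 ∨ vCell κ r j = 4 := by
    intro κ r j
    unfold vCell
    split <;> simp
  have c3 : ∀ i r x, hL M i r x = 0 ∨ hL M i r x = 2 ∨ hL M i r x = 4 := by
    intro i r x
    unfold hL
    split <;> (try split_ifs) <;> simp
  have c4 : ∀ i r x, vL M i r x = 0 ∨ vL M i r x = 2 ∨ vL M i r x = 4 := by
    intro i r x
    unfold vL
    split <;> (try split) <;> (try split_ifs) <;> simp
  have c5 : ∀ r x, hR r x = 0 ∨ hR r x = 2 ∨ hR r x = 4 := by
    intro r x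
    unfold hR
    split <;> simp
  have c6 : ∀ i r x, vR i r x = 0 ∨ vR i r x = 2 ∨ vR i r x = 4 := by
    intro i r x
    unfold vR
    split <;> (try split) <;> (try split_ifs) <;> simp
  constructor
  · intro x y
    unfold hC
    split_ifs
    · unfold hT; split_ifs <;> simp
    · exact c3 _ _ _
    · exact c1 _ _ _
    · exact c5 _ _
    · simp
  · intro x y
    unfold vC
    split_ifs
    · unfold vT; split_ifs <;> simp
    · exact c4 _ _ _
    · exact c2 _ _ _
    · exact c6 _ _ _
    · simp

/-- first subcolumn with a block of row `i` -/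
def fst (s : List Sub) (i : ℕ) : ℕ := s.findIdx fun o => decide (o.map Prod.fst = some i)

theorem fst_spec {s : List Sub} {i : ℕ} (h : ∃ o ∈ s, o.map Prod.fst = some i) :
    fst s i < s.length ∧ (∃ d, sg s (fst s i) = some (i, d)) ∧ Pool.Agent.Helper52.Grid.cnt s i (fst s i) = 0 := by
  have h1 : fst s i < s.length := by
    unfold fst
    rw [List.findIdx_lt_length]
    obtain ⟨o, ho, h2⟩ := h
    exact ⟨o, ho, by simpa using h2⟩
  have h2 : (s[fst s i]'h1).map Prod.fst = some i := by
    have := List.findIdx_getElem (p := fun o : Sub => decide (o.map Prod.fst = some i)) (w := h1)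
    exact of_decide_eq_true this
  refine ⟨h1, ?_, ?_⟩
  · unfold sg
    rw [List.getD_eq_getElem _ _ h1]
    cases ho : s[fst s i]'h1 with
    | none => rw [ho] at h2; simp at h2
    | some o =>
      rw [ho] at h2
      simp only [Option.map_some, Option.some.injEq] at h2
      exact ⟨o.2, by rw [← h2]⟩
  · unfold Pool.Agent.Helper52.Grid.cnt
    rw [List.length_eq_zero_iff, List.filter_eq_nil_iff]
    intro o ho
    obtain ⟨k, hk, rfl⟩ := List.getElem_of_mem ho
    rw [List.length_take] at hk
    have hk1 : k < fst s i := by omega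
    have := List.not_of_lt_findIdx (p := fun o : Sub => decide (o.map Prod.fst = some i))
      (xs := s) hk1
    rw [List.getElem_take]
    simpa using this

/-- the variable of the product -/
def yv (m i j : ℕ) : ℕ := m + i * m + j

/-- clauses for one pair -/
def pairCl (m i j : ℕ) : CNF :=
  [[(i, false), (j, false), (yv m i j, true)], [(i, true), (yv m i j, false)],
    [(j, true), (yv m i j, false)]]

/-- the formula: all `y i j` are the products of `a i` and `a j` -/
def phi (m : ℕ) : CNF :=
  (List.range m).map (fun i => [(i, true), (i, false)])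
    ++ (List.range m).flatMap fun i => (List.range m).flatMap fun j => pairCl m i j

theorem mem_phi {m : ℕ} {c : List (ℕ × Bool)} : c ∈ phi m ↔
    (∃ i < m, c = [(i, true), (i, false)]) ∨ ∃ i < m, ∃ j < m, c ∈ pairCl m i j := by
  unfold phi
  simp only [List.mem_append, List.mem_map, List.mem_range, List.mem_flatMap]
  constructor
  · rintro (⟨i, h1, rfl⟩ | ⟨i, h1, j, h2, h3⟩)
    · exact Or.inl ⟨i, h1, rfl⟩
    · exact Or.inr ⟨i, h1, j, h2, h3⟩
  · rintro (⟨i, h1, rfl⟩ | ⟨i, h1, j, h2, h3⟩)
    · exact Or.inl ⟨i, h1, rfl⟩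
    · exact Or.inr ⟨i, h1, j, h2, h3⟩

theorem yv_lt {m i j : ℕ} (hi : i < m) (hj : j < m) : yv m i j < m + m * m := by
  unfold yv
  have : i * m + m ≤ m * m := by
    have := Nat.mul_le_mul_right m (Nat.succ_le_of_lt hi)
    rw [Nat.succ_mul] at this
    exact this
  omega

theorem phi_bound {m : ℕ} : ∀ c ∈ phi m, ∀ l ∈ c, l.1 < 2 * (m + m * m) + 1 := by
  intro c hc l hl
  rw [mem_phi] at hc
  rcases hc with ⟨i, hi, rfl⟩ | ⟨i, hi, j, hj, hc⟩
  · simp only [List.mem_cons, List.not_mem_nil, or_false] at hl
    rcases hl with rfl | rfl <;> simp only <;> omega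
  · have hy := yv_lt hi hj
    simp only [pairCl, List.mem_cons, List.not_mem_nil, or_false] at hc
    rcases hc with rfl | rfl | rfl
    · simp only [List.mem_cons, List.not_mem_nil, or_false] at hl
      rcases hl with rfl | rfl | rfl <;> simp only <;> omega
    · simp only [List.mem_cons, List.not_mem_nil, or_false] at hl
      rcases hl with rfl | rfl <;> simp only <;> omega
    · simp only [List.mem_cons, List.not_mem_nil, or_false] at hl
      rcases hl with rfl | rfl <;> simp only <;> omega

theorem sat_iff {m : ℕ} {A : ℕ → Bool} : (phi m).Sat A ↔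
    ∀ i < m, ∀ j < m, A (yv m i j) = (A i && A j) := by
  unfold CNF.Sat
  constructor
  · intro h i hi j hj
    have h1 := h [(i, false), (j, false), (yv m i j, true)]
      (mem_phi.mpr (Or.inr ⟨i, hi, j, hj, by simp [pairCl]⟩))
    have h2 := h [(i, true), (yv m i j, false)]
      (mem_phi.mpr (Or.inr ⟨i, hi, j, hj, by simp [pairCl]⟩))
    have h3 := h [(j, true), (yv m i j, false)]
      (mem_phi.mpr (Or.inr ⟨i, hi, j, hj, by simp [pairCl]⟩))
    simp only [List.mem_cons, List.not_mem_nil, or_false, exists_eq_or_imp, exists_eq_left]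
      at h1 h2 h3
    revert h1 h2 h3
    cases A i <;> cases A j <;> cases A (yv m i j) <;> simp
  · intro h c hc
    rw [mem_phi] at hc
    rcases hc with ⟨i, hi, rfl⟩ | ⟨i, hi, j, hj, hc⟩
    · simp only [List.mem_cons, List.not_mem_nil, or_false, exists_eq_or_imp, exists_eq_left]
      cases A i <;> simp
    · have hA := h i hi j hj
      simp only [pairCl, List.mem_cons, List.not_mem_nil, or_false] at hc
      rcases hc with rfl | rfl | rfl <;>
        simp only [List.mem_cons, List.not_mem_nil, or_false, exists_eq_or_imp, exists_eq_left] <;>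
        revert hA <;> cases A i <;> cases A j <;> cases A (yv m i j) <;> simp

theorem mem_subs_of {φ : CNF} {c : List (ℕ × Bool)} (hc : c ∈ φ) {l : ℕ × Bool} (hl : l ∈ c) :
    ∃ o ∈ subs φ, o.map Prod.fst = some l.1 := by
  refine ⟨some (l.1, l.2), ?_, rfl⟩
  unfold subs
  rw [List.mem_flatMap]
  refine ⟨c, hc, ?_⟩
  unfold clSubs
  rw [List.mem_cons, List.mem_flatMap]
  right
  exact ⟨l, hl, by simp⟩

theorem occ_a {m i : ℕ} (hi : i < m) : ∃ o ∈ subs (phi m), o.map Prod.fst = some i :=
  mem_subs_of (c := [(i, true), (i, false)]) (mem_phi.mpr (Or.inl ⟨i, hi, rfl⟩))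
    (l := (i, true)) (by simp)

theorem occ_y {m i j : ℕ} (hi : i < m) (hj : j < m) :
    ∃ o ∈ subs (phi m), o.map Prod.fst = some (yv m i j) :=
  mem_subs_of (c := [(i, true), (yv m i j, false)])
    (mem_phi.mpr (Or.inr ⟨i, hi, j, hj, by simp [pairCl]⟩))
    (l := (yv m i j, false)) (by simp)

/-- length of the list of subcolumns -/
theorem length_subs (m : ℕ) : (subs (phi m)).length = 5 * m + 17 * (m * m) := by
  have hcl : ∀ c : List (ℕ × Bool), (clSubs c).length = 1 + 2 * c.length := by
    intro c
    unfold clSubs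
    rw [List.length_cons]
    have : (c.flatMap fun l => [some (l.1, l.2), some (l.1, !l.2)]).length = 2 * c.length := by
      induction c with
      | nil => rfl
      | cons l c ih => rw [List.flatMap_cons, List.length_append, ih]; simp; ring
    rw [this]; ring
  have hsum : ∀ φ : CNF, (subs φ).length = (φ.map fun c => 1 + 2 * c.length).sum := by
    intro φ
    induction φ with
    | nil => rfl
    | cons c φ ih =>
      have : subs (c :: φ) = clSubs c ++ subs φ := rfl
      rw [this, List.length_append, hcl, ih, List.map_cons, List.sum_cons]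
  rw [hsum]
  unfold phi
  rw [List.map_append, List.sum_append, List.map_map]
  have e1 : ((List.range m).map ((fun c : List (ℕ × Bool) => 1 + 2 * c.length) ∘
      fun i => [(i, true), (i, false)])).sum = 5 * m := by
    have : ((fun c : List (ℕ × Bool) => 1 + 2 * c.length) ∘
      fun i : ℕ => [(i, true), (i, false)]) = fun _ => 5 := by
      funext i; rfl
    rw [this]
    simp [mul_comm]
  have e2 : ∀ i (l : List ℕ), ((l.flatMap fun j => pairCl m i j).map
      fun c : List (ℕ × Bool) => 1 + 2 * c.length).sum = 17 * l.length := by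
    intro i l
    induction l with
    | nil => rfl
    | cons j l ih =>
      rw [List.flatMap_cons, List.map_append, List.sum_append, ih]
      simp [pairCl]; ring
  have e3 : ∀ l : List ℕ, ((l.flatMap fun i => (List.range m).flatMap fun j => pairCl m i j).map
      fun c : List (ℕ × Bool) => 1 + 2 * c.length).sum = 17 * m * l.length := by
    intro l
    induction l with
    | nil => rfl
    | cons j l ih =>
      rw [List.flatMap_cons, List.map_append, List.sum_append, ih, e2]
      simp; ring
  rw [e1, e3]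
  simp; ring

section

variable (m : ℕ)

/-- number of rows (parameter) -/
def MM : ℕ := m + m * m

/-- horizontal costs -/
def gh : ℕ → ℕ → ℕ := hC (subs (phi m)) (MM m)

/-- vertical costs -/
def gv : ℕ → ℕ → ℕ := vC (subs (phi m)) (MM m)

/-- size of the box -/
def NN : ℕ := 8 + 4 * (subs (phi m)).length + 12 * MM m + 10

theorem gbox : Pool.Agent.Helper52.Grid.Box (gh m) (gv m) (NN m) :=
  Pool.Agent.Helper99.Grid.box (subs (phi m)) (MM m)

open Classical in
/-- the list of vertices -/
noncomputable def verts : List Pt :=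
  ((Finset.range (NN m + 1) ×ˢ Finset.range (NN m + 1)).filter fun a => Vert (gh m) (gv m) a).toList

theorem verts_nodup : (verts m).Nodup := Finset.nodup_toList _

theorem mem_verts (a : Pt) : a ∈ verts m ↔ Vert (gh m) (gv m) a := by
  classical
  unfold verts
  rw [Finset.mem_toList, Finset.mem_filter, Finset.mem_product, Finset.mem_range, Finset.mem_range]
  constructor
  · exact fun h => h.2
  · intro h
    have := vert_box (gbox m) h
    exact ⟨⟨by omega, by omega⟩, h⟩

theorem verts_length : (verts m).length ≤ (NN m + 1) ^ 2 := by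
  classical
  unfold verts
  rw [Finset.length_toList]
  refine (Finset.card_filter_le _ _).trans ?_
  rw [Finset.card_product, Finset.card_range, pow_two]

theorem three_le : 3 ≤ (verts m).length := by
  have h1 : ∀ x, x = 1 ∨ x = 2 ∨ x = 3 → (x, 3) ∈ verts m := by
    intro x hx
    rw [mem_verts]
    left
    unfold gh hC hT
    rcases hx with rfl | rfl | rfl <;> simp
  have h2 : ({(1, 3), (2, 3), (3, 3)} : Finset Pt) ⊆ (verts m).toFinset := by
    intro a ha
    simp only [Finset.mem_insert, Finset.mem_singleton] at ha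
    rw [List.mem_toFinset]
    rcases ha with rfl | rfl | rfl
    · exact h1 1 (by simp)
    · exact h1 2 (by simp)
    · exact h1 3 (by simp)
  have h3 := Finset.card_le_card h2
  rw [List.toFinset_card_of_nodup (verts_nodup m)] at h3
  exact h3

/-- the points -/
noncomputable def gp : Fin (verts m).length → ℕ × ℕ := (verts m).get

theorem gp_inj : Function.Injective (gp m) := List.nodup_iff_injective_get.mp (verts_nodup m)

theorem gp_box (i : Fin (verts m).length) : (gp m i).1 ≤ NN m ∧ (gp m i).2 ≤ NN m :=
  vert_box (gbox m) ((mem_verts m _).mp (List.get_mem _ i))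

/-- sum of the forced degrees -/
noncomputable def fsum : ℕ := ∑ i, fdeg (gh m) (gv m) (gp m i)

theorem fsum_perm (σ : Equiv.Perm (Fin (verts m).length)) :
    ∑ i, fdeg (gh m) (gv m) (gp m (σ i)) = fsum m :=
  Equiv.sum_comp σ fun i => fdeg (gh m) (gv m) (gp m i)

/-- the special edge of the variable `t` -/
def se (t : ℕ) : ℕ × ℕ := (6 + 4 * fst (subs (phi m)) t, 6 + 6 * t)

/-- completeness in terms of permutations -/
theorem compl_perm (a : Fin m → Bool) : ∃ σ : Equiv.Perm (Fin (verts m).length),
    UnitTour (gp m) σ ∧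
    ∑ i, ncost (gh m) (gv m) (gp m (σ i)) (gp m (σ (finRotate _ i))) + fsum m
      = 2 * (verts m).length ∧
    (∀ i : Fin m, Used (gp m) σ (se m i) ↔ a i = true) ∧
    (∀ i j : Fin m, (Used (gp m) σ (se m (yv m i j)) ↔ a i = true ∧ a j = true)) := by
  -- the assignment
  obtain ⟨A, hA1, hA2⟩ : ∃ A : ℕ → Bool, (∀ i : Fin m, A i = a i) ∧
      ∀ i j : Fin m, A (yv m i j) = (a i && a j) := by
    refine ⟨fun t => if h : t < m then a ⟨t, h⟩ else
      if h2 : 0 < m ∧ (t - m) / m < m then
        a ⟨(t - m) / m, h2.2⟩ && a ⟨(t - m) % m, Nat.mod_lt _ h2.1⟩ else false, ?_, ?_⟩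
    · intro i
      simp only [i.2, dif_pos]
    · intro i j
      have hm : 0 < m := by have := i.2; omega
      have h1 : ¬ yv m i j < m := by unfold yv; omega
      have h2 : (yv m i j - m) / m = i := by
        unfold yv
        rw [show m + (i : ℕ) * m + j - m = j + i * m by omega, Nat.add_mul_div_right _ _ hm,
          Nat.div_eq_of_lt j.2, zero_add]
      have h3 : (yv m i j - m) % m = j := by
        unfold yv
        rw [show m + (i : ℕ) * m + j - m = j + i * m by omega, Nat.add_mul_mod_self_right,
          Nat.mod_eq_of_lt j.2]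
      simp only [h1, dif_neg, not_false_eq_true]
      rw [dif_pos ⟨hm, by rw [h2]; exact i.2⟩]
      simp only [h2, h3]
  have hsat : (phi m).Sat A := by
    rw [sat_iff]
    intro i hi j hj
    rw [hA2 ⟨i, hi⟩ ⟨j, hj⟩, hA1 ⟨i, hi⟩, hA1 ⟨j, hj⟩]
  obtain ⟨hU, vU, use, reads⟩ := s_compl (phi m) (MM m) A phi_bound hsat
  have hne : ∃ a, Vert (gh m) (gv m) a := by
    have := three_le m
    obtain ⟨a, ha⟩ := List.exists_mem_of_length_pos (l := verts m) (by omega)
    exact ⟨a, (mem_verts m a).mp ha⟩
  obtain ⟨T, hT, hT3, hmatch⟩ := Pool.Agent.Helper37.Grid.useConv (gh m) (gv m) (NN m) hU vU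
    (gbox m) hne use
  obtain ⟨σ, hσ⟩ := exists_perm_ofFn (verts_nodup m) hT.nodup fun a => by
    rw [hT.mem, mem_verts]
  subst hσ
  obtain ⟨h1, h2⟩ := cyc_of_tour (gbox m) (three_le m) (fun i => (verts m).get (σ i))
    ((gp_inj m).comp σ.injective) hT
  refine ⟨σ, h1, ?_, ?_, ?_⟩
  · rw [← fsum_perm m σ]; exact h2
  all_goals
    have hused : ∀ t : ℕ, (∃ o ∈ subs (phi m), o.map Prod.fst = some t) →
        (Used (gp m) σ (se m t) ↔ A t = true) := by
      intro t ht
      obtain ⟨-, ⟨d, hd⟩, hc⟩ := fst_spec ht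
      have h3 := reads t _ d hd
      rw [hc] at h3
      have h4 : sigma vU t (fst (subs (phi m)) t) = A t := by
        rw [h3]; simp
      rw [← h4]
      unfold sigma
      rw [hmatch.2, con_ofFn (three_le m)]
      unfold Used se
      constructor
      · rintro ⟨i, hi⟩; exact ⟨i, hi⟩
      · rintro ⟨i, hi⟩; exact ⟨i, hi⟩
  · intro i
    rw [hused i (occ_a i.2), hA1]
  · intro i j
    rw [hused _ (occ_y i.2 j.2), hA2, Bool.and_eq_true]

theorem fsum_le : fsum m ≤ 2 * (verts m).length := by
  obtain ⟨σ, -, h, -⟩ := compl_perm m fun _ => false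
  omega

/-- the gadget of the formula -/
noncomputable def cnfGadget : Gadget m where
  n := (verts m).length
  hn := three_le m
  p := gp m
  hp := gp_inj m
  h := gh m
  v := gv m
  C := 4
  hC x y := by rcases (costs_hv (subs (phi m)) (MM m)).1 x y with g | g | g <;> unfold gh <;> omega
  vC x y := by rcases (costs_hv (subs (phi m)) (MM m)).2 x y with g | g | g <;> unfold gv <;> omega
  B := 2 * (verts m).length - fsum m
  ea i := se m i
  ey i j := se m (yv m i j)
  low σ hσ := by
    have h1 := (cyc_lower (gbox m) (costs_hv _ _) (three_le m) (fun i => gp m (σ i))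
      ((gp_inj m).comp σ.injective) hσ).1
    have h2 : ∑ i, fdeg (gh m) (gv m) ((fun i => gp m (σ i)) i) = _ := fsum_perm m σ
    rw [h2] at h1
    change 2 * (verts m).length - fsum m ≤ cyc (gh m) (gv m) fun i => gp m (σ i)
    omega
  sound σ hσ hB i j _ hi hj := by
    have h0 := fsum_le m
    have hT : Tour (gh m) (gv m) (List.ofFn fun i => gp m (σ i)) := by
      apply tour_of_cyc (gbox m) (costs_hv _ _) (three_le m) (fun i => gp m (σ i))
        ((gp_inj m).comp σ.injective) hσ
      · intro a
        rw [← mem_verts, List.mem_iff_get]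
        constructor
        · rintro ⟨i, rfl⟩; exact ⟨σ i, rfl⟩
        · rintro ⟨i, rfl⟩; exact ⟨σ.symm i, by unfold gp; simp⟩
      · have h2 : ∑ i, fdeg (gh m) (gv m) ((fun i => gp m (σ i)) i) = _ := fsum_perm m σ
        rw [h2]
        change cyc (gh m) (gv m) (fun i => gp m (σ i)) = _ at hB
        omega
    obtain ⟨hU, vU, use, hmatch⟩ := Pool.Agent.Helper17.Etsp.s_use (gh m) (gv m) (NN m) _ (gbox m)
      hT (by simpa using three_le m)
    obtain ⟨A, hsat, reads⟩ := s_sound (phi m) (MM m) hU vU phi_bound use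
    have hused : ∀ t : ℕ, (∃ o ∈ subs (phi m), o.map Prod.fst = some t) →
        (Used (gp m) σ (se m t) ↔ A t = true) := by
      intro t ht
      obtain ⟨-, ⟨d, hd⟩, hc⟩ := fst_spec ht
      have h3 := reads t _ d hd
      rw [hc] at h3
      have h4 : sigma vU t (fst (subs (phi m)) t) = A t := by
        rw [h3]; simp
      rw [← h4]
      unfold sigma
      rw [hmatch.2, con_ofFn (three_le m)]
      unfold Used se
      constructor
      · rintro ⟨i, hi⟩; exact ⟨i, hi⟩
      · rintro ⟨i, hi⟩; exact ⟨i, hi⟩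
    rw [hused _ (occ_a i.2)] at hi
    rw [hused _ (occ_a j.2)] at hj
    rw [hused _ (occ_y i.2 j.2), (sat_iff.mp hsat) i i.2 j j.2, hi, hj]
    rfl
  compl a := by
    obtain ⟨σ, h1, h2, h3, h4⟩ := compl_perm m a
    refine ⟨σ, h1, by omega, h3, fun i j _ => h4 i j⟩

end

end Pool.Agent.Helper68.LP
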