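import Pool.Agent.Helper52.Grid.Defs
import Pool.Agent.Helper68.LP.Yes
import Pool.Agent.Helper68.LP.Gadget

set_option autoImplicit false

/-!
# Tours as lists and as permutations
-/

namespace Pool.Agent.Helper68.LP

open Pool.Agent.Helper52.Grid (Pt Vert Step Edge Next Con Tour Use Match)

/-- neighbours in the cyclic order of a list given by a function -/
theorem next_ofFn {n : ℕ} (hn : 2 ≤ n) (f : Fin n → Pt) (a b : Pt) :
    Next (List.ofFn f) a b ↔ ∃ i, f i = a ∧ f (finRotate n i) = b := by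
  obtain ⟨m, rfl⟩ : ∃ m, n = m + 2 := ⟨n - 2, by omega⟩
  have hget : ∀ (i : Fin (m + 2)), ∃ l, (List.ofFn f).rotate i = f i :: f (i + 1) :: l := by
    intro i
    have hlen : ((List.ofFn f).rotate i).length = m + 2 := by simp
    obtain ⟨a', l', hl'⟩ := List.exists_cons_of_length_pos
      (l := (List.ofFn f).rotate i) (by rw [hlen]; omega)
    have hlen' : l'.length = m + 1 := by
      have := congrArg List.length hl'
      rw [hlen] at this
      simpa using this.symm
    obtain ⟨b', l'', hl''⟩ := List.exists_cons_of_length_pos (l := l') (by rw [hlen']; omega)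
    have h0 : ((List.ofFn f).rotate i)[0]? = some (f i) := by
      rw [List.getElem?_eq_getElem (by rw [hlen]; omega), List.getElem_rotate]
      simp only [List.getElem_ofFn, List.length_ofFn]
      congr 2
      apply Fin.ext
      simp [Nat.mod_eq_of_lt i.2]
    have h1 : ((List.ofFn f).rotate i)[1]? = some (f (i + 1)) := by
      rw [List.getElem?_eq_getElem (by rw [hlen]; omega), List.getElem_rotate]
      simp only [List.getElem_ofFn, List.length_ofFn]
      congr 2
      apply Fin.ext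
      simp [Fin.val_add, add_comm]
    refine ⟨l'', ?_⟩
    rw [hl', hl''] at h0 h1
    simp only [List.getElem?_cons_zero, List.getElem?_cons_succ, Option.some.injEq] at h0 h1
    rw [hl', hl'', h0, h1]
  constructor
  · rintro ⟨l, k, hk⟩
    have hk' : (List.ofFn f).rotate (k % (m + 2)) = a :: b :: l := by
      rw [← hk]
      have := List.rotate_mod (List.ofFn f) k
      rwa [List.length_ofFn] at this
    obtain ⟨l', hl'⟩ := hget ⟨k % (m + 2), Nat.mod_lt _ (by omega)⟩
    simp only at hl'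
    rw [hk'] at hl'
    simp only [List.cons.injEq] at hl'
    refine ⟨⟨k % (m + 2), Nat.mod_lt _ (by omega)⟩, hl'.1.symm, ?_⟩
    rw [finRotate_apply]
    exact hl'.2.1.symm
  · rintro ⟨i, h1, h2⟩
    obtain ⟨l', hl'⟩ := hget i
    rw [finRotate_apply] at h2
    rw [h1, h2] at hl'
    exact ⟨l', i, hl'⟩

/-- number of forced edges at a point -/
def fdeg (h v : ℕ → ℕ → ℕ) (a : Pt) : ℕ :=
  (if h a.1 a.2 = 0 then 1 else 0) + (if h (a.1 - 1) a.2 = 0 then 1 else 0)
    + (if v a.1 a.2 = 0 then 1 else 0) + (if v a.1 (a.2 - 1) = 0 then 1 else 0)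

/-- the forced neighbours of a point -/
def fN (h v : ℕ → ℕ → ℕ) (a : Pt) : Finset Pt :=
  (if h a.1 a.2 = 0 then {(a.1 + 1, a.2)} else ∅) ∪
  ((if h (a.1 - 1) a.2 = 0 then {(a.1 - 1, a.2)} else ∅) ∪
  ((if v a.1 a.2 = 0 then {(a.1, a.2 + 1)} else ∅) ∪
  (if v a.1 (a.2 - 1) = 0 then {(a.1, a.2 - 1)} else ∅)))

theorem mem_fN {h v : ℕ → ℕ → ℕ} {N : ℕ} (hB : Pool.Agent.Helper52.Grid.Box h v N) (a b : Pt) :
    b ∈ fN h v a ↔ Edge h v 0 a b := by
  obtain ⟨x, y⟩ := a
  obtain ⟨x', y'⟩ := b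
  have hx := hB.hx
  have vy := hB.vy
  unfold fN Edge Step
  simp only [Finset.mem_union, Prod.mk.injEq]
  have mem_ite : ∀ (P : Prop) [Decidable P] (c : Pt), ((x', y') ∈ (if P then {c} else ∅ : Finset Pt))
      ↔ P ∧ (x', y') = c := by
    intro P _ c
    by_cases hP : P <;> simp [hP]
  simp only [mem_ite, Prod.mk.injEq]
  constructor
  · rintro (⟨h1, h2⟩ | ⟨h1, h2⟩ | ⟨h1, h2⟩ | ⟨h1, h2⟩)
    · left; left; exact ⟨h2, h1⟩
    · right; left
      obtain ⟨rfl, rfl⟩ := h2
      have hx1 : x ≠ 0 := by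
        rintro rfl
        rw [Nat.zero_sub, hx] at h1; omega
      exact ⟨⟨by omega, rfl⟩, h1⟩
    · left; right; exact ⟨h2, h1⟩
    · right; right
      obtain ⟨rfl, rfl⟩ := h2
      have hx1 : y ≠ 0 := by
        rintro rfl
        rw [Nat.zero_sub, vy] at h1; omega
      exact ⟨⟨rfl, by omega⟩, h1⟩
  · rintro ((⟨⟨h1, h2⟩, h3⟩ | ⟨⟨h1, h2⟩, h3⟩) | (⟨⟨h1, h2⟩, h3⟩ | ⟨⟨h1, h2⟩, h3⟩))
    · left; exact ⟨h3, h1, h2⟩
    · right; right; left; exact ⟨h3, h1, h2⟩
    · right; left
      subst h1; subst h2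
      exact ⟨by simpa using h3, by simp⟩
    · right; right; right
      subst h1; subst h2
      exact ⟨by simpa using h3, by simp⟩

theorem card_fN {h v : ℕ → ℕ → ℕ} {N : ℕ} (hB : Pool.Agent.Helper52.Grid.Box h v N) (a : Pt) :
    (fN h v a).card = fdeg h v a := by
  obtain ⟨x, y⟩ := a
  have hx := hB.hx
  have vy := hB.vy
  unfold fN fdeg
  simp only
  have h1 : h (x - 1) y = 0 → x ≠ 0 := by
    rintro h1 rfl
    rw [Nat.zero_sub, hx] at h1; omega
  have h2 : v x (y - 1) = 0 → y ≠ 0 := by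
    rintro h1 rfl
    rw [Nat.zero_sub, vy] at h1; omega
  have dis : ∀ (P : Prop) [Decidable P] (c : Pt) (S : Finset Pt), (P → c ∉ S) →
      ((if P then {c} else ∅ : Finset Pt) ∪ S).card = (if P then 1 else 0) + S.card := by
    intro P _ c S hS
    by_cases hP : P
    · simp only [hP, if_true]
      rw [Finset.card_union_of_disjoint (by simpa using hS hP), Finset.card_singleton]
    · simp [hP]
  rw [dis, dis, dis]
  · by_cases hP : v x (y - 1) = 0 <;> simp [hP, add_assoc]
  · intro _ hm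
    by_cases g : v x (y - 1) = 0
    · simp [g] at hm; omega
    · simp [g] at hm
  · intro g0 hm
    have := h1 g0
    rw [Finset.mem_union] at hm
    rcases hm with hm | hm
    · by_cases g : v x y = 0
      · simp [g] at hm
      · simp [g] at hm
    · by_cases g : v x (y - 1) = 0
      · simp [g] at hm; omega
      · simp [g] at hm
  · intro g0 hm
    rw [Finset.mem_union, Finset.mem_union] at hm
    rcases hm with hm | hm | hm
    · by_cases g : h (x - 1) y = 0
      · simp [g] at hm; omega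
      · simp [g] at hm
    · by_cases g : v x y = 0
      · simp [g] at hm
      · simp [g] at hm
    · by_cases g : v x (y - 1) = 0
      · simp [g] at hm
      · simp [g] at hm

/-- neighbours have an edge of some cost, and the cost is `ncost` -/
theorem edge_iff {h v : ℕ → ℕ → ℕ} (t : ℕ) (a b : Pt) :
    Edge h v t a b ↔ Nb a b ∧ ncost h v a b = t := by
  obtain ⟨x, y⟩ := a
  obtain ⟨x', y'⟩ := b
  unfold Edge Step Nb ncost
  simp only [Prod.mk.injEq]
  constructor
  · rintro ((⟨⟨rfl, rfl⟩, h3⟩ | ⟨⟨rfl, rfl⟩, h3⟩) | (⟨⟨rfl, rfl⟩, h3⟩ | ⟨⟨rfl, rfl⟩, h3⟩))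
    · simp [h3]
    · simp [h3]
    · have : ¬ (x' = x' + 1 + 1) := by omega
      simp [h3, this]
    · have : ¬ (y' = y' + 1 + 1) := by omega
      simp [h3, this]
  · rintro ⟨h1, h2⟩
    rcases h1 with ⟨rfl, rfl⟩ | ⟨rfl, rfl⟩ | ⟨rfl, rfl⟩ | ⟨rfl, rfl⟩
    · left; left; simpa using h2
    · right; left
      have : ¬ (x' = x' + 1 + 1) := by omega
      simpa [this] using h2
    · left; right; simpa using h2
    · right; right
      have : ¬ (y' = y' + 1 + 1) := by omega
      simpa [this] using h2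

theorem ncost_comm (h v : ℕ → ℕ → ℕ) (a b : Pt) : ncost h v a b = ncost h v b a := by
  unfold ncost
  split_ifs <;> first | rfl | omega

/-- the costs are `0`, `2` or `4` -/
def Costs (h v : ℕ → ℕ → ℕ) : Prop :=
  (∀ x y, h x y = 0 ∨ h x y = 2 ∨ h x y = 4) ∧ (∀ x y, v x y = 0 ∨ v x y = 2 ∨ v x y = 4)

theorem Costs.ncost {h v : ℕ → ℕ → ℕ} (hc : Costs h v) (a b : Pt) :
    ncost h v a b = 0 ∨ ncost h v a b = 2 ∨ ncost h v a b = 4 := by
  unfold LP.ncost
  split_ifs
  · exact hc.1 _ _
  · exact hc.1 _ _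
  · exact hc.2 _ _
  · exact hc.2 _ _
  · exact Or.inl rfl

/-- local count at a vertex -/
theorem local_le {h v : ℕ → ℕ → ℕ} {N : ℕ} (hB : Pool.Agent.Helper52.Grid.Box h v N)
    (hc : Costs h v) {a b1 b2 : Pt} (hne : b1 ≠ b2) (h1 : Nb a b1) (h2 : Nb a b2) :
    4 ≤ ncost h v a b1 + ncost h v a b2 + 2 * fdeg h v a ∧
      (ncost h v a b1 + ncost h v a b2 + 2 * fdeg h v a = 4 →
        (∀ b, Edge h v 0 a b → b = b1 ∨ b = b2) ∧
        (ncost h v a b1 = 0 ∨ ncost h v a b1 = 2) ∧ (ncost h v a b2 = 0 ∨ ncost h v a b2 = 2)) := by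
  have m1 : ncost h v a b1 = 0 → b1 ∈ fN h v a := fun g =>
    (mem_fN hB a b1).mpr ((edge_iff 0 a b1).mpr ⟨h1, g⟩)
  have m2 : ncost h v a b2 = 0 → b2 ∈ fN h v a := fun g =>
    (mem_fN hB a b2).mpr ((edge_iff 0 a b2).mpr ⟨h2, g⟩)
  have hcard := card_fN hB a
  have c1 := hc.ncost a b1
  have c2 := hc.ncost a b2
  by_cases g1 : ncost h v a b1 = 0 <;> by_cases g2 : ncost h v a b2 = 0
  · have hsub : ({b1, b2} : Finset Pt) ⊆ fN h v a := by
      intro x hx
      rw [Finset.mem_insert, Finset.mem_singleton] at hx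
      rcases hx with rfl | rfl
      · exact m1 g1
      · exact m2 g2
    have h3 := Finset.card_le_card hsub
    rw [Finset.card_pair hne, hcard] at h3
    refine ⟨by omega, fun he => ⟨fun b hb => ?_, Or.inl g1, Or.inl g2⟩⟩
    have h4 : ({b1, b2} : Finset Pt) = fN h v a := by
      apply Finset.eq_of_subset_of_card_le hsub
      rw [Finset.card_pair hne, hcard]; omega
    have := (mem_fN hB a b).mpr hb
    rw [← h4] at this
    simpa using this
  · have hsub : ({b1} : Finset Pt) ⊆ fN h v a := by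
      intro x hx
      rw [Finset.mem_singleton] at hx
      subst hx; exact m1 g1
    have h3 := Finset.card_le_card hsub
    rw [Finset.card_singleton, hcard] at h3
    refine ⟨by omega, fun he => ⟨fun b hb => ?_, Or.inl g1, by omega⟩⟩
    have h4 : ({b1} : Finset Pt) = fN h v a := by
      apply Finset.eq_of_subset_of_card_le hsub
      rw [Finset.card_singleton, hcard]; omega
    have := (mem_fN hB a b).mpr hb
    rw [← h4] at this
    left; simpa using this
  · have hsub : ({b2} : Finset Pt) ⊆ fN h v a := by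
      intro x hx
      rw [Finset.mem_singleton] at hx
      subst hx; exact m2 g2
    have h3 := Finset.card_le_card hsub
    rw [Finset.card_singleton, hcard] at h3
    refine ⟨by omega, fun he => ⟨fun b hb => ?_, by omega, Or.inl g2⟩⟩
    have h4 : ({b2} : Finset Pt) = fN h v a := by
      apply Finset.eq_of_subset_of_card_le hsub
      rw [Finset.card_singleton, hcard]; omega
    have := (mem_fN hB a b).mpr hb
    rw [← h4] at this
    right; simpa using this
  · refine ⟨by omega, fun he => ⟨fun b hb => ?_, by omega, by omega⟩⟩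
    have h4 : fN h v a = ∅ := by
      rw [← Finset.card_eq_zero, hcard]; omega
    have := (mem_fN hB a b).mpr hb
    rw [h4] at this
    simp at this

/-- local count at a vertex of a tour -/
theorem local_eq {h v : ℕ → ℕ → ℕ} {N : ℕ} (hB : Pool.Agent.Helper52.Grid.Box h v N)
    {a b1 b2 : Pt} (hne : b1 ≠ b2) (h1 : Nb a b1) (h2 : Nb a b2)
    (c1 : ncost h v a b1 = 0 ∨ ncost h v a b1 = 2) (c2 : ncost h v a b2 = 0 ∨ ncost h v a b2 = 2)
    (hf : ∀ b, Edge h v 0 a b → b = b1 ∨ b = b2) :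
    ncost h v a b1 + ncost h v a b2 + 2 * fdeg h v a = 4 := by
  have m1 : ncost h v a b1 = 0 ↔ b1 ∈ fN h v a := by
    rw [mem_fN hB a b1, edge_iff 0 a b1]
    exact ⟨fun g => ⟨h1, g⟩, fun g => g.2⟩
  have m2 : ncost h v a b2 = 0 ↔ b2 ∈ fN h v a := by
    rw [mem_fN hB a b2, edge_iff 0 a b2]
    exact ⟨fun g => ⟨h2, g⟩, fun g => g.2⟩
  have hsub : fN h v a ⊆ ({b1, b2} : Finset Pt) := by
    intro x hx
    have := hf x ((mem_fN hB a x).mp hx)
    simpa using this
  have hcard := card_fN hB a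
  have key : fN h v a = ({b1, b2} : Finset Pt).filter (· ∈ fN h v a) := by
    ext x
    rw [Finset.mem_filter]
    exact ⟨fun hx => ⟨hsub hx, hx⟩, fun hx => hx.2⟩
  have hc2 : fdeg h v a = (if b1 ∈ fN h v a then 1 else 0) + (if b2 ∈ fN h v a then 1 else 0) := by
    rw [← hcard]
    conv_lhs => rw [key]
    rw [Finset.card_filter, Finset.sum_pair hne]
  rw [hc2]
  by_cases g1 : b1 ∈ fN h v a <;> by_cases g2 : b2 ∈ fN h v a
  · simp [g1, g2, m1.mpr g1, m2.mpr g2]
  · have : ncost h v a b2 ≠ 0 := fun g => g2 (m2.mp g)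
    simp only [g1, g2, if_true, if_false, m1.mpr g1]; omega
  · have : ncost h v a b1 ≠ 0 := fun g => g1 (m1.mp g)
    simp only [g1, g2, if_true, if_false, m2.mpr g2]; omega
  · have : ncost h v a b2 ≠ 0 := fun g => g2 (m2.mp g)
    have : ncost h v a b1 ≠ 0 := fun g => g1 (m1.mp g)
    simp only [g1, g2, if_false]; omega

section Main

variable {h v : ℕ → ℕ → ℕ} {N n : ℕ}

/-- cost of the tour through the points `f` -/
def cyc (h v : ℕ → ℕ → ℕ) (f : Fin n → Pt) : ℕ := ∑ i, ncost h v (f i) (f (finRotate n i))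

theorem cyc_double (f : Fin n → Pt) :
    ∑ i, (ncost h v (f i) (f (finRotate n i)) + ncost h v (f i) (f ((finRotate n).symm i)))
      = 2 * cyc h v f := by
  rw [Finset.sum_add_distrib]
  have : ∑ i, ncost h v (f i) (f ((finRotate n).symm i)) = cyc h v f := by
    unfold cyc
    rw [← Equiv.sum_comp (finRotate n)]
    refine Finset.sum_congr rfl fun i _ => ?_
    rw [Equiv.symm_apply_apply, ncost_comm]
  rw [this]
  unfold cyc
  ring

theorem rot_ne (hn : 3 ≤ n) (i : Fin n) : finRotate n i ≠ (finRotate n).symm i := by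
  intro h
  have := congrArg (finRotate n) h
  rw [Equiv.apply_symm_apply] at this
  exact finRotate_two hn i this

theorem cyc_lower (hB : Pool.Agent.Helper52.Grid.Box h v N) (hc : Costs h v) (hn : 3 ≤ n)
    (f : Fin n → Pt) (hf : Function.Injective f) (hu : ∀ i, Nb (f i) (f (finRotate n i))) :
    2 * n ≤ cyc h v f + ∑ i, fdeg h v (f i) ∧
      (cyc h v f + ∑ i, fdeg h v (f i) = 2 * n →
        ∀ i, (∀ b, Edge h v 0 (f i) b → b = f (finRotate n i) ∨ b = f ((finRotate n).symm i)) ∧
        (ncost h v (f i) (f (finRotate n i)) = 0 ∨ ncost h v (f i) (f (finRotate n i)) = 2)) := by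
  have hu' : ∀ i, Nb (f i) (f ((finRotate n).symm i)) := by
    intro i
    have := (hu ((finRotate n).symm i)).symm
    rwa [Equiv.apply_symm_apply] at this
  have hloc := fun i => local_le hB hc (a := f i)
    (fun he => rot_ne hn i (hf he)) (hu i) (hu' i)
  have hsum : ∑ i, (ncost h v (f i) (f (finRotate n i)) + ncost h v (f i) (f ((finRotate n).symm i))
      + 2 * fdeg h v (f i)) = 2 * (cyc h v f + ∑ i, fdeg h v (f i)) := by
    rw [Finset.sum_add_distrib, cyc_double, ← Finset.mul_sum]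
    ring
  have hlow : ∑ _i : Fin n, 4 ≤ ∑ i, (ncost h v (f i) (f (finRotate n i))
      + ncost h v (f i) (f ((finRotate n).symm i)) + 2 * fdeg h v (f i)) :=
    Finset.sum_le_sum fun i _ => (hloc i).1
  have h4 : ∑ _i : Fin n, 4 = 4 * n := by
    rw [Finset.sum_const, Finset.card_univ, Fintype.card_fin, smul_eq_mul, mul_comm]
  refine ⟨by rw [h4, hsum] at hlow; omega, fun he i => ?_⟩
  have heq : ∑ _i : Fin n, 4 = ∑ i, (ncost h v (f i) (f (finRotate n i))
      + ncost h v (f i) (f ((finRotate n).symm i)) + 2 * fdeg h v (f i)) := by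
    rw [h4, hsum, he]; ring
  have := (Finset.sum_eq_sum_iff_of_le fun i _ => (hloc i).1).mp heq i (Finset.mem_univ i)
  obtain ⟨r1, r2, _⟩ := (hloc i).2 this.symm
  exact ⟨r1, r2⟩

theorem con_ofFn (hn : 3 ≤ n) (f : Fin n → Pt) (a b : Pt) : Con (List.ofFn f) a b ↔
    ∃ i, (f i = a ∧ f (finRotate n i) = b) ∨ (f (finRotate n i) = a ∧ f i = b) := by
  unfold Pool.Agent.Helper52.Grid.Con
  rw [next_ofFn (by omega), next_ofFn (by omega)]
  constructor
  · rintro (⟨i, h1, h2⟩ | ⟨i, h1, h2⟩)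
    · exact ⟨i, Or.inl ⟨h1, h2⟩⟩
    · exact ⟨i, Or.inr ⟨h2, h1⟩⟩
  · rintro ⟨i, ⟨h1, h2⟩ | ⟨h1, h2⟩⟩
    · exact Or.inl ⟨i, h1, h2⟩
    · exact Or.inr ⟨i, h2, h1⟩

/-- a cheap cyclic order along unit edges is a tour in the sense of the formula graphs -/
theorem tour_of_cyc (hB : Pool.Agent.Helper52.Grid.Box h v N) (hc : Costs h v) (hn : 3 ≤ n)
    (f : Fin n → Pt) (hf : Function.Injective f) (hu : ∀ i, Nb (f i) (f (finRotate n i)))
    (hmem : ∀ a, (∃ i, f i = a) ↔ Vert h v a)
    (hW : cyc h v f + ∑ i, fdeg h v (f i) = 2 * n) : Tour h v (List.ofFn f) := by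
  have key := (cyc_lower hB hc hn f hf hu).2 hW
  refine ⟨List.nodup_ofFn.mpr hf, fun a => ?_, fun a b hab => ?_, fun a b hab => ?_⟩
  · rw [List.mem_ofFn]; exact hmem a
  · rw [next_ofFn (by omega)] at hab
    obtain ⟨i, rfl, rfl⟩ := hab
    rcases (key i).2 with h0 | h0
    · exact Or.inl ((edge_iff 0 _ _).mpr ⟨hu i, h0⟩)
    · exact Or.inr ((edge_iff 2 _ _).mpr ⟨hu i, h0⟩)
  · have hva : Vert h v a := by
      obtain ⟨x, y⟩ := a
      rcases hab with (⟨_, h1⟩ | ⟨_, h1⟩) | (⟨h2, h1⟩ | ⟨h2, h1⟩)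
      · exact Or.inl h1
      · exact Or.inr (Or.inr (Or.inl h1))
      · simp only [Prod.mk.injEq] at h2
        right; left
        simp only [h2.1, h2.2, Nat.add_sub_cancel]
        exact h1
      · simp only [Prod.mk.injEq] at h2
        right; right; right
        simp only [h2.1, h2.2, Nat.add_sub_cancel]
        exact h1
    obtain ⟨i, hi⟩ := (hmem a).mpr hva
    subst hi
    rw [con_ofFn hn]
    rcases (key i).1 b hab with rfl | rfl
    · exact ⟨i, Or.inl ⟨rfl, rfl⟩⟩
    · exact ⟨(finRotate n).symm i, Or.inr ⟨by rw [Equiv.apply_symm_apply], rfl⟩⟩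

/-- a tour in the sense of the formula graphs is a cheap cyclic order -/
theorem cyc_of_tour (hB : Pool.Agent.Helper52.Grid.Box h v N) (hn : 3 ≤ n)
    (f : Fin n → Pt) (hf : Function.Injective f) (hT : Tour h v (List.ofFn f)) :
    (∀ i, Nb (f i) (f (finRotate n i))) ∧ cyc h v f + ∑ i, fdeg h v (f i) = 2 * n := by
  have hedge : ∀ i, Nb (f i) (f (finRotate n i)) ∧
      (ncost h v (f i) (f (finRotate n i)) = 0 ∨ ncost h v (f i) (f (finRotate n i)) = 2) := by
    intro i
    have := hT.edge (f i) (f (finRotate n i)) ((next_ofFn (by omega) f _ _).mpr ⟨i, rfl, rfl⟩)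
    rw [edge_iff, edge_iff] at this
    rcases this with ⟨h1, h2⟩ | ⟨h1, h2⟩
    · exact ⟨h1, Or.inl h2⟩
    · exact ⟨h1, Or.inr h2⟩
  refine ⟨fun i => (hedge i).1, ?_⟩
  have hedge' : ∀ i, Nb (f i) (f ((finRotate n).symm i)) ∧
      (ncost h v (f i) (f ((finRotate n).symm i)) = 0 ∨
        ncost h v (f i) (f ((finRotate n).symm i)) = 2) := by
    intro i
    have := hedge ((finRotate n).symm i)
    rw [Equiv.apply_symm_apply] at this
    rw [ncost_comm]
    exact ⟨this.1.symm, this.2⟩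
  have hforced : ∀ i b, Edge h v 0 (f i) b →
      b = f (finRotate n i) ∨ b = f ((finRotate n).symm i) := by
    intro i b hb
    have := hT.forced _ _ hb
    rw [con_ofFn hn] at this
    obtain ⟨j, ⟨h1, h2⟩ | ⟨h1, h2⟩⟩ := this
    · left
      rw [← h2, hf h1]
    · right
      rw [← h2, ← hf h1, Equiv.symm_apply_apply]
  have hloc := fun i => local_eq hB (a := f i) (fun he => rot_ne hn i (hf he)) (hedge i).1
    (hedge' i).1 (hedge i).2 (hedge' i).2 (hforced i)
  have hsum : ∑ i, (ncost h v (f i) (f (finRotate n i)) + ncost h v (f i) (f ((finRotate n).symm i))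
      + 2 * fdeg h v (f i)) = 2 * (cyc h v f + ∑ i, fdeg h v (f i)) := by
    rw [Finset.sum_add_distrib, cyc_double, ← Finset.mul_sum]
    ring
  simp only [hloc] at hsum
  rw [Finset.sum_const, Finset.card_univ, Fintype.card_fin, smul_eq_mul] at hsum
  omega

end Main

theorem vert_box {h v : ℕ → ℕ → ℕ} {N : ℕ} (hB : Pool.Agent.Helper52.Grid.Box h v N) {a : Pt}
    (ha : Vert h v a) : a.1 ≤ N ∧ a.2 ≤ N := by
  obtain ⟨x, y⟩ := a
  have hx := hB.hx
  have vy := hB.vy
  rcases ha with g | g | g | g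
  · have := hB.hN x y (by rw [g]; omega)
    exact ⟨this.1.le, this.2⟩
  · simp only at g
    have := hB.hN (x - 1) y (by rw [g]; omega)
    have hx1 : x ≠ 0 := by
      rintro rfl
      rw [Nat.zero_sub, hx] at g; omega
    exact ⟨by simp only; omega, this.2⟩
  · have := hB.vN x y (by rw [g]; omega)
    exact ⟨this.1, this.2.le⟩
  · simp only at g
    have := hB.vN x (y - 1) (by rw [g]; omega)
    have hx1 : y ≠ 0 := by
      rintro rfl
      rw [Nat.zero_sub, vy] at g; omega
    exact ⟨this.1, by simp only; omega⟩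

/-- every list with the same elements is obtained by a permutation -/
theorem exists_perm_ofFn {L T : List Pt} (hL : L.Nodup) (hT : T.Nodup) (hmem : ∀ a, a ∈ T ↔ a ∈ L) :
    ∃ σ : Equiv.Perm (Fin L.length), T = List.ofFn fun i => L.get (σ i) := by
  have hperm : T.Perm L := (List.perm_ext_iff_of_nodup hT hL).mpr hmem
  have hlen := hperm.length_eq
  have hinj : Function.Injective fun i : Fin L.length => T.get (Fin.cast hlen.symm i) := by
    intro i j hij
    have := List.nodup_iff_injective_get.mp hT hij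
    exact Fin.cast_injective _ this
  have hex : ∀ i : Fin L.length, ∃ j : Fin L.length, L.get j = T.get (Fin.cast hlen.symm i) := by
    intro i
    have h1 : T.get (Fin.cast hlen.symm i) ∈ L := (hmem _).mp (List.get_mem _ _)
    exact List.mem_iff_get.mp h1
  choose g hg using hex
  have ginj : Function.Injective g := by
    intro i j hij
    apply hinj
    simp only
    rw [← hg i, ← hg j, hij]
  refine ⟨Equiv.ofBijective g (Finite.injective_iff_bijective.mp ginj), ?_⟩
  apply List.ext_get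
  · simp [hlen]
  · intro k h1 h2
    simp only [Equiv.ofBijective_apply, List.get_ofFn]
    rw [hg]
    rfl

/-- Module P of the formula library: exact Euclidean tours and tours of the lattice graph. -/
theorem p_pert {h v : ℕ → ℕ → ℕ} {N : ℕ} (hB : Pool.Agent.Helper52.Grid.Box h v N)
    (hc : Costs h v) (L : List Pt) (hL : L.Nodup) (hmem : ∀ a, a ∈ L ↔ Vert h v a)
    (hn : 3 ≤ L.length) (W : ℕ) (hW : W + (L.map (fdeg h v)).sum = 2 * L.length) :
    (∃ T, Tour h v T) ↔ ∃ σ : Equiv.Perm (Fin L.length),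
      tlen (fun i => pert (dbl h) (dbl v) (scale L.length N 4 W : ℕ) (L.get i)) σ
        ≤ ((L.length * scale L.length N 4 W + (2 * W + 1) : ℕ) : ℝ) := by
  have hp : Function.Injective L.get := List.nodup_iff_injective_get.mp hL
  have hN : ∀ i, (L.get i).1 ≤ N ∧ (L.get i).2 ≤ N := fun i =>
    vert_box hB ((hmem _).mp (List.get_mem L i))
  rw [yes_iff (C := 4) (fun x y => by rcases hc.1 x y with g | g | g <;> omega)
    (fun x y => by rcases hc.2 x y with g | g | g <;> omega) (by omega) L.get hp hN]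
  have hfd : ∀ σ : Equiv.Perm (Fin L.length), ∑ i, fdeg h v (L.get (σ i))
      = (L.map (fdeg h v)).sum := by
    intro σ
    rw [Equiv.sum_comp σ fun i => fdeg h v (L.get i)]
    rw [← List.sum_ofFn]
    congr 1
    apply List.ext_get
    · simp
    · intro k h1 h2
      simp
  constructor
  · rintro ⟨T, hT⟩
    obtain ⟨σ, rfl⟩ := exists_perm_ofFn hL hT.nodup fun a => by rw [hT.mem, hmem]
    obtain ⟨h1, h2⟩ := cyc_of_tour hB hn (fun i => L.get (σ i)) (hp.comp σ.injective) hT
    refine ⟨σ, h1, ?_⟩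
    have h3 : ∑ i, fdeg h v ((fun i => L.get (σ i)) i) = _ := hfd σ
    rw [h3] at h2
    change cyc h v (fun i => L.get (σ i)) ≤ W
    omega
  · rintro ⟨σ, hu, hσ⟩
    refine ⟨List.ofFn fun i => L.get (σ i), ?_⟩
    apply tour_of_cyc hB hc hn (fun i => L.get (σ i)) (hp.comp σ.injective) hu
    · intro a
      rw [← hmem, List.mem_iff_get]
      constructor
      · rintro ⟨i, rfl⟩; exact ⟨σ i, rfl⟩
      · rintro ⟨i, rfl⟩; exact ⟨σ.symm i, by simp⟩
    · have h1 := (cyc_lower hB hc hn (fun i => L.get (σ i)) (hp.comp σ.injective) hu).1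
      have h3 : ∑ i, fdeg h v ((fun i => L.get (σ i)) i) = _ := hfd σ
      rw [h3] at h1 ⊢
      change cyc h v (fun i => L.get (σ i)) ≤ W at hσ
      omega

end Pool.Agent.Helper68.LP
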