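import Pool.Agent.Helper52.ETSP.Defs

set_option autoImplicit false

/-!
# Perturbed lattice points: arbitrary integer costs on the unit edges of the square lattice

`h x y` is the cost of the edge `(x, y) - (x + 1, y)`, `v x y` the cost of `(x, y) - (x, y + 1)`.
-/

namespace Pool.Agent.Helper68.LP

/-- Euclidean distance between two points of `ℤ²`, as an exact real number. -/
noncomputable def dE (p q : ℤ × ℤ) : ℝ :=
  Real.sqrt (((p.1 - q.1 : ℤ) : ℝ) ^ 2 + ((p.2 - q.2 : ℤ) : ℝ) ^ 2)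

theorem dE_eq (p q : ℤ × ℤ) : dE p q = Pool.Agent.Helper52.ETSP.edist p q := rfl

/-- exact length of the tour `σ` through the points `pt` -/
noncomputable def tlen {n : ℕ} (pt : Fin n → ℤ × ℤ) (σ : Equiv.Perm (Fin n)) : ℝ :=
  ∑ i, dE (pt (σ i)) (pt (σ (finRotate n i)))

/-- the perturbed point of the lattice point `(x, y)` at scale `M` -/
def pert (h v : ℕ → ℕ → ℤ) (M : ℤ) (p : ℕ × ℕ) : ℤ × ℤ :=
  (M * p.1 + ∑ i ∈ Finset.range p.1, h i p.2, M * p.2 + ∑ j ∈ Finset.range p.2, v p.1 j)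

/-- lattice neighbours -/
def Nb (p q : ℕ × ℕ) : Prop :=
  (q.1 = p.1 + 1 ∧ q.2 = p.2) ∨ (p.1 = q.1 + 1 ∧ q.2 = p.2) ∨
    (q.1 = p.1 ∧ q.2 = p.2 + 1) ∨ (q.1 = p.1 ∧ p.2 = q.2 + 1)

instance (p q : ℕ × ℕ) : Decidable (Nb p q) := by unfold Nb; infer_instance

/-- cost of the pair `p, q`: the cost of the unit edge, or `K` if `p, q` are not neighbours -/
def ucost (h v : ℕ → ℕ → ℤ) (K : ℤ) (p q : ℕ × ℕ) : ℤ :=
  if q.1 = p.1 + 1 ∧ q.2 = p.2 then h p.1 p.2
  else if p.1 = q.1 + 1 ∧ q.2 = p.2 then h q.1 q.2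
  else if q.1 = p.1 ∧ q.2 = p.2 + 1 then v p.1 p.2
  else if q.1 = p.1 ∧ p.2 = q.2 + 1 then v q.1 q.2
  else K

theorem ucost_comm (h v : ℕ → ℕ → ℤ) (K : ℤ) (p q : ℕ × ℕ) :
    ucost h v K p q = ucost h v K q p := by
  unfold ucost
  split_ifs <;> first | rfl | omega

theorem Nb.symm {p q : ℕ × ℕ} (h : Nb p q) : Nb q p := by
  unfold Nb at *; omega

theorem ucost_not {h v : ℕ → ℕ → ℤ} {K : ℤ} {p q : ℕ × ℕ} (hn : ¬ Nb p q) :
    ucost h v K p q = K := by
  unfold Nb at hn
  unfold ucost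
  push Not at hn
  obtain ⟨h1, h2, h3, h4⟩ := hn
  rw [if_neg (by tauto), if_neg (by tauto), if_neg (by tauto), if_neg (by tauto)]

/-- the hypotheses on the size of the box and the costs -/
structure Box (h v : ℕ → ℕ → ℤ) (N C : ℕ) : Prop where
  hh : ∀ x y, |h x y| ≤ C
  hv : ∀ x y, |v x y| ≤ C

theorem sum_bound {f : ℕ → ℤ} {C x N : ℕ} (hf : ∀ i, |f i| ≤ C) (hx : x ≤ N) :
    |∑ i ∈ Finset.range x, f i| ≤ (N * C : ℕ) := by
  calc |∑ i ∈ Finset.range x, f i| ≤ ∑ i ∈ Finset.range x, |f i| :=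
        Finset.abs_sum_le_sum_abs _ _
    _ ≤ ∑ _i ∈ Finset.range x, (C : ℤ) := Finset.sum_le_sum fun i _ => hf i
    _ = (x * C : ℕ) := by simp
    _ ≤ (N * C : ℕ) := by exact_mod_cast Nat.mul_le_mul_right C hx

theorem dE_comm (p q : ℤ × ℤ) : dE p q = dE q p := by
  unfold dE
  congr 1
  push_cast
  ring

/-- the difference vector of a horizontal unit edge -/
theorem pert_right (h v : ℕ → ℕ → ℤ) (M : ℤ) (x y : ℕ) :
    (pert h v M (x + 1, y)).1 - (pert h v M (x, y)).1 = M + h x y := by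
  unfold pert
  simp only [Finset.sum_range_succ]
  push_cast
  ring

/-- the difference vector of a vertical unit edge -/
theorem pert_up (h v : ℕ → ℕ → ℤ) (M : ℤ) (x y : ℕ) :
    (pert h v M (x, y + 1)).2 - (pert h v M (x, y)).2 = M + v x y := by
  unfold pert
  simp only [Finset.sum_range_succ]
  push_cast
  ring

theorem le_dE_left (p q : ℤ × ℤ) : ((p.1 - q.1 : ℤ) : ℝ) ≤ dE p q := by
  unfold dE
  refine (le_abs_self _).trans ?_
  rw [← Real.sqrt_sq_eq_abs]
  exact Real.sqrt_le_sqrt (le_add_of_nonneg_right (sq_nonneg _))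

theorem le_dE_right (p q : ℤ × ℤ) : ((p.2 - q.2 : ℤ) : ℝ) ≤ dE p q := by
  unfold dE
  refine (le_abs_self _).trans ?_
  rw [← Real.sqrt_sq_eq_abs]
  exact Real.sqrt_le_sqrt (le_add_of_nonneg_left (sq_nonneg _))

/-- `√(A² + B²) ≤ A + B²/(2A)` -/
theorem sqrt_le_aux {A B : ℝ} (hA : 0 < A) : Real.sqrt (A ^ 2 + B ^ 2) ≤ A + B ^ 2 / (2 * A) := by
  apply Real.sqrt_le_iff.mpr
  constructor
  · positivity
  · have : (A + B ^ 2 / (2 * A)) ^ 2 = A ^ 2 + B ^ 2 + (B ^ 2 / (2 * A)) ^ 2 := by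
      field_simp
      ring
    rw [this]
    exact le_add_of_nonneg_right (sq_nonneg _)

/-- upper bound for the length of a perturbed unit edge -/
theorem dE_le_of_nb {h v : ℕ → ℕ → ℤ} {N C : ℕ} (hB : Box h v N C) {M K : ℤ} {p q : ℕ × ℕ}
    (hp : p.1 ≤ N ∧ p.2 ≤ N) (hq : q.1 ≤ N ∧ q.2 ≤ N) (hn : Nb p q) (hM : (C : ℤ) < M) :
    dE (pert h v M p) (pert h v M q)
      ≤ M + ucost h v K p q + (2 * (N * C : ℕ)) ^ 2 / (2 * ((M : ℝ) - C)) := by
  -- it suffices to treat the cases where `q` is to the right of or above `p`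
  have main : ∀ p q : ℕ × ℕ, p.1 ≤ N ∧ p.2 ≤ N → q.1 ≤ N ∧ q.2 ≤ N →
      ((q.1 = p.1 + 1 ∧ q.2 = p.2) ∨ (q.1 = p.1 ∧ q.2 = p.2 + 1)) →
      dE (pert h v M p) (pert h v M q)
      ≤ M + ucost h v K p q + (2 * (N * C : ℕ)) ^ 2 / (2 * ((M : ℝ) - C)) := by
    rintro ⟨x, y⟩ ⟨x', y'⟩ ⟨hx, hy⟩ ⟨hx', hy'⟩ hpq
    simp only at hx hy hx' hy' hpq
    have hMC : (0 : ℝ) < (M : ℝ) - C := by
      have : ((C : ℤ) : ℝ) < (M : ℝ) := by exact_mod_cast hM
      push_cast at this
      linarith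
    have est : ∀ (c e : ℤ), |c| ≤ C → |e| ≤ 2 * (N * C : ℕ) →
        Real.sqrt (((M + c : ℤ) : ℝ) ^ 2 + (e : ℝ) ^ 2)
          ≤ M + c + (2 * (N * C : ℕ)) ^ 2 / (2 * ((M : ℝ) - C)) := by
      intro c e hc he
      have hc' : -(C : ℝ) ≤ c := by
        have := (abs_le.mp hc).1
        exact_mod_cast this
      have hA : (0 : ℝ) < ((M + c : ℤ) : ℝ) := by push_cast; linarith
      refine (sqrt_le_aux hA).trans ?_
      push_cast
      have he' : (e : ℝ) ^ 2 ≤ (2 * (N * C : ℕ)) ^ 2 := by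
        have h1 : |(e : ℝ)| ≤ 2 * (N * C : ℕ) := by exact_mod_cast he
        rw [← sq_abs]
        exact pow_le_pow_left₀ (abs_nonneg _) h1 2
      have h2 : (e : ℝ) ^ 2 / (2 * ((M : ℝ) + c)) ≤ (2 * (N * C : ℕ)) ^ 2 / (2 * ((M : ℝ) - C)) := by
        push_cast at hA
        apply div_le_div₀ (by positivity) he' (by positivity)
        linarith
      push_cast at h2
      linarith
    rcases hpq with ⟨h1, h2⟩ | ⟨h1, h2⟩
    · subst h1; subst h2
      have hu : ucost h v K (x, y') (x + 1, y') = h x y' := by simp [ucost]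
      rw [hu, dE_comm]
      unfold dE
      rw [pert_right]
      refine est _ _ (hB.hh _ _) ?_
      have e1 : (pert h v M (x + 1, y')).2 - (pert h v M (x, y')).2
          = ∑ j ∈ Finset.range y', v (x + 1) j - ∑ j ∈ Finset.range y', v x j := by
        simp [pert]
      rw [e1]
      have b1 := sum_bound (f := v (x + 1)) (fun i => hB.hv _ i) hy
      have b2 := sum_bound (f := v x) (fun i => hB.hv _ i) hy
      rw [abs_le] at b1 b2 ⊢
      constructor <;> linarith
    · subst h1; subst h2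
      have hu : ucost h v K (x', y) (x', y + 1) = v x' y := by
        unfold ucost
        rw [if_neg (by simp), if_neg (by simp), if_pos (by simp)]
      rw [hu, dE_comm]
      unfold dE
      rw [pert_up, add_comm]
      refine est _ _ (hB.hv _ _) ?_
      have e1 : (pert h v M (x', y + 1)).1 - (pert h v M (x', y)).1
          = ∑ i ∈ Finset.range x', h i (y + 1) - ∑ i ∈ Finset.range x', h i y := by
        simp [pert]
      rw [e1]
      have b1 := sum_bound (f := fun i => h i (y + 1)) (fun i => hB.hh i _) hx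
      have b2 := sum_bound (f := fun i => h i y) (fun i => hB.hh i _) hx
      rw [abs_le] at b1 b2 ⊢
      constructor <;> linarith
  unfold Nb at hn
  rcases hn with h1 | h1 | h1 | h1
  · exact main p q hp hq (Or.inl h1)
  · rw [dE_comm, ucost_comm]
    exact main q p hq hp (Or.inl ⟨h1.1, h1.2.symm⟩)
  · exact main p q hp hq (Or.inr h1)
  · rw [dE_comm, ucost_comm]
    exact main q p hq hp (Or.inr ⟨h1.1.symm, h1.2⟩)

/-- lower bound for the distance of two perturbed lattice points -/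
theorem le_dE {h v : ℕ → ℕ → ℤ} {N C : ℕ} (hB : Box h v N C) {M K : ℤ} {p q : ℕ × ℕ}
    (hp : p.1 ≤ N ∧ p.2 ≤ N) (hq : q.1 ≤ N ∧ q.2 ≤ N) (hpq : p ≠ q)
    (hK : 0 ≤ K) (hM : 3 * K + 8 * (N * C : ℕ) ≤ M) :
    (M : ℝ) + ucost h v K p q ≤ dE (pert h v M p) (pert h v M q) := by
  by_cases hn : Nb p q
  · unfold Nb at hn
    obtain ⟨x, y⟩ := p
    obtain ⟨x', y'⟩ := q
    simp only at hn
    rcases hn with ⟨h1, h2⟩ | ⟨h1, h2⟩ | ⟨h1, h2⟩ | ⟨h1, h2⟩
    · subst h1; subst h2
      have hu : ucost h v K (x, y') (x + 1, y') = h x y' := by simp [ucost]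
      rw [hu, dE_comm]
      refine le_trans (le_of_eq ?_) (le_dE_left _ _)
      rw [pert_right]
      push_cast; ring
    · subst h1; subst h2
      have hu : ucost h v K (x' + 1, y') (x', y') = h x' y' := by
        rw [ucost_comm]; simp [ucost]
      rw [hu]
      refine le_trans (le_of_eq ?_) (le_dE_left _ _)
      rw [pert_right]
      push_cast; ring
    · subst h1; subst h2
      have hu : ucost h v K (x', y) (x', y + 1) = v x' y := by
        unfold ucost
        rw [if_neg (by simp), if_neg (by simp), if_pos (by simp)]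
      rw [hu, dE_comm]
      refine le_trans (le_of_eq ?_) (le_dE_right _ _)
      rw [pert_up]
      push_cast; ring
    · subst h1; subst h2
      have hu : ucost h v K (x', y' + 1) (x', y') = v x' y' := by
        rw [ucost_comm]
        unfold ucost
        rw [if_neg (by simp), if_neg (by simp), if_pos (by simp)]
      rw [hu]
      refine le_trans (le_of_eq ?_) (le_dE_right _ _)
      rw [pert_up]
      push_cast; ring
  · rw [ucost_not hn]
    obtain ⟨x, y⟩ := p
    obtain ⟨x', y'⟩ := q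
    simp only at hp hq
    unfold Nb at hn
    simp only at hn
    -- coordinates of the difference
    have b1 := sum_bound (f := fun i => h i y) (fun i => hB.hh i _) hp.1
    have b2 := sum_bound (f := fun i => h i y') (fun i => hB.hh i _) hq.1
    have b3 := sum_bound (f := v x) (fun i => hB.hv _ i) hp.2
    have b4 := sum_bound (f := v x') (fun i => hB.hv _ i) hq.2
    set T : ℤ := ((N * C : ℕ) : ℤ) with hT
    have hT0 : 0 ≤ T := by positivity
    set a1 := ∑ i ∈ Finset.range x, h i y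
    set a2 := ∑ i ∈ Finset.range x', h i y'
    set a3 := ∑ i ∈ Finset.range y, v x i
    set a4 := ∑ i ∈ Finset.range y', v x' i
    have hX : (pert h v M (x, y)).1 - (pert h v M (x', y')).1
        = M * ((x : ℤ) - x') + (a1 - a2) := by
      simp only [pert, a1, a2]; ring
    have hY : (pert h v M (x, y)).2 - (pert h v M (x', y')).2
        = M * ((y : ℤ) - y') + (a3 - a4) := by
      simp only [pert, a3, a4]; ring
    have hM0 : 0 ≤ M := by linarith
    unfold dE
    rw [hX, hY]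
    apply Real.le_sqrt_of_sq_le
    rw [abs_le] at b1 b2 b3 b4
    -- integer inequality
    have key : (M + K) ^ 2 ≤ (M * ((x : ℤ) - x') + (a1 - a2)) ^ 2
        + (M * ((y : ℤ) - y') + (a3 - a4)) ^ 2 := by
      have hcase : (2 ≤ (x : ℤ) - x' ∨ (x : ℤ) - x' ≤ -2) ∨ (2 ≤ (y : ℤ) - y' ∨ (y : ℤ) - y' ≤ -2) ∨
          (((x : ℤ) - x' = 1 ∨ (x : ℤ) - x' = -1) ∧ ((y : ℤ) - y' = 1 ∨ (y : ℤ) - y' = -1)) := by
        have hne : ¬ (x = x' ∧ y = y') := by
          rintro ⟨r1, r2⟩; exact hpq (by rw [r1, r2])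
        omega
      have hKM : K ≤ M := by linarith
      have up : ∀ a t : ℤ, 0 ≤ t → (t ≤ a ∨ a ≤ -t) → t ^ 2 ≤ a ^ 2 := by
        intro a t ht h
        rcases h with h | h
        · exact pow_le_pow_left₀ ht h 2
        · have := pow_le_pow_left₀ ht (by linarith : t ≤ -a) 2
          rwa [neg_sq] at this
      have s1 : a1 - a2 ≤ 2 * T ∧ -(2 * T) ≤ a1 - a2 := ⟨by linarith, by linarith⟩
      have s2 : a3 - a4 ≤ 2 * T ∧ -(2 * T) ≤ a3 - a4 := ⟨by linarith, by linarith⟩
      rcases hcase with h1 | h1 | ⟨h1, h2⟩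
      · have : (M + K) ^ 2 ≤ (M * ((x : ℤ) - x') + (a1 - a2)) ^ 2 := by
          apply up _ _ (by linarith)
          rcases h1 with h1 | h1
          · left; nlinarith
          · right; nlinarith
        nlinarith [sq_nonneg (M * ((y : ℤ) - y') + (a3 - a4))]
      · have : (M + K) ^ 2 ≤ (M * ((y : ℤ) - y') + (a3 - a4)) ^ 2 := by
          apply up _ _ (by linarith)
          rcases h1 with h1 | h1
          · left; nlinarith
          · right; nlinarith
        nlinarith [sq_nonneg (M * ((x : ℤ) - x') + (a1 - a2))]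
      · have g1 : (M - 2 * T) ^ 2 ≤ (M * ((x : ℤ) - x') + (a1 - a2)) ^ 2 := by
          apply up _ _ (by linarith)
          rcases h1 with h1 | h1
          · left; rw [h1]; linarith
          · right; rw [h1]; linarith
        have g2 : (M - 2 * T) ^ 2 ≤ (M * ((y : ℤ) - y') + (a3 - a4)) ^ 2 := by
          apply up _ _ (by linarith)
          rcases h2 with h2 | h2
          · left; rw [h2]; linarith
          · right; rw [h2]; linarith
        have g3 : (M + K) ^ 2 ≤ 2 * (M - 2 * T) ^ 2 := by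
          have : 0 ≤ M * (M - 8 * T - 3 * K) := mul_nonneg hM0 (by linarith)
          have : 0 ≤ K * (M - K) := mul_nonneg hK (by linarith)
          nlinarith [sq_nonneg T]
        linarith
    exact_mod_cast key

/-- total cost of a tour -/
def tcost (h v : ℕ → ℕ → ℤ) (K : ℤ) {n : ℕ} (p : Fin n → ℕ × ℕ) (σ : Equiv.Perm (Fin n)) : ℤ :=
  ∑ i, ucost h v K (p (σ i)) (p (σ (finRotate n i)))

/-- the tour only uses unit edges of the lattice -/
def UnitTour {n : ℕ} (p : Fin n → ℕ × ℕ) (σ : Equiv.Perm (Fin n)) : Prop :=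
  ∀ i, Nb (p (σ i)) (p (σ (finRotate n i)))

theorem finRotate_ne {n : ℕ} (hn : 2 ≤ n) (i : Fin n) : finRotate n i ≠ i := by
  obtain ⟨k, rfl⟩ : ∃ k, n = k + 2 := ⟨n - 2, by omega⟩
  rw [finRotate_apply]
  intro h
  have : (1 : Fin (k + 2)) = 0 := by
    have h2 : i + 1 = i + 0 := by rw [h, add_zero]
    exact add_left_cancel h2
  exact absurd this (by simp)

/-- lower bound for the length of every tour -/
theorem tcost_le_tlen {h v : ℕ → ℕ → ℤ} {N C : ℕ} (hB : Box h v N C) {M K : ℤ} {n : ℕ}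
    (hn : 2 ≤ n) (p : Fin n → ℕ × ℕ) (hp : Function.Injective p)
    (hN : ∀ i, (p i).1 ≤ N ∧ (p i).2 ≤ N)
    (hK : 0 ≤ K) (hM : 3 * K + 8 * (N * C : ℕ) ≤ M) (σ : Equiv.Perm (Fin n)) :
    (n : ℝ) * M + tcost h v K p σ ≤ tlen (fun i => pert h v M (p i)) σ := by
  have h1 : ∀ i, (M : ℝ) + ucost h v K (p (σ i)) (p (σ (finRotate n i)))
      ≤ dE (pert h v M (p (σ i))) (pert h v M (p (σ (finRotate n i)))) := by
    intro i
    apply le_dE hB (hN _) (hN _) _ hK hM
    intro he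
    exact finRotate_ne hn i (σ.injective (hp he)).symm
  have h2 := Finset.sum_le_sum fun i (_ : i ∈ (Finset.univ : Finset (Fin n))) => h1 i
  rw [Finset.sum_add_distrib, Finset.sum_const, Finset.card_univ, Fintype.card_fin,
    nsmul_eq_mul] at h2
  unfold tcost tlen
  push_cast
  exact h2

/-- upper bound for the length of a tour along unit edges -/
theorem tlen_le_tcost {h v : ℕ → ℕ → ℤ} {N C : ℕ} (hB : Box h v N C) {M K : ℤ} {n : ℕ}
    (p : Fin n → ℕ × ℕ) (hN : ∀ i, (p i).1 ≤ N ∧ (p i).2 ≤ N) (hM : (C : ℤ) < M)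
    (σ : Equiv.Perm (Fin n)) (hσ : UnitTour p σ) :
    tlen (fun i => pert h v M (p i)) σ
      ≤ (n : ℝ) * M + tcost h v K p σ + n * ((2 * (N * C : ℕ)) ^ 2 / (2 * ((M : ℝ) - C))) := by
  have h1 : ∀ i, dE (pert h v M (p (σ i))) (pert h v M (p (σ (finRotate n i))))
      ≤ (M : ℝ) + ucost h v K (p (σ i)) (p (σ (finRotate n i)))
        + (2 * (N * C : ℕ)) ^ 2 / (2 * ((M : ℝ) - C)) := fun i =>
    dE_le_of_nb hB (hN _) (hN _) (hσ i) hM
  have h2 := Finset.sum_le_sum fun i (_ : i ∈ (Finset.univ : Finset (Fin n))) => h1 i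
  rw [Finset.sum_add_distrib, Finset.sum_add_distrib, Finset.sum_const, Finset.sum_const,
    Finset.card_univ, Fintype.card_fin, nsmul_eq_mul, nsmul_eq_mul] at h2
  unfold tcost tlen
  push_cast
  push_cast at h2
  exact h2

/-- the perturbed points are distinct -/
theorem pert_injective {h v : ℕ → ℕ → ℤ} {N C : ℕ} (hB : Box h v N C) {M : ℤ} {n : ℕ}
    (p : Fin n → ℕ × ℕ) (hp : Function.Injective p) (hN : ∀ i, (p i).1 ≤ N ∧ (p i).2 ≤ N)
    (hC : (C : ℤ) < M) (hM : 8 * ((N * C : ℕ) : ℤ) ≤ M) :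
    Function.Injective fun i => pert h v M (p i) := by
  intro i j hij
  by_contra hne
  have h1 := le_dE (K := 0) hB (hN i) (hN j) (fun he => hne (hp he)) le_rfl
    (by linarith : 3 * (0 : ℤ) + 8 * (N * C : ℕ) ≤ M)
  simp only at hij
  rw [hij] at h1
  have h2 : dE (pert h v M (p j)) (pert h v M (p j)) = 0 := by
    unfold dE; simp
  rw [h2] at h1
  have h3 : -(C : ℤ) ≤ ucost h v 0 (p i) (p j) := by
    have a1 := fun x y => (abs_le.mp (hB.hh x y)).1
    have a2 := fun x y => (abs_le.mp (hB.hv x y)).1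
    unfold ucost
    split_ifs
    · exact a1 _ _
    · exact a1 _ _
    · exact a2 _ _
    · exact a2 _ _
    · have : (0 : ℤ) ≤ C := by positivity
      linarith
  have h4 : (0 : ℝ) < (M : ℝ) + ucost h v 0 (p i) (p j) := by
    have : (0 : ℤ) < M + ucost h v 0 (p i) (p j) := by linarith
    exact_mod_cast this
  linarith

end Pool.Agent.Helper68.LP
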