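import Pool.Agent.Helper68.LP.Pert

set_option autoImplicit false

/-!
# Shortcutting tours and adding cities next to a given city
-/

namespace Pool.Agent.Helper68.LP

/-- length of the path from `a` through `l` to `b` -/
noncomputable def pl : ℤ × ℤ → List (ℤ × ℤ) → ℤ × ℤ → ℝ
  | a, [], b => dE a b
  | a, c :: l, b => dE a c + pl c l b

/-- length of the closed tour through the list -/
noncomputable def clen : List (ℤ × ℤ) → ℝ
  | [] => 0
  | h :: t => pl h t h

theorem dE_nonneg (p q : ℤ × ℤ) : 0 ≤ dE p q := Real.sqrt_nonneg _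

theorem dE_eq_norm (p q : ℤ × ℤ) :
    dE p q = ‖(⟨(p.1 : ℝ) - q.1, (p.2 : ℝ) - q.2⟩ : ℂ)‖ := by
  unfold dE
  rw [Complex.norm_def, Complex.normSq_apply]
  congr 1
  push_cast
  ring

theorem dE_tri (p q r : ℤ × ℤ) : dE p r ≤ dE p q + dE q r := by
  rw [dE_eq_norm, dE_eq_norm, dE_eq_norm]
  refine le_trans (le_of_eq ?_) (norm_add_le _ _)
  congr 1
  apply Complex.ext <;> simp

theorem pl_tri_left (a c b : ℤ × ℤ) (l : List (ℤ × ℤ)) : pl a l b ≤ dE a c + pl c l b := by
  cases l with
  | nil => exact dE_tri a c b
  | cons x l =>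
    simp only [pl]
    have := dE_tri a c x
    linarith

theorem pl_tri_right (a : ℤ × ℤ) (l : List (ℤ × ℤ)) (b c : ℤ × ℤ) :
    pl a l c ≤ pl a l b + dE b c := by
  induction l generalizing a with
  | nil => exact dE_tri a b c
  | cons x l ih =>
    simp only [pl]
    have := ih x
    linarith

theorem pl_sublist {l' l : List (ℤ × ℤ)} (h : l'.Sublist l) (a b : ℤ × ℤ) :
    pl a l' b ≤ pl a l b := by
  induction h generalizing a with
  | slnil => exact le_rfl
  | cons c _ ih => exact (ih a).trans (pl_tri_left a c b _)
  | cons_cons c _ ih =>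
    simp only [pl]
    have := ih c
    linarith

theorem pl_nonneg (a : ℤ × ℤ) (l : List (ℤ × ℤ)) (b : ℤ × ℤ) : 0 ≤ pl a l b := by
  induction l generalizing a with
  | nil => exact dE_nonneg a b
  | cons x l ih => exact add_nonneg (dE_nonneg a x) (ih x)

/-- a tour through fewer cities is not longer -/
theorem clen_sublist {l' l : List (ℤ × ℤ)} (h : l'.Sublist l) : clen l' ≤ clen l := by
  cases h with
  | slnil => exact le_rfl
  | @cons l' l c h =>
    cases l' with
    | nil => exact pl_nonneg _ _ _
    | cons x l' =>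
      change pl x l' x ≤ pl c l c
      have h1 := pl_sublist h c c
      simp only [pl] at h1
      have h2 := pl_tri_right x l' c x
      linarith
  | @cons_cons l' l c h => exact pl_sublist h c c

theorem pl_append (a : ℤ × ℤ) (l : List (ℤ × ℤ)) (x : ℤ × ℤ) (l' : List (ℤ × ℤ)) (b : ℤ × ℤ) :
    pl a (l ++ x :: l') b = pl a l x + pl x l' b := by
  induction l generalizing a with
  | nil => rfl
  | cons y l ih =>
    simp only [List.cons_append, pl]
    rw [ih]; ring

/-- rotation invariance -/
theorem clen_rotate_one (a : ℤ × ℤ) (l : List (ℤ × ℤ)) : clen (l ++ [a]) = clen (a :: l) := by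
  cases l with
  | nil => rfl
  | cons x l =>
    change pl x (l ++ [a]) x = pl a (x :: l) a
    rw [pl_append]
    simp only [pl]
    ring

theorem clen_rotate (l : List (ℤ × ℤ)) (k : ℕ) : clen (l.rotate k) = clen l := by
  induction k with
  | zero => rw [List.rotate_zero]
  | succ k ih =>
    rw [← List.rotate_rotate]
    cases h : l.rotate k with
    | nil => rw [h] at ih; simpa using ih
    | cons a t =>
      rw [h] at ih
      rw [List.rotate_cons_succ, List.rotate_zero, clen_rotate_one]
      exact ih

theorem pl_ofFn {n : ℕ} (f : Fin n → ℤ × ℤ) (a b : ℤ × ℤ) :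
    pl a (List.ofFn f) b = match n, f with
      | 0, _ => dE a b
      | n + 1, f => dE a (f 0) + (∑ i : Fin n, dE (f i.castSucc) (f i.succ)) + dE (f (Fin.last n)) b := by
  induction n generalizing a with
  | zero => simp [pl]
  | succ n ih =>
    rw [List.ofFn_succ]
    simp only [pl]
    rw [ih]
    cases n with
    | zero => simp
    | succ n =>
      simp only
      rw [Fin.sum_univ_succ (n := n)]
      simp only [Fin.castSucc_zero, Fin.succ_zero_eq_one, Fin.succ_last, Fin.castSucc_succ]
      simp only [Nat.succ_eq_add_one]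
      ring

/-- the length of a tour in terms of lists -/
theorem tlen_eq_clen {n : ℕ} (P : Fin n → ℤ × ℤ) (σ : Equiv.Perm (Fin n)) :
    tlen P σ = clen (List.ofFn fun i => P (σ i)) := by
  cases n with
  | zero => simp [tlen, clen]
  | succ n =>
    unfold tlen
    rw [Fin.sum_univ_castSucc, finRotate_last]
    have h1 : ∀ i : Fin n, finRotate (n + 1) i.castSucc = i.succ := by
      intro i
      rw [finRotate_apply]
      apply Fin.ext
      simp
    simp only [h1]
    rw [List.ofFn_succ]
    change _ = pl (P (σ 0)) (List.ofFn fun i : Fin n => P (σ i.succ)) (P (σ 0))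
    rw [pl_ofFn]
    cases n with
    | zero => simp
    | succ n =>
      simp only
      rw [Fin.sum_univ_succ (n := n)]
      simp only [Fin.castSucc_zero, Fin.succ_castSucc, Fin.succ_last]

/-- a complete list without repetitions is given by a permutation -/
theorem perm_of_list {N : ℕ} (T : List (Fin N)) (hT : T.Nodup) (hlen : T.length = N) :
    ∃ σ : Equiv.Perm (Fin N), List.ofFn (fun i => σ i) = T := by
  have hinj : Function.Injective fun i : Fin N => T.get (Fin.cast hlen.symm i) := by
    intro i j h
    have := List.nodup_iff_injective_get.mp hT h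
    exact Fin.cast_injective _ this
  refine ⟨Equiv.ofBijective _ (Finite.injective_iff_bijective.mp hinj), ?_⟩
  apply List.ext_get
  · simp [hlen]
  · intro n h1 h2
    simp

/-- scaling of points -/
def sc (S : ℕ) (p : ℤ × ℤ) : ℤ × ℤ := (S * p.1, S * p.2)

theorem dE_sc (S : ℕ) (p q : ℤ × ℤ) : dE (sc S p) (sc S q) = S * dE p q := by
  unfold dE sc
  have : (((S * p.1 - S * q.1 : ℤ) : ℝ) ^ 2 + ((S * p.2 - S * q.2 : ℤ) : ℝ) ^ 2)
      = (S : ℝ) ^ 2 * (((p.1 - q.1 : ℤ) : ℝ) ^ 2 + ((p.2 - q.2 : ℤ) : ℝ) ^ 2) := by
    push_cast; ring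
  simp only
  rw [this, Real.sqrt_mul (by positivity), Real.sqrt_sq (by positivity)]

theorem pl_sc (S : ℕ) (a : ℤ × ℤ) (l : List (ℤ × ℤ)) (b : ℤ × ℤ) :
    pl (sc S a) (l.map (sc S)) (sc S b) = S * pl a l b := by
  induction l generalizing a with
  | nil => exact dE_sc S a b
  | cons x l ih =>
    simp only [List.map_cons, pl]
    rw [ih, dE_sc]; ring

theorem clen_sc (S : ℕ) (l : List (ℤ × ℤ)) : clen (l.map (sc S)) = S * clen l := by
  cases l with
  | nil => simp [clen]
  | cons x l => exact pl_sc S x l x

/-- the point `j + 1` steps to the right of `c` -/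
def near (c : ℤ × ℤ) (j : ℕ) : ℤ × ℤ := (c.1 + (j + 1), c.2)

theorem pl_near (c : ℤ × ℤ) (t : ℕ) :
    pl c (List.ofFn fun j : Fin t => near c j) c = 2 * t := by
  rw [pl_ofFn]
  cases t with
  | zero => simp [dE]
  | succ t =>
    simp only
    have h1 : dE c (near c 0) = 1 := by
      unfold dE near
      simp
    have h2 : ∀ i : Fin t, dE (near c (i.castSucc : Fin (t + 1))) (near c (i.succ : Fin (t + 1)))
        = 1 := by
      intro i
      unfold dE near
      simp
    have h3 : dE (near c (Fin.last t)) c = t + 1 := by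
      unfold dE near
      simp only [Fin.val_last, sub_self, Int.cast_zero, add_sub_cancel_left]
      rw [zero_pow (by norm_num), add_zero, Real.sqrt_sq (by positivity)]
      push_cast; ring
    have h1' : dE c (near c ((0 : Fin (t + 1)) : ℕ)) = 1 := h1
    rw [h1', h3, Finset.sum_congr rfl fun i _ => h2 i]
    simp
    ring

theorem pl_append_le (c : ℤ × ℤ) (l l' : List (ℤ × ℤ)) (b : ℤ × ℤ) :
    pl c (l ++ l') b ≤ pl c l c + pl c l' b := by
  cases l' with
  | nil =>
    rw [List.append_nil]
    exact pl_tri_right c l c b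
  | cons x l' =>
    rw [pl_append]
    simp only [pl]
    have := pl_tri_right c l c x
    linarith

/-- the instance with `t` additional cities next to the city `i0`, at scale `S` -/
def padded {n : ℕ} (S t : ℕ) (i0 : Fin n) (P : Fin n → ℤ × ℤ) : Fin (n + t) → ℤ × ℤ :=
  Fin.append (fun i => sc S (P i)) fun j : Fin t => near (sc S (P i0)) j

theorem ofFn_comp {α β : Type} {n : ℕ} (f : Fin n → α) (g : α → β) :
    List.ofFn (fun i => g (f i)) = (List.ofFn f).map g := by
  rw [List.map_ofFn]; rfl

/-- inserting the additional cities -/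
theorem exists_insert {n : ℕ} (S t : ℕ) (i0 : Fin n) (σ : Equiv.Perm (Fin n)) :
    ∃ σ' : Equiv.Perm (Fin (n + t)), ∀ P : Fin n → ℤ × ℤ,
      S * tlen P σ ≤ tlen (padded S t i0 P) σ' ∧
        tlen (padded S t i0 P) σ' ≤ S * tlen P σ + 2 * t := by
  -- the list of labels, rotated such that it starts with `i0`
  set T : List (Fin n) := List.ofFn fun i => σ i with hT
  have hTn : T.Nodup := List.nodup_ofFn.mpr σ.injective
  have hi0 : i0 ∈ T := by
    rw [hT, List.mem_ofFn]
    exact ⟨σ.symm i0, by simp⟩
  obtain ⟨k, hk⟩ := List.getElem_of_mem hi0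
  obtain ⟨hkl, hk⟩ := hk
  obtain ⟨rest, hrest⟩ : ∃ rest, T.rotate k = i0 :: rest := by
    have h1 : (T.rotate k).length = T.length := List.length_rotate ..
    cases h : T.rotate k with
    | nil => rw [h] at h1; simp at h1; omega
    | cons a rest =>
      refine ⟨rest, ?_⟩
      have h2 : (T.rotate k)[0]? = some a := by rw [h]; rfl
      rw [List.getElem?_eq_getElem (by omega), List.getElem_rotate] at h2
      simp only [zero_add, Nat.mod_eq_of_lt hkl, Option.some.injEq] at h2
      rw [← h2, hk]
  set T' : List (Fin (n + t)) := Fin.castAdd t i0 ::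
    ((List.ofFn fun j : Fin t => Fin.natAdd n j) ++ rest.map (Fin.castAdd t)) with hT'
  have hrn : (i0 :: rest).Nodup := by rw [← hrest]; exact List.nodup_rotate.mpr hTn
  have hlen : T'.length = n + t := by
    have : (T.rotate k).length = n := by rw [List.length_rotate, hT, List.length_ofFn]
    rw [hrest, List.length_cons] at this
    rw [hT']
    simp only [List.length_cons, List.length_append, List.length_ofFn, List.length_map]
    omega
  have hnod : T'.Nodup := by
    rw [hT', List.nodup_cons]
    rw [List.nodup_cons] at hrn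
    constructor
    · rw [List.mem_append, not_or]
      constructor
      · rw [List.mem_ofFn]
        rintro ⟨j, hj⟩
        have := congrArg Fin.val hj
        simp at this
        omega
      · intro h
        rw [List.mem_map] at h
        obtain ⟨x, hx, hx2⟩ := h
        rw [Fin.castAdd_injective _ _ hx2] at hx
        exact hrn.1 hx
    · rw [List.nodup_append]
      refine ⟨List.nodup_ofFn.mpr (Fin.natAdd_injective _ _),
        (List.nodup_map_iff (Fin.castAdd_injective _ _)).mpr hrn.2, ?_⟩
      intro a ha b hb hab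
      rw [List.mem_ofFn] at ha
      rw [List.mem_map] at hb
      obtain ⟨j, hj⟩ := ha
      obtain ⟨x, -, hx2⟩ := hb
      rw [← hj, ← hx2] at hab
      have := congrArg Fin.val hab
      simp at this
      omega
  obtain ⟨σ', hσ'⟩ := perm_of_list T' hnod hlen
  refine ⟨σ', fun P => ?_⟩
  have e0 : List.ofFn (fun i => padded S t i0 P (σ' i)) = T'.map (padded S t i0 P) := by
    rw [ofFn_comp, hσ']
  have e00 : List.ofFn (fun i => P (σ i)) = T.map P := by
    rw [ofFn_comp]
  rw [tlen_eq_clen (padded S t i0 P) σ', e0, hT', tlen_eq_clen P σ, e00]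
  have e1 : clen (T.map P) = clen ((i0 :: rest).map P) := by
    rw [← hrest, List.map_rotate, clen_rotate]
  simp only [e1, List.map_cons, List.map_append]
  have e2 : padded S t i0 P (Fin.castAdd t i0) = sc S (P i0) := by
    unfold padded; simp
  have e3 : (List.ofFn fun j : Fin t => Fin.natAdd n j).map (padded S t i0 P)
      = List.ofFn fun j : Fin t => near (sc S (P i0)) j := by
    rw [List.map_ofFn]
    congr 1
    funext j
    unfold padded
    simp
  have e4 : (rest.map (Fin.castAdd t)).map (padded S t i0 P) = (rest.map P).map (sc S) := by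
    rw [List.map_map, List.map_map]
    congr 1
    funext j
    unfold padded
    simp
  rw [e2, e3, e4]
  constructor
  · rw [← clen_sc, List.map_cons (f := sc S)]
    exact clen_sublist ((List.sublist_append_right _ _).cons_cons _)
  · change pl (sc S (P i0)) _ (sc S (P i0)) ≤ S * pl (P i0) (rest.map P) (P i0) + 2 * t
    refine (pl_append_le _ _ _ _).trans ?_
    rw [pl_near, pl_sc]
    linarith

/-- removing the additional cities -/
theorem exists_remove {n : ℕ} (S t : ℕ) (i0 : Fin n) (P : Fin n → ℤ × ℤ)
    (σ' : Equiv.Perm (Fin (n + t))) :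
    ∃ σ : Equiv.Perm (Fin n), S * tlen P σ ≤ tlen (padded S t i0 P) σ' := by
  set T' : List (Fin (n + t)) := List.ofFn fun i => σ' i with hT'
  have hT'n : T'.Nodup := List.nodup_ofFn.mpr σ'.injective
  have hmem' : ∀ x, x ∈ T' := by
    intro x
    rw [hT', List.mem_ofFn]
    exact ⟨σ'.symm x, by simp⟩
  -- the labels below `n`
  obtain ⟨T, hT⟩ : ∃ T : List (Fin n), T.map (Fin.castAdd t) = T'.filter fun x => decide (x.1 < n) := by
    have : ∀ l : List (Fin (n + t)), ∃ T : List (Fin n),
        T.map (Fin.castAdd t) = l.filter fun x => decide (x.1 < n) := by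
      intro l
      induction l with
      | nil => exact ⟨[], rfl⟩
      | cons x l ih =>
        obtain ⟨T, hT⟩ := ih
        by_cases hx : x.1 < n
        · exact ⟨⟨x.1, hx⟩ :: T, by
            rw [List.filter_cons_of_pos (by simpa using hx), List.map_cons, hT]
            rfl⟩
        · exact ⟨T, by rw [List.filter_cons_of_neg (by simpa using hx), hT]⟩
    exact this T'
  have hTn : T.Nodup := by
    rw [← List.nodup_map_iff (Fin.castAdd_injective n t), hT]
    exact hT'n.filter _
  have hmem : ∀ x, x ∈ T := by
    intro x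
    have h1 : Fin.castAdd t x ∈ T'.filter fun x => decide (x.1 < n) := by
      rw [List.mem_filter]
      exact ⟨hmem' _, by simp⟩
    rw [← hT, List.mem_map] at h1
    obtain ⟨y, hy, hy2⟩ := h1
    rwa [Fin.castAdd_injective _ _ hy2] at hy
  have hlen : T.length = n := by
    have h1 : T.toFinset = Finset.univ := by
      ext x; simp [hmem x]
    rw [← List.toFinset_card_of_nodup hTn, h1, Finset.card_univ, Fintype.card_fin]
  obtain ⟨σ, hσ⟩ := perm_of_list T hTn hlen
  refine ⟨σ, ?_⟩
  have e0 : List.ofFn (fun i => padded S t i0 P (σ' i)) = T'.map (padded S t i0 P) := by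
    rw [ofFn_comp]
  have e00 : List.ofFn (fun i => P (σ i)) = T.map P := by
    rw [ofFn_comp, hσ]
  rw [tlen_eq_clen, e00, tlen_eq_clen, e0, ← clen_sc]
  have e : (T.map P).map (sc S) = (T'.filter fun x => decide (x.1 < n)).map (padded S t i0 P) := by
    rw [← hT, List.map_map, List.map_map]
    congr 1
    funext j
    unfold padded
    simp
  rw [e]
  exact clen_sublist (List.filter_sublist.map _)

theorem padded_injective {n : ℕ} {S t : ℕ} (hS : t < S) (i0 : Fin n) {P : Fin n → ℤ × ℤ}
    (hP : Function.Injective P) : Function.Injective (padded S t i0 P) := by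
  have hS0 : (S : ℤ) ≠ 0 := by have : 0 < S := by omega
                               exact_mod_cast this.ne'
  have hsc : Function.Injective (sc S) := by
    rintro ⟨a, b⟩ ⟨c, d⟩ h
    unfold sc at h
    simp only [Prod.mk.injEq, mul_eq_mul_left_iff, hS0, or_false] at h
    rw [h.1, h.2]
  have hne : ∀ (i : Fin n) (j : Fin t), sc S (P i) ≠ near (sc S (P i0)) j := by
    intro i j h
    unfold sc near at h
    simp only [Prod.mk.injEq] at h
    have h1 : (S : ℤ) * ((P i).1 - (P i0).1) = (j : ℤ) + 1 := by linarith [h.1]
    have h2 : (S : ℤ) ∣ (j : ℤ) + 1 := ⟨_, h1.symm⟩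
    have h3 := Int.le_of_dvd (by positivity) h2
    have := j.2
    omega
  unfold padded
  intro x y
  refine Fin.addCases (fun i => ?_) (fun j => ?_) x <;>
    refine Fin.addCases (fun i' => ?_) (fun j' => ?_) y
  · intro h
    simp only [Fin.append_left] at h
    rw [hP (hsc h)]
  · intro h
    simp only [Fin.append_left, Fin.append_right] at h
    exact (hne i j' h).elim
  · intro h
    simp only [Fin.append_left, Fin.append_right] at h
    exact (hne i' j h.symm).elim
  · intro h
    simp only [Fin.append_right] at h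
    unfold near at h
    simp only [Prod.mk.injEq, and_true] at h
    have : j = j' := by
      apply Fin.ext
      have h1 := h
      omega
    rw [this]

end Pool.Agent.Helper68.LP
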