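import Pool.Agent.Helper68.LP.Final
import Pool.Agent.Helper38.ELP.Spec

set_option autoImplicit false

/-!
# From the combinatorial theorem `specD` to the lower bound
-/

namespace Pool.Agent.Helper68.LP

open Pool.Agent.Helper38.ELP (specD ew tourW)

/-- natural number coordinates -/
def nat2 (p : ℤ × ℤ) : ℕ × ℕ := (p.1.toNat, p.2.toNat)

theorem nat2_inj {p q : ℤ × ℤ} (hp : 0 ≤ p.1 ∧ 0 ≤ p.2) (hq : 0 ≤ q.1 ∧ 0 ≤ q.2)
    (h : nat2 p = nat2 q) : p = q := by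
  unfold nat2 at h
  simp only [Prod.mk.injEq] at h
  ext <;> omega

theorem unitStep_iff {p q : ℤ × ℤ} (hp : 0 ≤ p.1 ∧ 0 ≤ p.2) (hq : 0 ≤ q.1 ∧ 0 ≤ q.2) :
    Pool.Agent.Helper38.ELP.UnitStep p q ↔ Nb (nat2 p) (nat2 q) := by
  obtain ⟨p1, p2⟩ := p
  obtain ⟨q1, q2⟩ := q
  simp only at hp hq
  unfold Pool.Agent.Helper38.ELP.UnitStep Nb nat2
  simp only
  constructor
  · intro h
    have h1 : (p1 - q1) ^ 2 ≤ 1 := by nlinarith [sq_nonneg (p2 - q2)]
    have h2 : (p2 - q2) ^ 2 ≤ 1 := by nlinarith [sq_nonneg (p1 - q1)]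
    have h3 : -1 ≤ p1 - q1 ∧ p1 - q1 ≤ 1 := by
      constructor <;> nlinarith
    have h4 : -1 ≤ p2 - q2 ∧ p2 - q2 ≤ 1 := by
      constructor <;> nlinarith
    have h5 : p1 - q1 = -1 ∨ p1 - q1 = 0 ∨ p1 - q1 = 1 := by omega
    have h6 : p2 - q2 = -1 ∨ p2 - q2 = 0 ∨ p2 - q2 = 1 := by omega
    rcases h5 with h5 | h5 | h5 <;> rcases h6 with h6 | h6 | h6 <;> rw [h5, h6] at h <;>
      first | (exfalso; norm_num at h; done) | omega
  · intro h
    have h5 : (p1 - q1 = -1 ∧ p2 - q2 = 0) ∨ (p1 - q1 = 1 ∧ p2 - q2 = 0) ∨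
        (p1 - q1 = 0 ∧ p2 - q2 = -1) ∨ (p1 - q1 = 0 ∧ p2 - q2 = 1) := by omega
    rcases h5 with ⟨a, b⟩ | ⟨a, b⟩ | ⟨a, b⟩ | ⟨a, b⟩ <;> rw [a, b] <;> norm_num

theorem ucost_ew (wH wV : ℤ → ℤ → ℤ) (K : ℤ) {p q : ℤ × ℤ} (hp : 0 ≤ p.1 ∧ 0 ≤ p.2)
    (hq : 0 ≤ q.1 ∧ 0 ≤ q.2) (hn : Nb (nat2 p) (nat2 q)) :
    ucost (fun x y => wH x y) (fun x y => wV x y) K (nat2 p) (nat2 q) = ew wH wV p q := by
  obtain ⟨p1, p2⟩ := p
  obtain ⟨q1, q2⟩ := q
  obtain ⟨a, ha⟩ := Int.eq_ofNat_of_zero_le hp.1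
  obtain ⟨b, hb⟩ := Int.eq_ofNat_of_zero_le hp.2
  obtain ⟨c, hc⟩ := Int.eq_ofNat_of_zero_le hq.1
  obtain ⟨d, hd⟩ := Int.eq_ofNat_of_zero_le hq.2
  simp only at ha hb hc hd
  subst ha; subst hb; subst hc; subst hd
  unfold nat2 at hn ⊢
  simp only [Int.toNat_natCast] at hn ⊢
  unfold ucost ew
  simp only [Prod.mk.injEq]
  have e1 : ((c : ℤ) = (a : ℤ) + 1 ∧ (d : ℤ) = (b : ℤ)) ↔ (c = a + 1 ∧ d = b) := by omega
  have e2 : ((a : ℤ) = (c : ℤ) + 1 ∧ (b : ℤ) = (d : ℤ)) ↔ (a = c + 1 ∧ d = b) := by omega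
  have e3 : ((c : ℤ) = (a : ℤ) ∧ (d : ℤ) = (b : ℤ) + 1) ↔ (c = a ∧ d = b + 1) := by omega
  have e4 : ((a : ℤ) = (c : ℤ) ∧ (b : ℤ) = (d : ℤ) + 1) ↔ (c = a ∧ b = d + 1) := by omega
  unfold Nb at hn
  simp only at hn
  by_cases h1 : c = a + 1 ∧ d = b
  · rw [if_pos h1, if_pos (e1.mpr h1)]
  · by_cases h2 : a = c + 1 ∧ d = b
    · rw [if_neg h1, if_pos h2, if_neg (fun h => h1 (e1.mp h)), if_pos (e2.mpr h2)]
    · by_cases h3 : c = a ∧ d = b + 1
      · rw [if_neg h1, if_neg h2, if_pos h3, if_neg (fun h => h1 (e1.mp h)),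
          if_neg (fun h => h2 (e2.mp h)), if_pos (e3.mpr h3)]
      · by_cases h4 : c = a ∧ b = d + 1
        · rw [if_neg h1, if_neg h2, if_neg h3, if_pos h4, if_neg (fun h => h1 (e1.mp h)),
            if_neg (fun h => h2 (e2.mp h)), if_neg (fun h => h3 (e3.mp h)), if_pos (e4.mpr h4)]
        · exfalso
          rcases hn with h | h | h | h
          · exact h1 h
          · exact h2 h
          · exact h3 h
          · exact h4 h

/-- the gadgets given by `specD` -/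
theorem exists_AG (hD : specD) (M : ℕ) (hM : 1 ≤ M) : ∃ G : AG M, G.n ≤ 400 * (M + 2) ^ 2 ∧
    G.Cb = M + 3 ∧ G.K = 2 * (G.n * (M + 3)) ∧
    (∀ i, (G.p i).1 ≤ 20 * M + 40 ∧ (G.p i).2 ≤ 20 * M + 40) := by
  obtain ⟨n, pos, wH, wV, T, hn3, hn, hinj, hpos, hw, hT, hμ⟩ := hD M hM
  choose μ hμ1 hμ2 using hμ
  have hpos' : ∀ i, 0 ≤ (pos i).1 ∧ 0 ≤ (pos i).2 := fun i => ⟨(hpos i).1, (hpos i).2.2.1⟩
  have hu : ∀ σ : Equiv.Perm (Fin n), Pool.Agent.Helper38.ELP.UnitTour pos σ ↔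
      UnitTour (fun i => nat2 (pos i)) σ := by
    intro σ
    unfold Pool.Agent.Helper38.ELP.UnitTour UnitTour
    exact forall_congr' fun i => unitStep_iff (hpos' _) (hpos' _)
  have hcost : ∀ (a : Finset (Fin M)) (K : ℤ) (σ : Equiv.Perm (Fin n)),
      UnitTour (fun i => nat2 (pos i)) σ →
      tcost (fun x y => wH a x y) (fun x y => wV a x y) K (fun i => nat2 (pos i)) σ
        = tourW (wH a) (wV a) pos σ := by
    intro a K σ hσ
    unfold tcost tourW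
    exact Finset.sum_congr rfl fun i _ => ucost_ew _ _ _ (hpos' _) (hpos' _) (hσ i)
  -- all costs are at least `-(M+3)`
  have hlow : ∀ (a : Finset (Fin M)) (K : ℕ) (p q : ℕ × ℕ),
      -((M : ℤ) + 3) ≤ ucost (fun x y => wH a x y) (fun x y => wV a x y) K p q := by
    intro a K p q
    unfold ucost
    have h1 := fun x y => (abs_le.mp (hw a x y).1).1
    have h2 := fun x y => (abs_le.mp (hw a x y).2).1
    split_ifs
    · exact h1 _ _
    · exact h1 _ _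
    · exact h2 _ _
    · exact h2 _ _
    · have : (0 : ℤ) ≤ K := by positivity
      have : (0 : ℤ) ≤ M := by positivity
      linarith
  have hup : ∀ (a : Finset (Fin M)) (p q : ℤ × ℤ), ew (wH a) (wV a) p q ≤ (M : ℤ) + 3 := by
    intro a p q
    unfold ew
    have h1 := fun x y => (abs_le.mp (hw a x y).1).2
    have h2 := fun x y => (abs_le.mp (hw a x y).2).2
    split_ifs
    · exact h1 _ _
    · exact h1 _ _
    · exact h2 _ _
    · exact h2 _ _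
    · have : (0 : ℤ) ≤ M := by positivity
      linarith
  have hμn : ∀ a, μ a ≤ n * ((M : ℤ) + 3) := by
    intro a
    refine (hμ1 a (T ∅) (hT ∅)).trans ?_
    unfold tourW
    refine (Finset.sum_le_sum fun i _ => hup a _ _).trans ?_
    simp
  let K : ℕ := 2 * (n * (M + 3))
  refine ⟨{
    n := n
    hn := hn3
    p := fun i => nat2 (pos i)
    hp := fun i j h => hinj (nat2_inj (hpos' i) (hpos' j) h)
    h := fun b x y => wH b x y
    v := fun b x y => wV b x y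
    Cb := M + 3
    hC := fun b x y => by push_cast; exact (hw b x y).1
    vC := fun b x y => by push_cast; exact (hw b x y).2
    K := K
    O := μ
    low := ?_
    tour := T
    unit := fun a => (hu _).mp (hT a)
    val := ?_ }, hn, rfl, rfl, ?_⟩
  · intro b σ
    by_cases hσ : UnitTour (fun i => nat2 (pos i)) σ
    · rw [hcost b _ σ hσ]
      exact hμ1 b σ ((hu σ).mpr hσ)
    · unfold UnitTour at hσ
      push Not at hσ
      obtain ⟨i0, hi0⟩ := hσ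
      unfold tcost
      rw [← Finset.add_sum_erase _ _ (Finset.mem_univ i0), ucost_not hi0]
      have h1 : ∑ _i ∈ Finset.univ.erase i0, -((M : ℤ) + 3)
          ≤ ∑ i ∈ Finset.univ.erase i0, ucost (fun x y => wH b x y) (fun x y => wV b x y) K
            (nat2 (pos (σ i))) (nat2 (pos (σ (finRotate n i)))) :=
        Finset.sum_le_sum fun i _ => hlow b K _ _
      rw [Finset.sum_const, Finset.card_erase_of_mem (Finset.mem_univ _), Finset.card_univ,
        Fintype.card_fin, nsmul_eq_mul] at h1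
      have h2 : ((n - 1 : ℕ) : ℤ) ≤ n := by exact_mod_cast Nat.sub_le n 1
      have h3 : ((n - 1 : ℕ) : ℤ) * ((M : ℤ) + 3) ≤ n * ((M : ℤ) + 3) :=
        mul_le_mul_of_nonneg_right h2 (by positivity)
      have h4 := hμn b
      have hK : ((K : ℕ) : ℤ) = 2 * (n * ((M : ℤ) + 3)) := by
        simp only [K]; push_cast; ring
      rw [hK] at h1 ⊢
      linarith
  · intro a b
    rw [hcost b _ _ ((hu _).mp (hT a)), hμ2 b a, Finset.inter_comm b a]
    ring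
  · intro i
    obtain ⟨h1, h2, h3, h4⟩ := hpos i
    unfold nat2
    simp only
    constructor <;> omega

/-- The lower bound with the exponent `1/2`, from the combinatorial theorem. -/
theorem lp_half (hD : specD) : ∃ (c : ℝ) (C : ℕ), 0 < c ∧ ∀ (n r R : ℕ) (δ : ℝ), 0 ≤ δ →
    (C : ℝ) * ((n + δ) * (n : ℝ) ^ 4) ≤ R → Nonempty (ALP n r R δ) →
    (2 : ℝ) ^ (c * √(n : ℝ)) ≤ r + 2 := by
  choose G hn hCb hK hbox using fun l : ℕ => exists_AG hD (2 * l + 1) (by omega)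
  -- everything is bounded by powers of `y = 2 l + 2`
  have y1 : ∀ l : ℕ, 1 ≤ 2 * l + 2 := fun l => by omega
  have b2 : ∀ l : ℕ, 2 * l + 1 + 2 ≤ 2 * (2 * l + 2) := fun l => by omega
  have b3 : ∀ l : ℕ, 2 * l + 1 + 3 ≤ 2 * (2 * l + 2) := fun l => by omega
  have hn' : ∀ l, (G l).n ≤ 1600 * (2 * l + 2) ^ 2 := by
    intro l
    calc (G l).n ≤ 400 * (2 * l + 1 + 2) ^ 2 := hn l
      _ ≤ 400 * (2 * (2 * l + 2)) ^ 2 :=
          Nat.mul_le_mul_left _ (Nat.pow_le_pow_left (b2 l) 2)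
      _ = 1600 * (2 * l + 2) ^ 2 := by ring
  have h := of_family (10 ^ 12) 2 7 4 (by norm_num) (by norm_num) (by norm_num) G
    (fun l => 40 * (2 * l + 2)) (fun l => 10 ^ 10 * (2 * l + 2) ^ 6)
    (fun l => ⟨fun i => ⟨?_, ?_⟩, ?_⟩)
    (fun l => (hn' l).trans (Nat.mul_le_mul_right _ (by norm_num)))
    (fun l => ?_)
  · obtain ⟨c, C, hc, h⟩ := h
    refine ⟨c, C, hc, fun n r R δ hδ hR hF => ?_⟩
    rw [Real.sqrt_eq_rpow]
    exact_mod_cast h n r R δ hδ hR hF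
  · have := (hbox l i).1
    omega
  · have := (hbox l i).2
    omega
  · rw [hK l, hCb l]
    have hc := b3 l
    have hnl := hn' l
    set y := 2 * l + 2 with hy
    set c := 2 * l + 1 + 3 with hcdef
    have hy1 : 1 ≤ y := y1 l
    have p3 : y ^ 3 ≤ y ^ 6 := Nat.pow_le_pow_right hy1 (by norm_num)
    have p2 : y ^ 2 ≤ y ^ 6 := Nat.pow_le_pow_right hy1 (by norm_num)
    have p1 : y ≤ y ^ 6 := by
      calc y = y ^ 1 := (pow_one y).symm
        _ ≤ y ^ 6 := Nat.pow_le_pow_right hy1 (by norm_num)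
    have p0 : 1 ≤ y ^ 6 := Nat.one_le_pow _ _ hy1
    have h1 : (G l).n * c ≤ 3200 * y ^ 3 := by
      calc (G l).n * c ≤ (1600 * y ^ 2) * (2 * y) := Nat.mul_le_mul hnl hc
        _ = 3200 * y ^ 3 := by ring
    have h2 : 40 * y * c ≤ 80 * y ^ 2 := by
      calc 40 * y * c ≤ 40 * y * (2 * y) := Nat.mul_le_mul_left _ hc
        _ = 80 * y ^ 2 := by ring
    have h3 : (G l).n * (40 * y * c) ^ 2 ≤ 1600 * 80 ^ 2 * y ^ 6 := by
      calc (G l).n * (40 * y * c) ^ 2 ≤ (1600 * y ^ 2) * (80 * y ^ 2) ^ 2 :=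
            Nat.mul_le_mul hnl (Nat.pow_le_pow_left h2 2)
        _ = 1600 * 80 ^ 2 * y ^ 6 := by ring
    norm_num at h3 ⊢
    omega
  · have e : 2 * (10 ^ 10 * (2 * l + 2) ^ 6 * (40 * (2 * l + 2)))
        = 8 * 10 ^ 11 * (2 * l + 2) ^ 7 := by ring
    rw [e]
    exact Nat.mul_le_mul_right _ (by norm_num)

end Pool.Agent.Helper68.LP
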