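import Mathlib

set_option autoImplicit false

/-!
# A corruption bound for unique disjointness (after Razborov)

`ι` has `2 l + 1` elements.  For functions `u, v` on subsets with values in `[0, 1]` the average of
`u a * v b` over disjoint pairs is at most eight times the average over pairs with exactly one
common element plus an exponentially small term.
-/

namespace Pool.Agent.Helper68.LP.Corr

open Finset

variable {ι : Type} [DecidableEq ι]

/-- sum over the subsets of `s` -/
def S0 (u : Finset ι → ℝ) (s : Finset ι) : ℝ := ∑ a ∈ s.powerset, u a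

/-- sum over the subsets of `s`, with `i` inserted -/
def S1 (u : Finset ι → ℝ) (s : Finset ι) (i : ι) : ℝ := ∑ a ∈ s.powerset, u (insert i a)

theorem S0_nonneg {u : Finset ι → ℝ} (hu : ∀ a, 0 ≤ u a) (s : Finset ι) : 0 ≤ S0 u s :=
  sum_nonneg fun a _ => hu a

theorem S1_nonneg {u : Finset ι → ℝ} (hu : ∀ a, 0 ≤ u a) (s : Finset ι) (i : ι) : 0 ≤ S1 u s i :=
  sum_nonneg fun a _ => hu _

theorem S0_erase {u : Finset ι → ℝ} {U : Finset ι} {i : ι} (hi : i ∈ U) :
    S0 u U = S0 u (U.erase i) + S1 u (U.erase i) i := by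
  unfold S0 S1
  conv_lhs => rw [← insert_erase hi]
  rw [sum_powerset_insert (notMem_erase i U)]

theorem S0_le {u : Finset ι → ℝ} (hu1 : ∀ a, u a ≤ 1) (s : Finset ι) :
    S0 u s ≤ 2 ^ s.card := by
  unfold S0
  calc ∑ a ∈ s.powerset, u a ≤ ∑ _a ∈ s.powerset, (1 : ℝ) := sum_le_sum fun a _ => hu1 a
    _ = 2 ^ s.card := by rw [sum_const, card_powerset]; simp

/-- exchange of summation: each element of `U` either belongs to `a` or not -/
theorem sum_exchange (u : Finset ι → ℝ) (U : Finset ι) (x y : ι → ℝ) :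
    ∑ a ∈ U.powerset, u a * (∑ i ∈ a, x i + ∑ i ∈ U \ a, y i)
      = ∑ i ∈ U, (S1 u (U.erase i) i * x i + S0 u (U.erase i) * y i) := by
  have h1 : ∀ i ∈ U, S1 u (U.erase i) i = ∑ a ∈ U.powerset, if i ∈ a then u a else 0 := by
    intro i hi
    have : ∑ a ∈ U.powerset, (if i ∈ a then u a else 0)
        = S0 (fun a => if i ∈ a then u a else 0) U := rfl
    rw [this, S0_erase hi]
    unfold S0 S1
    have e1 : ∑ a ∈ (U.erase i).powerset, (if i ∈ a then u a else 0) = 0 := by
      apply sum_eq_zero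
      intro a ha
      rw [if_neg]
      intro hia
      exact notMem_erase i U (mem_powerset.mp ha hia)
    rw [e1, zero_add]
    refine sum_congr rfl fun a _ => ?_
    beta_reduce
    rw [if_pos (mem_insert_self i a)]
  have h0 : ∀ i ∈ U, S0 u (U.erase i) = ∑ a ∈ U.powerset, if i ∈ a then 0 else u a := by
    intro i hi
    have : ∑ a ∈ U.powerset, (if i ∈ a then 0 else u a)
        = S0 (fun a => if i ∈ a then 0 else u a) U := rfl
    rw [this, S0_erase hi]
    unfold S0 S1
    have e1 : ∑ a ∈ (U.erase i).powerset, (if i ∈ insert i a then 0 else u (insert i a)) = 0 := by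
      apply sum_eq_zero
      intro a _
      rw [if_pos (mem_insert_self i a)]
    rw [e1, add_zero]
    refine sum_congr rfl fun a ha => ?_
    beta_reduce
    rw [if_neg]
    intro hia
    exact notMem_erase i U (mem_powerset.mp ha hia)
  have h2 : ∑ i ∈ U, (S1 u (U.erase i) i * x i + S0 u (U.erase i) * y i)
      = ∑ i ∈ U, ∑ a ∈ U.powerset, u a * (if i ∈ a then x i else y i) := by
    refine sum_congr rfl fun i hi => ?_
    rw [h1 i hi, h0 i hi, sum_mul, sum_mul, ← sum_add_distrib]
    refine sum_congr rfl fun a _ => ?_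
    split_ifs <;> ring
  rw [h2, sum_comm]
  refine sum_congr rfl fun a ha => ?_
  rw [← mul_sum]
  congr 1
  have hsub : a ⊆ U := mem_powerset.mp ha
  rw [← sum_sdiff hsub, add_comm]
  congr 1
  · refine sum_congr rfl fun i hi => ?_
    rw [if_neg (mem_sdiff.mp hi).2]
  · refine sum_congr rfl fun i hi => ?_
    rw [if_pos hi]

/-- If the density of `i` in `u` is at most one third for `i ∈ S` and at least two thirds for
`i ∈ S'`, then the total mass of `u` is exponentially small. -/
theorem mass_le {u : Finset ι → ℝ} (hu : ∀ a, 0 ≤ u a) (hu1 : ∀ a, u a ≤ 1) {U S S' : Finset ι}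
    (hS : S ⊆ U) (hS' : S' ⊆ U) (hd : Disjoint S S')
    (h1 : ∀ i ∈ S, 3 * S1 u (U.erase i) i ≤ S0 u U)
    (h2 : ∀ i ∈ S', 3 * S0 u (U.erase i) ≤ S0 u U) :
    S0 u U ^ 3 ≤ 8 ^ U.card * (27 / 32 : ℝ) ^ (S.card + S'.card) := by
  rcases (S0_nonneg hu U).eq_or_lt with h0 | hpos
  · rw [← h0, zero_pow (by norm_num)]; positivity
  set α := S0 u U with hα
  set k := S.card + S'.card with hk
  set f : ι → ℝ := fun i => if i ∈ S then 1 / 2 else 1 with hf
  set g : ι → ℝ := fun i => if i ∈ S' then 1 / 2 else 1 with hg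
  set x : ι → ℝ := fun i => if i ∈ S then -Real.log 2 else 0 with hx
  set y : ι → ℝ := fun i => if i ∈ S' then -Real.log 2 else 0 with hy
  have hfx : ∀ i, f i = Real.exp (x i) := by
    intro i
    simp only [hf, hx]
    split_ifs
    · rw [Real.exp_neg, Real.exp_log (by norm_num)]; norm_num
    · simp
  have hgy : ∀ i, g i = Real.exp (y i) := by
    intro i
    simp only [hg, hy]
    split_ifs
    · rw [Real.exp_neg, Real.exp_log (by norm_num)]; norm_num
    · simp
  set z : Finset ι → ℝ := fun a => ∑ i ∈ a, x i + ∑ i ∈ U \ a, y i with hz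
  have hzexp : ∀ a, Real.exp (z a) = (∏ i ∈ a, f i) * ∏ i ∈ U \ a, g i := by
    intro a
    simp only [hz, Real.exp_add, Real.exp_sum, hfx, hgy]
  have hprod : ∑ a ∈ U.powerset, Real.exp (z a) = 2 ^ U.card * (3 / 4 : ℝ) ^ k := by
    simp only [hzexp]
    rw [← prod_add]
    have : ∀ i ∈ U, f i + g i = 2 * ((if i ∈ S then (3 / 4 : ℝ) else 1) *
        (if i ∈ S' then (3 / 4 : ℝ) else 1)) := by
      intro i _
      simp only [hf, hg]
      by_cases a1 : i ∈ S
      · have a2 : i ∉ S' := fun a2 => (disjoint_left.mp hd a1 a2).elim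
        simp only [a1, a2, if_true, if_false]; norm_num
      · by_cases a2 : i ∈ S'
        · simp only [a1, a2, if_true, if_false]; norm_num
        · simp only [a1, a2, if_false]; norm_num
    rw [prod_congr rfl this, prod_mul_distrib, prod_mul_distrib, prod_const]
    have e1 : ∏ i ∈ U, (if i ∈ S then (3 / 4 : ℝ) else 1) = (3 / 4 : ℝ) ^ S.card := by
      rw [prod_ite_mem, inter_eq_right.mpr hS, prod_const]
    have e2 : ∏ i ∈ U, (if i ∈ S' then (3 / 4 : ℝ) else 1) = (3 / 4 : ℝ) ^ S'.card := by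
      rw [prod_ite_mem, inter_eq_right.mpr hS', prod_const]
    rw [e1, e2, ← pow_add]
  -- the mean of `z`
  have hmean : -(Real.log 2 * (k / 3)) * α ≤ ∑ a ∈ U.powerset, u a * z a := by
    rw [sum_exchange u U x y]
    have hlog : 0 < Real.log 2 := Real.log_pos (by norm_num)
    have t1 : ∑ i ∈ U, S1 u (U.erase i) i * x i = ∑ i ∈ S, S1 u (U.erase i) i * -Real.log 2 := by
      simp only [hx, mul_ite, mul_zero]
      rw [sum_ite_mem, inter_eq_right.mpr hS]
    have t2 : ∑ i ∈ U, S0 u (U.erase i) * y i = ∑ i ∈ S', S0 u (U.erase i) * -Real.log 2 := by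
      simp only [hy, mul_ite, mul_zero]
      rw [sum_ite_mem, inter_eq_right.mpr hS']
    rw [sum_add_distrib, t1, t2]
    have s1 : ∑ _i ∈ S, (-(Real.log 2 * (1 / 3)) * α) ≤ ∑ i ∈ S, S1 u (U.erase i) i * -Real.log 2 :=
      sum_le_sum fun i hi => by nlinarith [h1 i hi]
    have s2 : ∑ _i ∈ S', (-(Real.log 2 * (1 / 3)) * α) ≤ ∑ i ∈ S', S0 u (U.erase i) * -Real.log 2 :=
      sum_le_sum fun i hi => by nlinarith [h2 i hi]
    rw [sum_const, nsmul_eq_mul] at s1 s2
    have : -(Real.log 2 * ((k : ℝ) / 3)) * α = (S.card : ℝ) * (-(Real.log 2 * (1 / 3)) * α)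
        + (S'.card : ℝ) * (-(Real.log 2 * (1 / 3)) * α) := by
      rw [hk]; push_cast; ring
    linarith
  set c : ℝ := -(Real.log 2 * (k / 3)) with hc
  have hexp : α ≤ ∑ a ∈ U.powerset, u a * Real.exp (z a - c) := by
    have h3 : ∀ a ∈ U.powerset, u a * (1 + (z a - c)) ≤ u a * Real.exp (z a - c) := by
      intro a _
      apply mul_le_mul_of_nonneg_left _ (hu a)
      have := Real.add_one_le_exp (z a - c)
      linarith
    have h4 := sum_le_sum h3
    have h5 : ∑ a ∈ U.powerset, u a * (1 + (z a - c))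
        = (1 - c) * α + ∑ a ∈ U.powerset, u a * z a := by
      rw [hα]; unfold S0
      rw [mul_sum, ← sum_add_distrib]
      exact sum_congr rfl fun a _ => by ring
    rw [h5] at h4
    linarith
  have hexp2 : ∑ a ∈ U.powerset, u a * Real.exp (z a - c)
      ≤ Real.exp (-c) * (2 ^ U.card * (3 / 4 : ℝ) ^ k) := by
    rw [← hprod, mul_sum]
    refine sum_le_sum fun a _ => ?_
    rw [sub_eq_add_neg, Real.exp_add, mul_comm (Real.exp (z a))]
    have := mul_le_mul_of_nonneg_right (hu1 a)
      (mul_pos (Real.exp_pos (-c)) (Real.exp_pos (z a))).le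
    linarith
  have hfin := hexp.trans hexp2
  have hcube := pow_le_pow_left₀ hpos.le hfin 3
  refine hcube.trans (le_of_eq ?_)
  have e3 : Real.exp (-c) ^ 3 = 2 ^ k := by
    rw [← Real.exp_nat_mul, hc]
    have : ((3 : ℕ) : ℝ) * -(-(Real.log 2 * (k / 3))) = Real.log 2 * k := by push_cast; ring
    rw [this, mul_comm, Real.exp_nat_mul, Real.exp_log (by norm_num)]
  rw [mul_pow, e3, mul_pow, ← pow_mul, ← pow_mul, mul_comm U.card 3, mul_comm k 3, pow_mul,
    pow_mul]
  rw [show (2 : ℝ) ^ 3 = 8 by norm_num, show (3 / 4 : ℝ) ^ 3 = 27 / 64 by norm_num]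
  rw [show (27 / 32 : ℝ) = 2 * (27 / 64) by norm_num, mul_pow]
  ring

/-- the small factor -/
noncomputable def eta (l : ℕ) : ℝ := (27 / 32 : ℝ) ^ (((l : ℝ) + 1) / 39)

theorem eta_pos (l : ℕ) : 0 < eta l := Real.rpow_pos_of_pos (by norm_num) _

/-- one set `U` -/
theorem claimU {u : Finset ι → ℝ} (hu : ∀ a, 0 ≤ u a) (hu1 : ∀ a, u a ≤ 1) {U : Finset ι} {l : ℕ}
    (hU : U.card = l + 1) :
    ∑ i ∈ U with 2 * S1 u (U.erase i) i < S0 u (U.erase i), S0 u (U.erase i)
      ≤ 1 / 4 * ∑ i ∈ U, S0 u (U.erase i) + (l + 1) * (2 ^ (l + 1) * eta l) := by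
  set α := S0 u U with hα
  have hα0 : 0 ≤ α := S0_nonneg hu U
  have hsplit : ∀ i ∈ U, α = S0 u (U.erase i) + S1 u (U.erase i) i := fun i hi => S0_erase hi
  set S := U.filter fun i => 3 * S1 u (U.erase i) i < α with hS
  set S' := U.filter fun i => 3 * S0 u (U.erase i) < α with hS'
  have hbad : (U.filter fun i => 2 * S1 u (U.erase i) i < S0 u (U.erase i)) = S := by
    rw [hS]
    apply filter_congr
    intro i hi
    have := hsplit i hi
    constructor <;> intro h <;> linarith
  rw [hbad]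
  have hle : ∀ i ∈ U, S0 u (U.erase i) ≤ α := by
    intro i hi
    have := hsplit i hi
    have := S1_nonneg hu (U.erase i) i
    linarith
  have hbadsum : ∑ i ∈ S, S0 u (U.erase i) ≤ S.card * α := by
    calc ∑ i ∈ S, S0 u (U.erase i) ≤ ∑ _i ∈ S, α :=
          sum_le_sum fun i hi => hle i (mem_filter.mp hi).1
      _ = S.card * α := by rw [sum_const, nsmul_eq_mul]
  set k := S.card + S'.card with hk
  have hdis : α ≠ 0 → Disjoint S S' := by
    intro hne
    rw [disjoint_left]
    intro i h1 h2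
    have g0 := hsplit i (mem_filter.mp h1).1
    have g1 := (mem_filter.mp h1).2
    have g2 := (mem_filter.mp h2).2
    have : 0 < α := lt_of_le_of_ne hα0 (Ne.symm hne)
    linarith
  have hpos2 : (0 : ℝ) ≤ (l + 1) * (2 ^ (l + 1) * eta l) := by
    have := eta_pos l
    positivity
  have hsum0 : 0 ≤ ∑ i ∈ U, S0 u (U.erase i) := sum_nonneg fun i _ => S0_nonneg hu _
  by_cases hne : α = 0
  · rw [hne, mul_zero] at hbadsum
    linarith
  have hd := hdis hne
  by_cases hk13 : 13 * k < l + 1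
  · -- balanced case
    have hSU : S ∪ S' ⊆ U := union_subset (filter_subset _ _) (filter_subset _ _)
    have hcard : ((U \ (S ∪ S')).card : ℝ) = (l + 1 : ℝ) - k := by
      rw [card_sdiff_of_subset hSU, card_union_of_disjoint hd, hU, ← hk, Nat.cast_sub (by omega)]
      push_cast; ring
    have h1 : ((U \ (S ∪ S')).card : ℝ) * (α / 3) ≤ ∑ i ∈ U, S0 u (U.erase i) := by
      calc ((U \ (S ∪ S')).card : ℝ) * (α / 3) = ∑ _i ∈ U \ (S ∪ S'), α / 3 := by
            rw [sum_const, nsmul_eq_mul]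
        _ ≤ ∑ i ∈ U \ (S ∪ S'), S0 u (U.erase i) := by
            refine sum_le_sum fun i hi => ?_
            have hiU := (mem_sdiff.mp hi).1
            have hi' := (mem_sdiff.mp hi).2
            have : ¬ 3 * S0 u (U.erase i) < α := fun h =>
              hi' (mem_union_right _ (mem_filter.mpr ⟨hiU, h⟩))
            linarith
        _ ≤ ∑ i ∈ U, S0 u (U.erase i) :=
            sum_le_sum_of_subset_of_nonneg sdiff_subset fun i _ _ => S0_nonneg hu _
    rw [hcard] at h1
    have h2 : (S.card : ℝ) ≤ k := by rw [hk]; push_cast; linarith [Nat.cast_nonneg (α := ℝ) S'.card]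
    have h3 : (13 : ℝ) * k < l + 1 := by exact_mod_cast hk13
    have h4 : (S.card : ℝ) * α ≤ k * α := mul_le_mul_of_nonneg_right h2 hα0
    have h5 : (k : ℝ) * α ≤ 1 / 4 * (((l : ℝ) + 1 - k) * (α / 3)) := by
      nlinarith
    linarith
  · -- unbalanced case: tiny mass
    push Not at hk13
    have hm := mass_le hu hu1 (filter_subset _ U : S ⊆ U) (filter_subset _ U : S' ⊆ U) hd
      (fun i hi => (mem_filter.mp hi).2.le) (fun i hi => (mem_filter.mp hi).2.le)
    rw [← hk, hU] at hm
    have heta : (27 / 32 : ℝ) ^ k ≤ eta l ^ 3 := by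
      unfold eta
      rw [← Real.rpow_natCast, ← Real.rpow_natCast, ← Real.rpow_mul (by norm_num)]
      apply Real.rpow_le_rpow_of_exponent_ge (by norm_num) (by norm_num)
      have : ((l : ℝ) + 1) ≤ 13 * k := by exact_mod_cast hk13
      push_cast
      linarith
    have h1 : α ^ 3 ≤ (2 ^ (l + 1) * eta l) ^ 3 := by
      rw [mul_pow, ← pow_mul, mul_comm (l + 1) 3, pow_mul]
      refine hm.trans ?_
      rw [show (2 : ℝ) ^ 3 = 8 by norm_num]
      exact mul_le_mul_of_nonneg_left heta (by positivity)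
    have h2 : α ≤ 2 ^ (l + 1) * eta l := by
      have := eta_pos l
      exact le_of_pow_le_pow_left₀ (by norm_num) (by positivity) h1
    have h3 : (S.card : ℝ) ≤ l + 1 := by
      have : S.card ≤ U.card := card_le_card (filter_subset _ _)
      rw [hU] at this
      exact_mod_cast this
    have h4 : (S.card : ℝ) * α ≤ (l + 1) * (2 ^ (l + 1) * eta l) :=
      mul_le_mul h3 h2 hα0 (by positivity)
    linarith

variable [Fintype ι]

/-- the index set of all pairs `(U, i)` with `i ∈ U` and `|U| = l + 1` -/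
def I (ι : Type) [DecidableEq ι] [Fintype ι] (l : ℕ) : Finset (Finset ι × ι) :=
  univ.filter fun x => x.1.card = l + 1 ∧ x.2 ∈ x.1

/-- the involution `(U, i) ↦ (insert i Uᶜ, i)` -/
def inv (x : Finset ι × ι) : Finset ι × ι := (insert x.2 x.1ᶜ, x.2)

theorem inv_mem {l : ℕ} (hι : Fintype.card ι = 2 * l + 1) {x : Finset ι × ι} (hx : x ∈ I ι l) :
    inv x ∈ I ι l := by
  unfold I at *
  rw [mem_filter] at *
  refine ⟨mem_univ _, ?_, mem_insert_self _ _⟩
  unfold inv
  rw [card_insert_of_notMem (by simpa using hx.2.2), card_compl, hι, hx.2.1]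
  omega

theorem inv_inv {l : ℕ} {x : Finset ι × ι} (hx : x ∈ I ι l) : inv (inv x) = x := by
  unfold I at hx
  rw [mem_filter] at hx
  unfold inv
  refine Prod.ext ?_ rfl
  ext j
  simp only [mem_insert, mem_compl, not_or, not_not]
  constructor
  · rintro (rfl | ⟨_, h⟩)
    · exact hx.2.2
    · exact h
  · intro h
    by_cases hj : j = x.2
    · exact Or.inl hj
    · exact Or.inr ⟨hj, h⟩

theorem inv_erase {l : ℕ} {x : Finset ι × ι} (hx : x ∈ I ι l) :
    (inv x).1.erase (inv x).2 = x.1ᶜ := by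
  unfold I at hx
  rw [mem_filter] at hx
  unfold inv
  exact erase_insert (by simpa using hx.2.2)

theorem inv_compl {l : ℕ} {x : Finset ι × ι} (hx : x ∈ I ι l) : (inv x).1ᶜ = x.1.erase x.2 := by
  unfold inv
  ext j
  simp [mem_erase]

theorem sum_inv {l : ℕ} (hι : Fintype.card ι = 2 * l + 1) (F : Finset ι × ι → ℝ) :
    ∑ x ∈ I ι l, F (inv x) = ∑ x ∈ I ι l, F x :=
  sum_nbij' inv inv (fun _ hx => inv_mem hι hx) (fun _ hx => inv_mem hι hx)
    (fun _ hx => inv_inv hx) (fun _ hx => inv_inv hx) fun _ _ => rfl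

/-- mass on disjoint pairs -/
def T (u v : Finset ι → ℝ) (x : Finset ι × ι) : ℝ := S0 u (x.1.erase x.2) * S0 v x.1ᶜ

/-- mass on pairs that meet in one element -/
def Y (u v : Finset ι → ℝ) (x : Finset ι × ι) : ℝ := S1 u (x.1.erase x.2) x.2 * S1 v x.1ᶜ x.2

/-- bad pairs -/
def Bad (u : Finset ι → ℝ) (x : Finset ι × ι) : Prop :=
  2 * S1 u (x.1.erase x.2) x.2 < S0 u (x.1.erase x.2)

theorem sum_I (l : ℕ) (F : Finset ι × ι → ℝ) :
    ∑ x ∈ I ι l, F x = ∑ U ∈ powersetCard (l + 1) univ, ∑ i ∈ U, F (U, i) := by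
  rw [sum_sigma']
  refine sum_bij' (fun x _ => ⟨x.1, x.2⟩) (fun x _ => (x.1, x.2)) ?_ ?_ ?_ ?_ ?_
  · intro x hx
    unfold I at hx
    rw [mem_filter] at hx
    simp only [mem_sigma, mem_powersetCard]
    exact ⟨⟨subset_univ _, hx.2.1⟩, hx.2.2⟩
  · intro x hx
    simp only [mem_sigma, mem_powersetCard] at hx
    unfold I
    rw [mem_filter]
    exact ⟨mem_univ _, hx.1.2, hx.2⟩
  · intro x _; rfl
  · intro x _; rfl
  · intro x _; rfl

open Classical in
theorem claimA {u v : Finset ι → ℝ} (hu : ∀ a, 0 ≤ u a) (hu1 : ∀ a, u a ≤ 1)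
    (hv : ∀ a, 0 ≤ v a) (hv1 : ∀ a, v a ≤ 1) {l : ℕ} (hι : Fintype.card ι = 2 * l + 1) :
    ∑ x ∈ I ι l, (if Bad u x then T u v x else 0)
      ≤ 1 / 4 * ∑ x ∈ I ι l, T u v x + (I ι l).card * (2 * 4 ^ l * eta l) := by
  have hcardI : ((I ι l).card : ℝ) = ∑ U ∈ powersetCard (l + 1) (univ : Finset ι), ((l : ℝ) + 1) := by
    have := sum_I (ι := ι) l fun _ => (1 : ℝ)
    simp only [sum_const, nsmul_eq_mul, mul_one] at this
    rw [this, sum_const, nsmul_eq_mul]
    have h2 : ∀ U ∈ powersetCard (l + 1) (univ : Finset ι), ((U.card : ℕ) : ℝ) = (l : ℝ) + 1 := by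
      intro U hU
      rw [(mem_powersetCard.mp hU).2]; push_cast; rfl
    rw [sum_congr rfl h2, sum_const, nsmul_eq_mul]
  rw [sum_I, sum_I, hcardI, mul_sum, sum_mul, ← sum_add_distrib]
  refine sum_le_sum fun U hU => ?_
  have hUc := (mem_powersetCard.mp hU).2
  have h1 := claimU hu hu1 hUc
  have hv0 : 0 ≤ S0 v Uᶜ := S0_nonneg hv _
  have hv2 : S0 v Uᶜ ≤ 2 ^ l := by
    have := S0_le hv1 Uᶜ
    rwa [card_compl, hι, hUc, show 2 * l + 1 - (l + 1) = l by omega] at this
  have e1 : ∑ i ∈ U, (if Bad u (U, i) then T u v (U, i) else 0)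
      = (∑ i ∈ U with 2 * S1 u (U.erase i) i < S0 u (U.erase i), S0 u (U.erase i)) * S0 v Uᶜ := by
    rw [sum_mul, sum_filter]
    refine sum_congr rfl fun i _ => ?_
    unfold Bad T
    split_ifs <;> rfl
  have e2 : ∑ i ∈ U, T u v (U, i) = (∑ i ∈ U, S0 u (U.erase i)) * S0 v Uᶜ := by
    rw [sum_mul]; rfl
  rw [e1, e2]
  have h2 := mul_le_mul_of_nonneg_right h1 hv0
  have h3 : ((l : ℝ) + 1) * (2 ^ (l + 1) * eta l) * S0 v Uᶜ ≤ (l + 1) * (2 * 4 ^ l * eta l) := by
    have := eta_pos l
    calc ((l : ℝ) + 1) * (2 ^ (l + 1) * eta l) * S0 v Uᶜ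
        ≤ ((l : ℝ) + 1) * (2 ^ (l + 1) * eta l) * 2 ^ l :=
          mul_le_mul_of_nonneg_left hv2 (by positivity)
      _ = (l + 1) * (2 * 4 ^ l * eta l) := by
          rw [show (4 : ℝ) = 2 * 2 by norm_num, mul_pow]; ring
  linarith

/-- the corruption bound for functions with values in the unit interval -/
theorem corruption {u v : Finset ι → ℝ} (hu : ∀ a, 0 ≤ u a) (hu1 : ∀ a, u a ≤ 1)
    (hv : ∀ a, 0 ≤ v a) (hv1 : ∀ a, v a ≤ 1) {l : ℕ} (hι : Fintype.card ι = 2 * l + 1) :
    ∑ x ∈ I ι l, T u v x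
      ≤ 8 * ∑ x ∈ I ι l, Y u v x + 8 * ((I ι l).card * 4 ^ l * eta l) := by
  classical
  have hA := claimA hu hu1 hv hv1 hι
  have hB0 := claimA hv hv1 hu hu1 hι
  have hsym : ∀ x ∈ I ι l, T v u (inv x) = T u v x := by
    intro x hx
    unfold T
    rw [inv_erase hx, inv_compl hx, mul_comm]
  have hB : ∑ x ∈ I ι l, (if Bad v (inv x) then T u v x else 0)
      ≤ 1 / 4 * ∑ x ∈ I ι l, T u v x + (I ι l).card * (2 * 4 ^ l * eta l) := by
    have e1 : ∑ x ∈ I ι l, (if Bad v (inv x) then T u v x else 0)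
        = ∑ x ∈ I ι l, (if Bad v x then T v u x else 0) := by
      rw [← sum_inv hι fun x => if Bad v x then T v u x else 0]
      refine sum_congr rfl fun x hx => ?_
      rw [hsym x hx]
    have e2 : ∑ x ∈ I ι l, T u v x = ∑ x ∈ I ι l, T v u x := by
      rw [← sum_inv hι fun x => T v u x]
      exact sum_congr rfl fun x hx => (hsym x hx).symm
    rw [e1, e2]
    exact hB0
  have hpt : ∀ x ∈ I ι l, T u v x ≤ 4 * Y u v x + (if Bad u x then T u v x else 0)
      + (if Bad v (inv x) then T u v x else 0) := by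
    intro x hx
    have t0 : 0 ≤ T u v x := mul_nonneg (S0_nonneg hu _) (S0_nonneg hv _)
    have y0 : 0 ≤ Y u v x := mul_nonneg (S1_nonneg hu _ _) (S1_nonneg hv _ _)
    by_cases b1 : Bad u x
    · rw [if_pos b1]; split_ifs <;> linarith
    · by_cases b2 : Bad v (inv x)
      · rw [if_pos b2]; split_ifs <;> linarith
      · rw [if_neg b1, if_neg b2, add_zero, add_zero]
        unfold Bad at b1 b2
        push Not at b1 b2
        rw [inv_erase hx] at b2
        have e3 : (inv x).2 = x.2 := rfl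
        rw [e3] at b2
        unfold T Y
        have := mul_le_mul b1 b2 (S0_nonneg hv _) (by
          have := S1_nonneg hu (x.1.erase x.2) x.2
          linarith)
        linarith
  have hsum := sum_le_sum hpt
  rw [sum_add_distrib, sum_add_distrib, ← mul_sum] at hsum
  linarith

/-- the matrix version -/
theorem matrix_bound {K : Type} [Fintype K] (u v : K → Finset ι → ℝ) (hu : ∀ k a, 0 ≤ u k a)
    (hv : ∀ k a, 0 ≤ v k a) {l : ℕ} (hι : Fintype.card ι = 2 * l + 1) {δ W : ℝ}
    (h0 : ∀ a b, Disjoint a b → 1 - δ ≤ ∑ k, u k a * v k b)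
    (h1 : ∀ a b i, a ∩ b = {i} → ∑ k, u k a * v k b ≤ δ)
    (hW : ∀ a b, ∑ k, u k a * v k b ≤ W) :
    1 - δ ≤ 8 * δ + 8 * (eta l * (Fintype.card K * W)) := by
  have hW0 : 0 ≤ W := le_trans (sum_nonneg fun k _ => mul_nonneg (hu k ∅) (hv k ∅)) (hW ∅ ∅)
  set Z : ℝ := (I ι l).card * 4 ^ l with hZ
  have hcard1 : ∀ x ∈ I ι l, (x.1.erase x.2).card = l := by
    intro x hx
    unfold I at hx
    rw [mem_filter] at hx
    rw [card_erase_of_mem hx.2.2, hx.2.1]; rfl
  have hcard2 : ∀ x ∈ I ι l, (x.1ᶜ).card = l := by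
    intro x hx
    unfold I at hx
    rw [mem_filter] at hx
    rw [card_compl, hι, hx.2.1]; omega
  have hpairs : ∀ x ∈ I ι l, ∀ c : ℝ, ∑ _a ∈ (x.1.erase x.2).powerset, ∑ _b ∈ (x.1ᶜ).powerset, c
      = 4 ^ l * c := by
    intro x hx c
    rw [sum_const, sum_const, card_powerset, card_powerset, hcard1 x hx, hcard2 x hx,
      nsmul_eq_mul, nsmul_eq_mul, ← mul_assoc]
    push_cast
    rw [show (4 : ℝ) = 2 * 2 by norm_num, mul_pow]
  have lowT : Z * (1 - δ) ≤ ∑ k, ∑ x ∈ I ι l, T (u k) (v k) x := by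
    rw [sum_comm]
    have : ∀ x ∈ I ι l, 4 ^ l * (1 - δ) ≤ ∑ k, T (u k) (v k) x := by
      intro x hx
      rw [← hpairs x hx (1 - δ)]
      have e : ∑ k, T (u k) (v k) x
          = ∑ a ∈ (x.1.erase x.2).powerset, ∑ b ∈ (x.1ᶜ).powerset, ∑ k, u k a * v k b := by
        unfold T S0
        simp only [sum_mul_sum]
        rw [sum_comm]
        refine sum_congr rfl fun a _ => ?_
        rw [sum_comm]
      rw [e]
      refine sum_le_sum fun a ha => sum_le_sum fun b hb => h0 a b ?_
      rw [mem_powerset] at ha hb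
      exact (disjoint_compl_right.mono_left (erase_subset _ _)).mono ha hb
    have h2 := sum_le_sum this
    rw [sum_const, nsmul_eq_mul, ← mul_assoc] at h2
    exact h2
  have upY : ∑ k, ∑ x ∈ I ι l, Y (u k) (v k) x ≤ Z * δ := by
    rw [sum_comm]
    have : ∀ x ∈ I ι l, ∑ k, Y (u k) (v k) x ≤ 4 ^ l * δ := by
      intro x hx
      rw [← hpairs x hx δ]
      have e : ∑ k, Y (u k) (v k) x
          = ∑ a ∈ (x.1.erase x.2).powerset, ∑ b ∈ (x.1ᶜ).powerset,
            ∑ k, u k (insert x.2 a) * v k (insert x.2 b) := by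
        unfold Y S1
        simp only [sum_mul_sum]
        rw [sum_comm]
        refine sum_congr rfl fun a _ => ?_
        rw [sum_comm]
      rw [e]
      refine sum_le_sum fun a ha => sum_le_sum fun b hb => h1 _ _ x.2 ?_
      rw [mem_powerset] at ha hb
      rw [← insert_inter_distrib]
      have hd : Disjoint a b := (disjoint_compl_right.mono_left (erase_subset _ _)).mono ha hb
      rw [disjoint_iff_inter_eq_empty.mp hd]
      rfl
    have h2 := sum_le_sum this
    rw [sum_const, nsmul_eq_mul, ← mul_assoc] at h2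
    exact h2
  have hk : ∀ k, ∑ x ∈ I ι l, T (u k) (v k) x
      ≤ 8 * ∑ x ∈ I ι l, Y (u k) (v k) x + 8 * (Z * eta l * W) := by
    intro k
    obtain ⟨a0, -, ha0⟩ := exists_max_image (univ : Finset (Finset ι)) (u k) univ_nonempty
    obtain ⟨b0, -, hb0⟩ := exists_max_image (univ : Finset (Finset ι)) (v k) univ_nonempty
    set p := u k a0 with hp
    set q := v k b0 with hq
    have hpq : p * q ≤ W := by
      refine le_trans ?_ (hW a0 b0)
      exact single_le_sum (f := fun k => u k a0 * v k b0)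
        (fun k _ => mul_nonneg (hu k a0) (hv k b0)) (mem_univ k)
    have hp0 : 0 ≤ p := hu k a0
    have hq0 : 0 ≤ q := hv k b0
    have hZ0 : 0 ≤ Z := by rw [hZ]; positivity
    have heta := eta_pos l
    have hscale : ∀ x, T (u k) (v k) x = p * q * T (fun a => u k a / p) (fun b => v k b / q) x ∧
        Y (u k) (v k) x = p * q * Y (fun a => u k a / p) (fun b => v k b / q) x := by
      intro x
      have hu' : ∀ a, u k a = p * (u k a / p) := by
        intro a
        by_cases hp1 : p = 0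
        · have := ha0 a (mem_univ _)
          have := hu k a
          have : u k a = 0 := le_antisymm (by linarith) this
          rw [this, hp1]; simp
        · field_simp
      have hv' : ∀ b, v k b = q * (v k b / q) := by
        intro b
        by_cases hp1 : q = 0
        · have := hb0 b (mem_univ _)
          have := hv k b
          have : v k b = 0 := le_antisymm (by linarith) this
          rw [this, hp1]; simp
        · field_simp
      constructor
      · unfold T S0
        rw [sum_congr rfl fun a _ => hu' a, sum_congr rfl fun b _ => hv' b, ← mul_sum, ← mul_sum]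
        ring
      · unfold Y S1
        rw [sum_congr rfl fun a _ => hu' (insert x.2 a),
          sum_congr rfl fun b _ => hv' (insert x.2 b), ← mul_sum, ← mul_sum]
        ring
    have hc := corruption (u := fun a => u k a / p) (v := fun b => v k b / q)
      (fun a => div_nonneg (hu k a) hp0)
      (fun a => div_le_one_of_le₀ (ha0 a (mem_univ _)) hp0)
      (fun b => div_nonneg (hv k b) hq0)
      (fun b => div_le_one_of_le₀ (hb0 b (mem_univ _)) hq0) hι
    rw [← hZ] at hc
    have hT : ∑ x ∈ I ι l, T (u k) (v k) x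
        = p * q * ∑ x ∈ I ι l, T (fun a => u k a / p) (fun b => v k b / q) x := by
      rw [mul_sum]; exact sum_congr rfl fun x _ => (hscale x).1
    have hY : ∑ x ∈ I ι l, Y (u k) (v k) x
        = p * q * ∑ x ∈ I ι l, Y (fun a => u k a / p) (fun b => v k b / q) x := by
      rw [mul_sum]; exact sum_congr rfl fun x _ => (hscale x).2
    rw [hT, hY]
    have h5 := mul_le_mul_of_nonneg_left hc (mul_nonneg hp0 hq0)
    have h6 : p * q * (Z * eta l) ≤ W * (Z * eta l) :=
      mul_le_mul_of_nonneg_right hpq (by positivity)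
    linarith
  have hsum := sum_le_sum fun k (_ : k ∈ (univ : Finset K)) => hk k
  rw [sum_add_distrib, ← mul_sum, sum_const, card_univ, nsmul_eq_mul] at hsum
  have hZpos : 0 < Z := by
    rw [hZ]
    have : 0 < (I ι l).card := by
      rw [card_pos]
      obtain ⟨U, hU⟩ := exists_subset_card_eq (s := (univ : Finset ι)) (n := l + 1) (by
        rw [card_univ, hι]; omega)
      have hne : U.Nonempty := by rw [← card_pos, hU.2]; omega
      obtain ⟨i, hi⟩ := hne
      exact ⟨(U, i), by unfold I; rw [mem_filter]; exact ⟨mem_univ _, hU.2, hi⟩⟩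
    positivity
  have hfin : Z * (1 - δ) ≤ Z * (8 * δ + 8 * (eta l * (Fintype.card K * W))) := by
    linarith
  exact le_of_mul_le_mul_left hfin hZpos

end Pool.Agent.Helper68.LP.Corr
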