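import Pool.Agent.Helper68.LP.Fact
import Pool.Agent.Helper68.LP.Short

set_option autoImplicit false

/-!
# Linear programming formulations with additive error
-/

namespace Pool.Agent.Helper68.LP

/-- all cities lie in the square `[0, R] × [0, R]` -/
def InSquare {n : ℕ} (R : ℕ) (P : Fin n → ℤ × ℤ) : Prop :=
  ∀ i, 0 ≤ (P i).1 ∧ (P i).1 ≤ R ∧ 0 ≤ (P i).2 ∧ (P i).2 ≤ R

/-- A linear programming formulation, with additive error `δ`, of the Euclidean travelling salesman
problem on `n` labelled cities in the grid `{0, …, R}²`. -/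
structure ALP (n r R : ℕ) (δ : ℝ) where
  d : ℕ
  s : ℕ
  A : Fin r → Fin d → ℝ
  b : Fin r → ℝ
  E : Fin s → Fin d → ℝ
  e : Fin s → ℝ
  x : Equiv.Perm (Fin n) → Fin d → ℝ
  c : (Fin n → ℤ × ℤ) → Fin d → ℝ
  c0 : (Fin n → ℤ × ℤ) → ℝ
  ineq : ∀ σ k, ∑ j, A k j * x σ j ≤ b k
  eqn : ∀ σ k, ∑ j, E k j * x σ j = e k
  value : ∀ P, Function.Injective P → InSquare R P → ∀ σ,
    |(∑ j, c P j * x σ j + c0 P) - tlen P σ| ≤ δ
  opt : ∀ P, Function.Injective P → InSquare R P → ∀ y : Fin d → ℝ,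
    (∀ k, ∑ j, A k j * y j ≤ b k) → (∀ k, ∑ j, E k j * y j = e k) →
    ∃ σ, tlen P σ - δ ≤ ∑ j, c P j * y j + c0 P

/-- slack of the point of the tour `σ` in the `k`-th inequality; the index `none` stands for the
constant function one -/
noncomputable def ALP.slack {n r R : ℕ} {δ : ℝ} (F : ALP n r R δ) (k : Option (Fin r))
    (σ : Equiv.Perm (Fin n)) : ℝ :=
  match k with
  | none => 1
  | some k => F.b k - ∑ j, F.A k j * F.x σ j

theorem ALP.slack_nonneg {n r R : ℕ} {δ : ℝ} (F : ALP n r R δ) (k : Option (Fin r))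
    (σ : Equiv.Perm (Fin n)) : 0 ≤ F.slack k σ := by
  cases k with
  | none => exact zero_le_one
  | some k => exact sub_nonneg.mpr (F.ineq σ k)

/-- the factorization of the slack matrix -/
theorem ALP.factor {n r R : ℕ} {δ : ℝ} (F : ALP n r R δ) (P : Fin n → ℤ × ℤ)
    (hP : Function.Injective P) (hR : InSquare R P) (t : ℝ) (ht : ∀ σ, t ≤ tlen P σ - δ) :
    ∃ l : Option (Fin r) → ℝ, (∀ k, 0 ≤ l k) ∧
      ∀ σ, (∑ j, F.c P j * F.x σ j + F.c0 P) - t = ∑ k, l k * F.slack k σ := by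
  classical
  let A' : Fin r ⊕ (Fin F.s ⊕ Fin F.s) → Fin F.d → ℝ := fun i => match i with
    | Sum.inl k => F.A k
    | Sum.inr (Sum.inl k) => F.E k
    | Sum.inr (Sum.inr k) => fun j => - F.E k j
  let b' : Fin r ⊕ (Fin F.s ⊕ Fin F.s) → ℝ := fun i => match i with
    | Sum.inl k => F.b k
    | Sum.inr (Sum.inl k) => F.e k
    | Sum.inr (Sum.inr k) => - F.e k
  have hneg : ∀ (y : Fin F.d → ℝ) (k : Fin F.s),
      ∑ j, - F.E k j * y j = - ∑ j, F.E k j * y j := by
    intro y k
    rw [← Finset.sum_neg_distrib]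
    exact Finset.sum_congr rfl fun j _ => by ring
  have hmem : ∀ σ : Equiv.Perm (Fin n), ∀ i, ∑ j, A' i j * F.x σ j ≤ b' i := by
    rintro σ (k | k | k)
    · exact F.ineq σ k
    · exact (F.eqn σ k).le
    · change ∑ j, - F.E k j * F.x σ j ≤ - F.e k
      rw [hneg, F.eqn σ k]
  obtain ⟨l, l0, hl, hl0, h1, h2⟩ := farkas_affine A' b' (F.x 1) (hmem 1) (F.c P) (F.c0 P - t) (by
    intro y hy
    obtain ⟨σ, hσ⟩ := F.opt P hP hR y (fun k => hy (Sum.inl k)) (fun k => by
      apply le_antisymm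
      · exact hy (Sum.inr (Sum.inl k))
      · have := hy (Sum.inr (Sum.inr k))
        change ∑ j, - F.E k j * y j ≤ - F.e k at this
        rw [hneg] at this
        linarith)
    have := ht σ
    linarith)
  refine ⟨fun k => match k with
    | none => l0
    | some k => l (Sum.inl k), fun k => ?_, fun σ => ?_⟩
  · cases k with
    | none => exact hl0
    | some k => exact hl _
  · rw [Fintype.sum_option]
    have e1 : ∑ j, F.c P j * F.x σ j = - ∑ i, l i * ∑ j, A' i j * F.x σ j := by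
      have : ∀ j, F.c P j * F.x σ j = - ∑ i, l i * (A' i j * F.x σ j) := by
        intro j
        rw [h1 j, neg_mul, Finset.sum_mul]
        congr 1
        exact Finset.sum_congr rfl fun i _ => by ring
      simp only [this]
      rw [Finset.sum_neg_distrib, Finset.sum_comm]
      congr 1
      exact Finset.sum_congr rfl fun i _ => by rw [Finset.mul_sum]
    have e2 : ∑ i, l i * b' i - ∑ i, l i * ∑ j, A' i j * F.x σ j
        = ∑ k : Fin r, l (Sum.inl k) * (F.b k - ∑ j, F.A k j * F.x σ j) := by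
      rw [← Finset.sum_sub_distrib, Fintype.sum_sum_type, Fintype.sum_sum_type]
      have z1 : ∀ k : Fin F.s, l (Sum.inr (Sum.inl k)) * b' (Sum.inr (Sum.inl k))
          - l (Sum.inr (Sum.inl k)) * ∑ j, A' (Sum.inr (Sum.inl k)) j * F.x σ j = 0 := by
        intro k
        change l (Sum.inr (Sum.inl k)) * F.e k
          - l (Sum.inr (Sum.inl k)) * ∑ j, F.E k j * F.x σ j = 0
        rw [F.eqn σ k]; ring
      have z2 : ∀ k : Fin F.s, l (Sum.inr (Sum.inr k)) * b' (Sum.inr (Sum.inr k))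
          - l (Sum.inr (Sum.inr k)) * ∑ j, A' (Sum.inr (Sum.inr k)) j * F.x σ j = 0 := by
        intro k
        change l (Sum.inr (Sum.inr k)) * (- F.e k)
          - l (Sum.inr (Sum.inr k)) * ∑ j, - F.E k j * F.x σ j = 0
        rw [hneg, F.eqn σ k]; ring
      simp only [z1, z2, Finset.sum_const_zero, add_zero]
      exact Finset.sum_congr rfl fun k _ => by
        change l (Sum.inl k) * F.b k - l (Sum.inl k) * ∑ j, F.A k j * F.x σ j = _
        ring
    change (∑ j, F.c P j * F.x σ j + F.c0 P) - t = l0 * 1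
      + ∑ k : Fin r, l (Sum.inl k) * (F.b k - ∑ j, F.A k j * F.x σ j)
    rw [← e2, e1]
    linarith

end Pool.Agent.Helper68.LP
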