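import Pool.Agent.Helper68.LP.TCost
import Pool.Agent.Helper68.LP.Form
import Pool.Agent.Helper68.LP.Corr

set_option autoImplicit false

/-!
# The lower bound for one gadget
-/

namespace Pool.Agent.Helper68.LP

/-- Lattice points and, for every set `b` of indices, integer costs of the unit edges of the
lattice, such that the tour of the set `a` has cost `O b + (|a ∩ b| - 1) ^ 2` and every tour has
cost at least `O b`; a step which is not a unit edge costs `K`. -/
structure AG (m : ℕ) where
  n : ℕ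
  hn : 3 ≤ n
  p : Fin n → ℕ × ℕ
  hp : Function.Injective p
  h : Finset (Fin m) → ℕ → ℕ → ℤ
  v : Finset (Fin m) → ℕ → ℕ → ℤ
  Cb : ℕ
  hC : ∀ b x y, |h b x y| ≤ Cb
  vC : ∀ b x y, |v b x y| ≤ Cb
  K : ℕ
  O : Finset (Fin m) → ℤ
  low : ∀ b σ, O b ≤ tcost (h b) (v b) K p σ
  tour : Finset (Fin m) → Equiv.Perm (Fin n)
  unit : ∀ a, UnitTour p (tour a)
  val : ∀ a b, tcost (h b) (v b) K p (tour a) = O b + (((a ∩ b).card : ℤ) - 1) ^ 2

/-- characteristic function -/
def chi {m : ℕ} (b : Finset (Fin m)) : Fin m → Bool := fun i => decide (i ∈ b)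

theorem cap_chi {m : ℕ} (a b : Finset (Fin m)) :
    Gadget.cap (chi a) (chi b) = ((a ∩ b).card : ℤ) := by
  unfold Gadget.cap chi
  rw [Finset.sum_boole]
  congr 2
  ext i
  simp

/-- a gadget with special edges gives one of the second kind -/
noncomputable def Gadget.toAG {m : ℕ} (G : Gadget m) : AG m where
  n := G.n
  hn := G.hn
  p := G.p
  hp := G.hp
  h _ := G.hh
  v b := G.vv (chi b)
  Cb := G.Cb
  hC b := (G.box (chi b) 0).hh
  vC b := (G.box (chi b) 0).hv
  K := G.K0 * G.B + m
  O _ := (G.K0 : ℤ) * G.B - 1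
  low b σ := by
    have := G.tcost_low (chi b) σ
    push_cast
    exact this
  tour a := G.tour (chi a)
  unit a := (G.tour_spec _).1
  val a b := by
    rw [G.tcost_tour, cap_chi]
    ring

namespace AG

variable {m : ℕ} (G : AG m)

/-- the parameters of the instances: box `N`, scale `M` -/
structure Params (N M : ℕ) : Prop where
  box : ∀ i, (G.p i).1 ≤ N ∧ (G.p i).2 ≤ N
  big : 3 * G.K + 8 * (N * G.Cb) + G.Cb + 400 * (G.n * (N * G.Cb) ^ 2) + 1 ≤ M

theorem bx (b : Finset (Fin m)) (N : ℕ) : Box (G.h b) (G.v b) N G.Cb :=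
  ⟨G.hC b, G.vC b⟩

/-- the instance of the set `b` -/
def inst (M : ℕ) (b : Finset (Fin m)) : Fin G.n → ℤ × ℤ := fun i =>
  pert (G.h b) (G.v b) M (G.p i)

variable {G}

theorem Params.inj {N M : ℕ} (h : G.Params N M) (b : Finset (Fin m)) :
    Function.Injective (G.inst M b) := by
  apply pert_injective (G.bx b N) G.p G.hp h.box
  · have := h.big
    have : G.Cb < M := by omega
    exact_mod_cast this
  · have := h.big
    have : 8 * (N * G.Cb) ≤ M := by omega
    exact_mod_cast this

theorem Params.square {N M : ℕ} (h : G.Params N M) (b : Finset (Fin m)) :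
    InSquare (2 * (M * N)) (G.inst M b) := by
  intro i
  obtain ⟨h1, h2⟩ := h.box i
  have hB := G.bx b N
  have b1 : ∀ (f : ℕ → ℤ) (x : ℕ), (∀ j, |f j| ≤ G.Cb) →
      |∑ j ∈ Finset.range x, f j| ≤ (M : ℤ) * x := by
    intro f x hf
    have h3 := sum_bound (N := x) hf le_rfl
    refine h3.trans ?_
    have := h.big
    have h4 : x * G.Cb ≤ M * x := by
      rw [mul_comm]
      exact Nat.mul_le_mul_right x (by omega)
    exact_mod_cast h4
  have c1 := abs_le.mp (b1 (fun i' => G.h b i' (G.p i).2) (G.p i).1 fun j => hB.hh _ _)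
  have c2 := abs_le.mp (b1 (fun i' => G.v b (G.p i).1 i') (G.p i).2 fun j => hB.hv _ _)
  have d1 : (M : ℤ) * (G.p i).1 ≤ M * N := by
    exact_mod_cast Nat.mul_le_mul_left M h1
  have d2 : (M : ℤ) * (G.p i).2 ≤ M * N := by
    exact_mod_cast Nat.mul_le_mul_left M h2
  unfold inst pert
  simp only
  push_cast
  refine ⟨?_, ?_, ?_, ?_⟩ <;> linarith [c1.1, c1.2, c2.1, c2.2]

theorem Params.low {N M : ℕ} (h : G.Params N M) (b : Finset (Fin m))
    (σ : Equiv.Perm (Fin G.n)) : (G.n : ℝ) * M + G.O b ≤ tlen (G.inst M b) σ := by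
  have h1 := tcost_le_tlen (M := (M : ℤ)) (K := (G.K : ℤ)) (G.bx b N)
    (by have := G.hn; omega) G.p G.hp h.box (by positivity)
    (by
      have := h.big
      have : 3 * G.K + 8 * (N * G.Cb) ≤ M := by omega
      exact_mod_cast this) σ
  have h3 : (G.O b : ℝ) ≤ (tcost (G.h b) (G.v b) G.K G.p σ : ℤ) := by
    exact_mod_cast G.low b σ
  unfold inst
  push_cast at h1 ⊢
  linarith

theorem Params.err {N M : ℕ} (h : G.Params N M) :
    (G.n : ℝ) * ((2 * (N * G.Cb : ℕ)) ^ 2 / (2 * ((M : ℝ) - G.Cb))) ≤ 1 / 200 := by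
  have h1 : (400 * (G.n * (N * G.Cb) ^ 2) + 1 + G.Cb : ℕ) ≤ (M : ℝ) := by
    have := h.big
    exact_mod_cast (by omega : 400 * (G.n * (N * G.Cb) ^ 2) + 1 + G.Cb ≤ M)
  push_cast at h1
  have h2 : (0 : ℝ) < (M : ℝ) - G.Cb := by
    have : (0 : ℝ) ≤ 400 * (G.n * (N * G.Cb) ^ 2) := by positivity
    linarith
  rw [← mul_div_assoc, div_le_iff₀ (by positivity)]
  push_cast
  nlinarith

/-- the length of the tour of the set `a` in the instance of the set `b` -/
theorem Params.mid {N M : ℕ} (h : G.Params N M) (a b : Finset (Fin m)) :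
    (G.n : ℝ) * M + G.O b + (((a ∩ b).card : ℝ) - 1) ^ 2 ≤ tlen (G.inst M b) (G.tour a) ∧
      tlen (G.inst M b) (G.tour a)
        ≤ (G.n : ℝ) * M + G.O b + (((a ∩ b).card : ℝ) - 1) ^ 2 + 1 / 200 := by
  have e' : (tcost (G.h b) (G.v b) G.K G.p (G.tour a) : ℝ)
      = G.O b + (((a ∩ b).card : ℝ) - 1) ^ 2 := by exact_mod_cast G.val a b
  constructor
  · have h1 := tcost_le_tlen (M := (M : ℤ)) (K := (G.K : ℤ)) (G.bx b N)
      (by have := G.hn; omega) G.p G.hp h.box (by positivity)
      (by
        have := h.big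
        have : 3 * G.K + 8 * (N * G.Cb) ≤ M := by omega
        exact_mod_cast this) (G.tour a)
    rw [e'] at h1
    unfold inst
    push_cast at h1 ⊢
    linarith
  · have h1 := tlen_le_tcost (M := (M : ℤ)) (K := (G.K : ℤ)) (G.bx b N)
      G.p h.box (by
        have := h.big
        have : G.Cb < M := by omega
        exact_mod_cast this) (G.tour a) (G.unit a)
    rw [e'] at h1
    have h2 := h.err
    unfold inst
    push_cast at h1 h2 ⊢
    linarith

/-- the lower bound for one gadget -/
theorem Params.main {N M : ℕ} (h : G.Params N M) {l : ℕ} (hm : m = 2 * l + 1) {r : ℕ} {δ : ℝ}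
    (hδ : δ ≤ 1 / 100) (F : ALP G.n r (2 * (M * N)) δ) :
    1 ≤ 11 * (Corr.eta l * ((r + 1 : ℝ) * (m ^ 2 + 1))) := by
  classical
  -- the factorization for every set
  have hfac : ∀ b : Finset (Fin m), ∃ l : Option (Fin r) → ℝ, (∀ k, 0 ≤ l k) ∧
      ∀ σ, (∑ j, F.c (G.inst M b) j * F.x σ j + F.c0 (G.inst M b))
        - ((G.n : ℝ) * M + G.O b - δ) = ∑ k, l k * F.slack k σ := fun b =>
    F.factor _ (h.inj _) (h.square _) _ fun σ => sub_le_sub_right (h.low _ σ) _
  choose lam hlam hfac using hfac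
  set u : Option (Fin r) → Finset (Fin m) → ℝ := fun k a => F.slack k (G.tour a) with hu
  set v : Option (Fin r) → Finset (Fin m) → ℝ := fun k b => lam b k with hv
  have huv : ∀ a b, ∑ k, u k a * v k b
      = (∑ j, F.c (G.inst M b) j * F.x (G.tour a) j + F.c0 (G.inst M b))
        - ((G.n : ℝ) * M + G.O b - δ) := by
    intro a b
    rw [hfac b]
    exact Finset.sum_congr rfl fun k _ => mul_comm _ _
  -- the entries of the matrix
  have hlow : ∀ a b : Finset (Fin m), (((a ∩ b).card : ℝ) - 1) ^ 2 ≤ ∑ k, u k a * v k b := by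
    intro a b
    rw [huv]
    have h1 := abs_le.mp (F.value _ (h.inj b) (h.square _) (G.tour a))
    have h2 := (h.mid a b).1
    linarith [h1.1]
  have hup : ∀ a b : Finset (Fin m), ∑ k, u k a * v k b
      ≤ (((a ∩ b).card : ℝ) - 1) ^ 2 + 1 / 40 := by
    intro a b
    rw [huv]
    have h1 := abs_le.mp (F.value _ (h.inj b) (h.square _) (G.tour a))
    have h2 := (h.mid a b).2
    linarith [h1.2]
  have hm1 : (1 : ℝ) ≤ m := by
    have : 1 ≤ m := by omega
    exact_mod_cast this
  have hsq : ∀ a b : Finset (Fin m), (((a ∩ b).card : ℝ) - 1) ^ 2 ≤ (m : ℝ) ^ 2 := by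
    intro a b
    have h1 : ((a ∩ b).card : ℝ) ≤ m := by
      have := Finset.card_le_univ (a ∩ b)
      rw [Fintype.card_fin] at this
      exact_mod_cast this
    have h2 : (0 : ℝ) ≤ (a ∩ b).card := by positivity
    apply sq_le_sq'
    · linarith
    · linarith
  have hmat := Corr.matrix_bound (δ := 1 / 40) (W := (m : ℝ) ^ 2 + 1) (l := l) u v
    (fun k a => F.slack_nonneg k _) (fun k b => hlam b k)
    (by rw [Fintype.card_fin]; exact hm)
    (by
      intro a b hab
      have h1 := hlow a b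
      rw [Finset.disjoint_iff_inter_eq_empty.mp hab] at h1
      simp only [Finset.card_empty, Nat.cast_zero] at h1
      linarith)
    (by
      intro a b i hab
      have h1 := hup a b
      rw [hab] at h1
      simp only [Finset.card_singleton, Nat.cast_one, sub_self] at h1
      norm_num at h1 ⊢
      linarith)
    (by
      intro a b
      have h1 := hup a b
      have h2 := hsq a b
      linarith)
  have hcard : (Fintype.card (Option (Fin r)) : ℝ) = r + 1 := by simp
  rw [hcard] at hmat
  linarith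

end AG

/-- A formulation for `n + t` cities gives one for `n` cities: `t` additional cities are placed
next to the first one, at a larger scale. -/
theorem ALP.restrict {n t r R R' S : ℕ} {δ δ' : ℝ} (hn : 0 < n) (hS : t < S)
    (hR : S * R + t ≤ R') (hδ : δ' + 2 * t ≤ S * δ) (F : ALP (n + t) r R' δ') :
    Nonempty (ALP n r R δ) := by
  have hS0 : (0 : ℝ) < S := by
    have : 0 < S := by omega
    exact_mod_cast this
  let i0 : Fin n := ⟨0, hn⟩
  have hsq : ∀ P : Fin n → ℤ × ℤ, InSquare R P → InSquare R' (padded S t i0 P) := by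
    intro P hP i
    have hR' : (S : ℤ) * R + t ≤ R' := by exact_mod_cast hR
    have hS' : (0 : ℤ) ≤ S := by positivity
    have ht' : (0 : ℤ) ≤ t := by positivity
    refine Fin.addCases (fun i => ?_) (fun j => ?_) i
    · unfold padded sc
      simp only [Fin.append_left]
      obtain ⟨h1, h2, h3, h4⟩ := hP i
      exact ⟨mul_nonneg hS' h1, by nlinarith, mul_nonneg hS' h3, by nlinarith⟩
    · unfold padded near sc
      simp only [Fin.append_right]
      obtain ⟨h1, h2, h3, h4⟩ := hP i0
      have hj : ((j : ℕ) : ℤ) + 1 ≤ t := by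
        have := j.2
        exact_mod_cast this
      have hj0 : (0 : ℤ) ≤ ((j : ℕ) : ℤ) + 1 := by positivity
      exact ⟨add_nonneg (mul_nonneg hS' h1) hj0, by nlinarith, mul_nonneg hS' h3, by nlinarith⟩
  choose ins hins using fun σ : Equiv.Perm (Fin n) => exists_insert S t i0 σ
  refine ⟨{
    d := F.d, s := F.s, A := F.A, b := F.b, E := F.E, e := F.e
    x := fun σ => F.x (ins σ)
    c := fun P j => F.c (padded S t i0 P) j / S
    c0 := fun P => F.c0 (padded S t i0 P) / S
    ineq := fun σ k => F.ineq _ k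
    eqn := fun σ k => F.eqn _ k
    value := ?_
    opt := ?_ }⟩
  · intro P hP hPR σ
    have h1 := F.value _ (padded_injective hS i0 hP) (hsq P hPR) (ins σ)
    obtain ⟨h2, h3⟩ := hins σ P
    have e : (∑ j, F.c (padded S t i0 P) j / S * F.x (ins σ) j + F.c0 (padded S t i0 P) / S)
        = (∑ j, F.c (padded S t i0 P) j * F.x (ins σ) j + F.c0 (padded S t i0 P)) / S := by
      rw [add_div, Finset.sum_div]
      congr 1
      exact Finset.sum_congr rfl fun j _ => by ring
    rw [e]
    rw [abs_le] at h1 ⊢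
    constructor
    · rw [le_sub_iff_add_le, le_div_iff₀ hS0]
      have ht' : (0 : ℝ) ≤ t := by positivity
      nlinarith [h1.1]
    · rw [sub_le_iff_le_add, div_le_iff₀ hS0]
      nlinarith [h1.2]
  · intro P hP hPR y hy1 hy2
    obtain ⟨σ', h1⟩ := F.opt _ (padded_injective hS i0 hP) (hsq P hPR) y hy1 hy2
    obtain ⟨σ, h2⟩ := exists_remove S t i0 P σ'
    refine ⟨σ, ?_⟩
    have e : (∑ j, F.c (padded S t i0 P) j / S * y j + F.c0 (padded S t i0 P) / S)
        = (∑ j, F.c (padded S t i0 P) j * y j + F.c0 (padded S t i0 P)) / S := by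
      rw [add_div, Finset.sum_div]
      congr 1
      exact Finset.sum_congr rfl fun j _ => by ring
    rw [e, le_div_iff₀ hS0]
    have ht' : (0 : ℝ) ≤ t := by positivity
    nlinarith

end Pool.Agent.Helper68.LP
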