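import Pool.Agent.Helper54.Lg.Farkas
import Pool.Agent.Helper68.LP.Pert

set_option autoImplicit false

/-!
# Linear programming formulations of the exact Euclidean travelling salesman problem
-/

namespace Pool.Agent.Helper68.LP

/-- A linear programming formulation of the exact Euclidean travelling salesman problem on `n`
labelled cities with `r` inequalities: a polyhedron given by `r` linear inequalities and any number
of linear equations in any number of variables, which contains a point `x σ` for every tour `σ`,
and for every instance `P` (distinct points of `ℤ²`) an affine function whose value at `x σ` is the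
exact length of the tour `σ` and whose minimum over the polyhedron is the length of a shortest
tour. -/
structure LPForm (n r : ℕ) where
  d : ℕ
  s : ℕ
  A : Fin r → Fin d → ℝ
  b : Fin r → ℝ
  E : Fin s → Fin d → ℝ
  e : Fin s → ℝ
  x : Equiv.Perm (Fin n) → Fin d → ℝ
  c : (Fin n → ℤ × ℤ) → Fin d → ℝ
  c0 : (Fin n → ℤ × ℤ) → ℝ
  ineq : ∀ σ k, ∑ j, A k j * x σ j ≤ b k
  eqn : ∀ σ k, ∑ j, E k j * x σ j = e k
  value : ∀ P, Function.Injective P → ∀ σ, ∑ j, c P j * x σ j + c0 P = tlen P σ
  opt : ∀ P, Function.Injective P → ∀ y : Fin d → ℝ, (∀ k, ∑ j, A k j * y j ≤ b k) →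
    (∀ k, ∑ j, E k j * y j = e k) → ∃ σ, tlen P σ ≤ ∑ j, c P j * y j + c0 P

/-- affine form of Farkas' lemma -/
theorem farkas_affine {d : ℕ} {ι : Type} [Fintype ι] (A : ι → Fin d → ℝ) (b : ι → ℝ)
    (y0 : Fin d → ℝ) (h0 : ∀ i, ∑ j, A i j * y0 j ≤ b i) (c : Fin d → ℝ) (γ : ℝ)
    (hc : ∀ y : Fin d → ℝ, (∀ i, ∑ j, A i j * y j ≤ b i) → 0 ≤ ∑ j, c j * y j + γ) :
    ∃ (l : ι → ℝ) (l0 : ℝ), (∀ i, 0 ≤ l i) ∧ 0 ≤ l0 ∧ (∀ j, c j = - ∑ i, l i * A i j) ∧
      γ = l0 + ∑ i, l i * b i := by
  classical
  let g : Option (Option ι) → Fin (d + 1) → ℝ := fun o => match o with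
    | none => Fin.snoc c γ
    | some none => Fin.snoc (fun _ => 0) (-1)
    | some (some i) => Fin.snoc (A i) (- b i)
  let k : Option (Option ι) → ℝ := fun o => match o with
    | none => 1
    | some _ => 0
  rcases Pool.Agent.Helper54.Lg.farkas_real (d + 1) (Option (Option ι)) g k with
    ⟨y, hy⟩ | ⟨l, hl0, hl1, hl2⟩
  · exfalso
    set z : Fin d → ℝ := fun j => y j.castSucc with hz
    set τ : ℝ := y (Fin.last d) with hτ
    have e1 : 1 + (∑ j, c j * z j + γ * τ) ≤ 0 := by
      have := hy none
      simpa [g, k, Fin.sum_univ_castSucc] using this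
    have e2 : 0 ≤ τ := by
      have := hy (some none)
      simp only [g, k, Fin.sum_univ_castSucc, Fin.snoc_castSucc, Fin.snoc_last, zero_mul,
        Finset.sum_const_zero, zero_add] at this
      linarith
    have e3 : ∀ i, ∑ j, A i j * z j ≤ b i * τ := by
      intro i
      have := hy (some (some i))
      simp only [g, k, Fin.sum_univ_castSucc, Fin.snoc_castSucc, Fin.snoc_last, zero_add] at this
      linarith
    rcases e2.eq_or_lt with h | h
    · rw [← h] at e1 e3
      have hcy := hc y0 h0
      set s : ℝ := ∑ j, c j * y0 j + γ + 1 with hs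
      have hs0 : 0 ≤ s := by linarith
      have := hc (fun j => y0 j + s * z j) (by
        intro i
        have h3 := e3 i
        rw [mul_zero] at h3
        have : ∑ j, A i j * (y0 j + s * z j) = ∑ j, A i j * y0 j + s * ∑ j, A i j * z j := by
          rw [Finset.mul_sum, ← Finset.sum_add_distrib]
          exact Finset.sum_congr rfl fun j _ => by ring
        rw [this]
        have := mul_nonpos_of_nonneg_of_nonpos hs0 h3
        linarith [h0 i])
      have h4 : ∑ j, c j * (y0 j + s * z j) = ∑ j, c j * y0 j + s * ∑ j, c j * z j := by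
        rw [Finset.mul_sum, ← Finset.sum_add_distrib]
        exact Finset.sum_congr rfl fun j _ => by ring
      rw [h4] at this
      have h5 : ∑ j, c j * z j ≤ -1 := by linarith
      have h6 : s * ∑ j, c j * z j ≤ s * (-1) := mul_le_mul_of_nonneg_left h5 hs0
      linarith
    · have := hc (fun j => z j / τ) (by
        intro i
        have : ∑ j, A i j * (z j / τ) = (∑ j, A i j * z j) / τ := by
          rw [Finset.sum_div]
          exact Finset.sum_congr rfl fun j _ => by ring
        rw [this, div_le_iff₀ h]
        exact e3 i)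
      have h4 : ∑ j, c j * (z j / τ) = (∑ j, c j * z j) / τ := by
        rw [Finset.sum_div]
        exact Finset.sum_congr rfl fun j _ => by ring
      rw [h4] at this
      have h5 : 0 ≤ (∑ j, c j * z j) + γ * τ := by
        have h6 := mul_nonneg this h.le
        have : ((∑ j, c j * z j) / τ + γ) * τ = (∑ j, c j * z j) + γ * τ := by
          field_simp
        rwa [this] at h6
      linarith
  · have hn : 0 < l none := by
      simpa [k, Fintype.sum_option] using hl2
    refine ⟨fun i => l (some (some i)) / l none, l (some none) / l none,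
      fun i => div_nonneg (hl0 _) hn.le, div_nonneg (hl0 _) hn.le, fun j => ?_, ?_⟩
    · have := hl1 j.castSucc
      simp only [Fintype.sum_option, g, Fin.snoc_castSucc, mul_zero, zero_add] at this
      have h1 : ∑ i, l (some (some i)) / l none * A i j
          = (∑ i, l (some (some i)) * A i j) / l none := by
        rw [Finset.sum_div]
        exact Finset.sum_congr rfl fun j _ => by ring
      rw [h1, ← neg_div, eq_div_iff hn.ne']
      linarith
    · have := hl1 (Fin.last d)
      simp only [Fintype.sum_option, g, Fin.snoc_last] at this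
      have h1 : ∑ i, l (some (some i)) / l none * b i
          = (∑ i, l (some (some i)) * b i) / l none := by
        rw [Finset.sum_div]
        exact Finset.sum_congr rfl fun j _ => by ring
      rw [h1, ← add_div, eq_div_iff hn.ne']
      have h2 : ∑ i, l (some (some i)) * -b i = -∑ i, l (some (some i)) * b i := by
        rw [← Finset.sum_neg_distrib]
        exact Finset.sum_congr rfl fun j _ => by ring
      rw [h2] at this
      linarith

/-- slack of the point of the tour `σ` in the `k`-th inequality; the index `none` stands for the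
constant function one -/
noncomputable def LPForm.slack {n r : ℕ} (F : LPForm n r) (k : Option (Fin r))
    (σ : Equiv.Perm (Fin n)) : ℝ :=
  match k with
  | none => 1
  | some k => F.b k - ∑ j, F.A k j * F.x σ j

theorem LPForm.slack_nonneg {n r : ℕ} (F : LPForm n r) (k : Option (Fin r))
    (σ : Equiv.Perm (Fin n)) : 0 ≤ F.slack k σ := by
  cases k with
  | none => exact zero_le_one
  | some k => exact sub_nonneg.mpr (F.ineq σ k)

/-- the factorization of the slack matrix given by a linear programming formulation -/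
theorem LPForm.factor {n r : ℕ} (F : LPForm n r) (P : Fin n → ℤ × ℤ)
    (hP : Function.Injective P) (t : ℝ) (ht : ∀ σ, t ≤ tlen P σ) :
    ∃ l : Option (Fin r) → ℝ, (∀ k, 0 ≤ l k) ∧
      ∀ σ, tlen P σ - t = ∑ k, l k * F.slack k σ := by
  classical
  let A' : Fin r ⊕ (Fin F.s ⊕ Fin F.s) → Fin F.d → ℝ := fun i => match i with
    | Sum.inl k => F.A k
    | Sum.inr (Sum.inl k) => F.E k
    | Sum.inr (Sum.inr k) => fun j => - F.E k j
  let b' : Fin r ⊕ (Fin F.s ⊕ Fin F.s) → ℝ := fun i => match i with
    | Sum.inl k => F.b k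
    | Sum.inr (Sum.inl k) => F.e k
    | Sum.inr (Sum.inr k) => - F.e k
  have hneg : ∀ (y : Fin F.d → ℝ) (k : Fin F.s),
      ∑ j, - F.E k j * y j = - ∑ j, F.E k j * y j := by
    intro y k
    rw [← Finset.sum_neg_distrib]
    exact Finset.sum_congr rfl fun j _ => by ring
  have hmem : ∀ σ : Equiv.Perm (Fin n), ∀ i, ∑ j, A' i j * F.x σ j ≤ b' i := by
    rintro σ (k | k | k)
    · exact F.ineq σ k
    · exact (F.eqn σ k).le
    · change ∑ j, - F.E k j * F.x σ j ≤ - F.e k
      rw [hneg, F.eqn σ k]
  obtain ⟨l, l0, hl, hl0, h1, h2⟩ := farkas_affine A' b' (F.x 1) (hmem 1) (F.c P) (F.c0 P - t) (by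
    intro y hy
    obtain ⟨σ, hσ⟩ := F.opt P hP y (fun k => hy (Sum.inl k)) (fun k => by
      apply le_antisymm
      · exact hy (Sum.inr (Sum.inl k))
      · have := hy (Sum.inr (Sum.inr k))
        change ∑ j, - F.E k j * y j ≤ - F.e k at this
        rw [hneg] at this
        linarith)
    have := ht σ
    linarith)
  refine ⟨fun k => match k with
    | none => l0
    | some k => l (Sum.inl k), fun k => ?_, fun σ => ?_⟩
  · cases k with
    | none => exact hl0
    | some k => exact hl _
  · rw [← F.value P hP σ, Fintype.sum_option]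
    have e1 : ∑ j, F.c P j * F.x σ j = - ∑ i, l i * ∑ j, A' i j * F.x σ j := by
      have : ∀ j, F.c P j * F.x σ j = - ∑ i, l i * (A' i j * F.x σ j) := by
        intro j
        rw [h1 j, neg_mul, Finset.sum_mul]
        congr 1
        exact Finset.sum_congr rfl fun i _ => by ring
      simp only [this]
      rw [Finset.sum_neg_distrib, Finset.sum_comm]
      congr 1
      exact Finset.sum_congr rfl fun i _ => by rw [Finset.mul_sum]
    have e2 : ∑ i, l i * b' i - ∑ i, l i * ∑ j, A' i j * F.x σ j
        = ∑ k : Fin r, l (Sum.inl k) * (F.b k - ∑ j, F.A k j * F.x σ j) := by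
      rw [← Finset.sum_sub_distrib, Fintype.sum_sum_type, Fintype.sum_sum_type]
      have z1 : ∀ k : Fin F.s, l (Sum.inr (Sum.inl k)) * b' (Sum.inr (Sum.inl k))
          - l (Sum.inr (Sum.inl k)) * ∑ j, A' (Sum.inr (Sum.inl k)) j * F.x σ j = 0 := by
        intro k
        change l (Sum.inr (Sum.inl k)) * F.e k
          - l (Sum.inr (Sum.inl k)) * ∑ j, F.E k j * F.x σ j = 0
        rw [F.eqn σ k]; ring
      have z2 : ∀ k : Fin F.s, l (Sum.inr (Sum.inr k)) * b' (Sum.inr (Sum.inr k))
          - l (Sum.inr (Sum.inr k)) * ∑ j, A' (Sum.inr (Sum.inr k)) j * F.x σ j = 0 := by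
        intro k
        change l (Sum.inr (Sum.inr k)) * (- F.e k)
          - l (Sum.inr (Sum.inr k)) * ∑ j, - F.E k j * F.x σ j = 0
        rw [hneg, F.eqn σ k]; ring
      simp only [z1, z2, Finset.sum_const_zero, add_zero]
      exact Finset.sum_congr rfl fun k _ => by
        change l (Sum.inl k) * F.b k - l (Sum.inl k) * ∑ j, F.A k j * F.x σ j = _
        ring
    change (∑ j, F.c P j * F.x σ j + F.c0 P) - t = l0 * 1
      + ∑ k : Fin r, l (Sum.inl k) * (F.b k - ∑ j, F.A k j * F.x σ j)
    rw [← e2, e1]
    linarith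

end Pool.Agent.Helper68.LP
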