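import Pool.Agent.Helper68.LP.Gadget

set_option autoImplicit false

/-!
# Costs of the tours of a gadget with the additional costs of a set
-/

namespace Pool.Agent.Helper68.LP.Gadget

variable {m : ℕ} (G : Gadget m)

/-- number of common elements -/
def cap (a b : Fin m → Bool) : ℤ := ∑ i, if a i = true ∧ b i = true then (1 : ℤ) else 0

theorem ext_low (b : Fin m → Bool) (p q : ℕ × ℕ) :
    -(∑ i, (ind (G.ea i) p q : ℤ)) ≤ G.ext b p q := by
  unfold ext
  have h1 : -(∑ i, (ind (G.ea i) p q : ℤ))
      ≤ ∑ i, if b i = true then -(ind (G.ea i) p q : ℤ) else 0 := by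
    rw [← Finset.sum_neg_distrib]
    refine Finset.sum_le_sum fun i _ => ?_
    split_ifs
    · exact le_rfl
    · have : (0 : ℤ) ≤ ind (G.ea i) p q := by positivity
      linarith
  have h2 : (0 : ℤ) ≤ ∑ i, ∑ j, if i < j ∧ b i = true ∧ b j = true then
      2 * (ind (G.ey i j) p q : ℤ) else 0 := by
    refine Finset.sum_nonneg fun i _ => Finset.sum_nonneg fun j _ => ?_
    split_ifs
    · positivity
    · exact le_rfl
  linarith

theorem ucost_low (b : Fin m → Bool) {K : ℤ} (hK : 0 ≤ K) (p q : ℕ × ℕ) :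
    -(∑ i, (ind (G.ea i) p q : ℤ)) ≤ ucost G.hh (G.vv b) K p q := by
  by_cases hn : Nb p q
  · rw [G.ucost_eq b K hn]
    have := G.ext_low b p q
    have h2 : (0 : ℤ) ≤ (G.K0 : ℤ) * ncost G.h G.v p q := by positivity
    linarith
  · rw [ucost_not hn]
    have : (0 : ℤ) ≤ ∑ i, (ind (G.ea i) p q : ℤ) :=
      Finset.sum_nonneg fun i _ => by positivity
    linarith

theorem sum_ind (σ : Equiv.Perm (Fin G.n)) :
    ∑ i, ∑ e, (ind (G.ea e) (G.p (σ i)) (G.p (σ (finRotate G.n i))) : ℤ) ≤ m := by
  rw [Finset.sum_comm]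
  calc ∑ e, ∑ i, (ind (G.ea e) (G.p (σ i)) (G.p (σ (finRotate G.n i))) : ℤ)
      ≤ ∑ _e : Fin m, (1 : ℤ) := by
        refine Finset.sum_le_sum fun e _ => ?_
        have h := cntE_eq G.hn G.p G.hp σ (G.ea e)
        unfold cntE at h
        have h2 : ((∑ i, ind (G.ea e) (G.p (σ i)) (G.p (σ (finRotate G.n i))) : ℕ) : ℤ) ≤ 1 := by
          rw [h]; split_ifs <;> simp
        push_cast at h2
        exact h2
    _ = m := by simp

theorem tcost_unit (b : Fin m → Bool) (K : ℤ) (σ : Equiv.Perm (Fin G.n)) (hσ : UnitTour G.p σ) :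
    tcost G.hh (G.vv b) K G.p σ
      = (G.K0 : ℤ) * (∑ i, ncost G.h G.v (G.p (σ i)) (G.p (σ (finRotate G.n i))) : ℕ)
        + ((∑ i, if b i = true then -(cntE G.p σ (G.ea i) : ℤ) else 0)
        + ∑ i, ∑ j, if i < j ∧ b i = true ∧ b j = true then 2 * (cntE G.p σ (G.ey i j) : ℤ)
          else 0) := by
  unfold tcost
  rw [Finset.sum_congr rfl fun i _ => G.ucost_eq b K (hσ i), Finset.sum_add_distrib, G.sum_ext,
    ← Finset.mul_sum]
  push_cast
  rfl

/-- lower bound for the cost of every tour -/
theorem tcost_low (b : Fin m → Bool) (σ : Equiv.Perm (Fin G.n)) :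
    (G.K0 : ℤ) * G.B - 1 ≤ tcost G.hh (G.vv b) (G.K0 * G.B + m) G.p σ := by
  classical
  by_cases hσ : UnitTour G.p σ
  · rw [G.tcost_unit b _ σ hσ]
    have hlow := G.low σ hσ
    set S : ℕ := ∑ i, ncost G.h G.v (G.p (σ i)) (G.p (σ (finRotate G.n i))) with hS
    rcases hlow.eq_or_lt with h | h
    · -- a cheap tour
      rw [← h]
      have hsound := G.sound σ hσ h.symm
      set c : Fin m → Bool := fun i => decide (b i = true ∧ Used G.p σ (G.ea i)) with hc
      have hci : ∀ i, c i = true ↔ b i = true ∧ Used G.p σ (G.ea i) := by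
        intro i; rw [hc]; simp
      have h1 : (∑ i, if b i = true then -(cntE G.p σ (G.ea i) : ℤ) else 0)
          = - ∑ i, if c i = true then (1 : ℤ) else 0 := by
        rw [← Finset.sum_neg_distrib]
        refine Finset.sum_congr rfl fun i _ => ?_
        rw [cntE_eq G.hn G.p G.hp]
        by_cases hb : b i = true <;> by_cases hu : Used G.p σ (G.ea i) <;>
          simp [hci, hb, hu]
      have h2 : (∑ i, ∑ j, if i < j ∧ c i = true ∧ c j = true then (2 : ℤ) else 0)
          ≤ ∑ i, ∑ j, if i < j ∧ b i = true ∧ b j = true then 2 * (cntE G.p σ (G.ey i j) : ℤ)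
            else 0 := by
        refine Finset.sum_le_sum fun i _ => Finset.sum_le_sum fun j _ => ?_
        by_cases h3 : i < j ∧ c i = true ∧ c j = true
        · rw [if_pos h3]
          obtain ⟨hij, hi, hj⟩ := h3
          rw [hci] at hi hj
          rw [if_pos ⟨hij, hi.1, hj.1⟩, cntE_eq G.hn G.p G.hp,
            if_pos (hsound i j hij hi.2 hj.2)]
          norm_num
        · rw [if_neg h3]
          split_ifs
          · positivity
          · exact le_rfl
      have h3 := pairs_sum c
      rw [h1]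
      have h4 := sq_nonneg ((∑ i, if c i = true then (1 : ℤ) else 0) - 1)
      linarith
    · -- an expensive tour
      have h1 : -(m : ℤ) ≤ ∑ i, if b i = true then -(cntE G.p σ (G.ea i) : ℤ) else 0 := by
        have : -(m : ℤ) = ∑ _i : Fin m, (-1 : ℤ) := by simp
        rw [this]
        refine Finset.sum_le_sum fun i _ => ?_
        rw [cntE_eq G.hn G.p G.hp]
        split_ifs <;> simp
      have h2 : (0 : ℤ) ≤ ∑ i, ∑ j, if i < j ∧ b i = true ∧ b j = true then
          2 * (cntE G.p σ (G.ey i j) : ℤ) else 0 := by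
        refine Finset.sum_nonneg fun i _ => Finset.sum_nonneg fun j _ => ?_
        split_ifs
        · positivity
        · exact le_rfl
      have h3 : (G.K0 : ℤ) * G.B + G.K0 ≤ (G.K0 : ℤ) * (S : ℕ) := by
        have : (G.B : ℤ) + 1 ≤ (S : ℕ) := by exact_mod_cast h
        have h0 : (0 : ℤ) ≤ G.K0 := by positivity
        nlinarith
      have h4 : (G.K0 : ℤ) = m + 1 := by unfold K0; push_cast; ring
      linarith
  · unfold UnitTour at hσ
    push Not at hσ
    obtain ⟨i0, hi0⟩ := hσ
    have hK : (0 : ℤ) ≤ G.K0 * G.B + m := by positivity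
    unfold tcost
    rw [← Finset.add_sum_erase _ _ (Finset.mem_univ i0), ucost_not hi0]
    have h1 : ∑ i ∈ Finset.univ.erase i0,
        -(∑ e, (ind (G.ea e) (G.p (σ i)) (G.p (σ (finRotate G.n i))) : ℤ))
        ≤ ∑ i ∈ Finset.univ.erase i0, ucost G.hh (G.vv b) (G.K0 * G.B + m) (G.p (σ i))
          (G.p (σ (finRotate G.n i))) := Finset.sum_le_sum fun i _ => G.ucost_low b hK _ _
    rw [Finset.sum_neg_distrib] at h1
    have h2 := G.sum_ind σ
    have h3 : ∑ i ∈ Finset.univ.erase i0,
        (∑ e, (ind (G.ea e) (G.p (σ i)) (G.p (σ (finRotate G.n i))) : ℤ))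
        ≤ ∑ i, (∑ e, (ind (G.ea e) (G.p (σ i)) (G.p (σ (finRotate G.n i))) : ℤ)) :=
      Finset.sum_le_sum_of_subset_of_nonneg (Finset.erase_subset _ _) fun i _ _ =>
        Finset.sum_nonneg fun e _ => by positivity
    linarith

/-- the tour of the set `a` -/
noncomputable def tour (a : Fin m → Bool) : Equiv.Perm (Fin G.n) := (G.compl a).choose

theorem tour_spec (a : Fin m → Bool) : UnitTour G.p (G.tour a) ∧
    ∑ i, ncost G.h G.v (G.p (G.tour a i)) (G.p (G.tour a (finRotate G.n i))) = G.B ∧
    (∀ i, Used G.p (G.tour a) (G.ea i) ↔ a i = true) ∧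
    (∀ i j, i < j → (Used G.p (G.tour a) (G.ey i j) ↔ a i = true ∧ a j = true)) :=
  (G.compl a).choose_spec

/-- the cost of the tour of the set `a` -/
theorem tcost_tour (a b : Fin m → Bool) (K : ℤ) :
    tcost G.hh (G.vv b) K G.p (G.tour a) = (G.K0 : ℤ) * G.B + ((cap a b - 1) ^ 2 - 1) := by
  classical
  obtain ⟨hσ, hB, hea, hey⟩ := G.tour_spec a
  rw [G.tcost_unit b K _ hσ, hB]
  congr 1
  set c : Fin m → Bool := fun i => decide (a i = true ∧ b i = true) with hc
  have hci : ∀ i, c i = true ↔ a i = true ∧ b i = true := by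
    intro i; rw [hc]; simp
  have hcap : cap a b = ∑ i, if c i = true then (1 : ℤ) else 0 := by
    unfold cap
    exact Finset.sum_congr rfl fun i _ => by simp only [hci]
  rw [hcap, ← pairs_sum c]
  have h1 : (∑ i, if b i = true then -(cntE G.p (G.tour a) (G.ea i) : ℤ) else 0)
      = - ∑ i, if c i = true then (1 : ℤ) else 0 := by
    rw [← Finset.sum_neg_distrib]
    refine Finset.sum_congr rfl fun i _ => ?_
    rw [cntE_eq G.hn G.p G.hp]
    simp only [hea, hci]
    by_cases hb : b i = true <;> by_cases ha : a i = true <;> simp [hb, ha]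
  have h2 : (∑ i, ∑ j, if i < j ∧ b i = true ∧ b j = true then
        2 * (cntE G.p (G.tour a) (G.ey i j) : ℤ) else 0)
      = ∑ i, ∑ j, if i < j ∧ c i = true ∧ c j = true then (2 : ℤ) else 0 := by
    refine Finset.sum_congr rfl fun i _ => Finset.sum_congr rfl fun j _ => ?_
    by_cases hij : i < j
    · rw [cntE_eq G.hn G.p G.hp]
      simp only [hey i j hij, hci]
      by_cases hb : b i = true <;> by_cases ha : a i = true <;>
        by_cases hb' : b j = true <;> by_cases ha' : a j = true <;> simp [hb, ha, hb', ha', hij]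
    · simp [hij]
  rw [h1, h2]
  ring

/-- bound for the costs -/
def Cb : ℕ := (m + 1) * G.C + m + 2 * (m * m)

theorem box (b : Fin m → Bool) (N : ℕ) : Box G.hh (G.vv b) N G.Cb := by
  have hK : (G.K0 : ℤ) = m + 1 := by unfold K0; push_cast; ring
  constructor
  · intro x y
    unfold hh
    rw [hK, abs_of_nonneg (by positivity)]
    unfold Cb
    push_cast
    have : (G.h x y : ℤ) ≤ G.C := by exact_mod_cast G.hC x y
    nlinarith [show (0 : ℤ) ≤ m by positivity]
  · intro x y
    unfold vv
    have h1 : |(G.K0 : ℤ) * G.v x y| ≤ ((m : ℤ) + 1) * G.C := by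
      rw [hK, abs_of_nonneg (by positivity)]
      have : (G.v x y : ℤ) ≤ G.C := by exact_mod_cast G.vC x y
      nlinarith [show (0 : ℤ) ≤ m by positivity]
    have h2 : |G.extra b x y| ≤ (m : ℤ) + 2 * (m * m) := by
      unfold extra
      refine (abs_add_le _ _).trans (add_le_add ?_ ?_)
      · refine (Finset.abs_sum_le_sum_abs _ _).trans ?_
        calc ∑ i, |if b i = true ∧ G.ea i = (x, y) then (-1 : ℤ) else 0|
            ≤ ∑ _i : Fin m, (1 : ℤ) := by
              refine Finset.sum_le_sum fun i _ => ?_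
              split_ifs <;> simp
          _ = m := by simp
      · refine (Finset.abs_sum_le_sum_abs _ _).trans ?_
        calc ∑ i, |∑ j, if (i < j ∧ b i = true ∧ b j = true) ∧ G.ey i j = (x, y) then (2 : ℤ)
              else 0|
            ≤ ∑ _i : Fin m, ∑ _j : Fin m, (2 : ℤ) := by
              refine Finset.sum_le_sum fun i _ => ?_
              refine (Finset.abs_sum_le_sum_abs _ _).trans ?_
              refine Finset.sum_le_sum fun j _ => ?_
              split_ifs <;> simp
          _ = 2 * (m * m) := by simp; ring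
    refine (abs_add_le _ _).trans ?_
    unfold Cb
    push_cast
    linarith

end Pool.Agent.Helper68.LP.Gadget
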